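import Pool.Statements.S0531
-- import your own Pool.Agent.* helpers here

set_option autoImplicit false
open Pool Pool.MP_5ee74f_al

namespace Pool.Agent.S0531

open Topology Filter

section LA

variable {K : Type} [TopologicalSpace K] [CompactSpace K]

/-- the value of a `ℤ`-valued finitely additive measure on an `A`-valued locally constant map -/
noncomputable def LA (L : LocallyConstant K ℤ →ₗ[ℤ] ℤ) {A : Type} [AddCommGroup A]
    (f : LocallyConstant K A) : A :=
  ∑ a ∈ f.range_finite.toFinset, L (LocallyConstant.charFn ℤ (f.isLocallyConstant.isClopen_fiber a)) • a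

lemma LA_map (L : LocallyConstant K ℤ →ₗ[ℤ] ℤ) {A B : Type} [AddCommGroup A] [AddCommGroup B]
    (π : A →+ B) (f : LocallyConstant K A) : π (LA L f) = LA L (f.map π) := by
  classical
  unfold LA
  rw [map_sum]
  have hmaps : ∀ a ∈ f.range_finite.toFinset, π a ∈ (f.map π).range_finite.toFinset := by
    intro a ha
    rw [Set.Finite.mem_toFinset] at ha ⊢
    obtain ⟨x, rfl⟩ := ha
    exact ⟨x, rfl⟩
  rw [← Finset.sum_fiberwise_of_maps_to hmaps]
  apply Finset.sum_congr rfl
  intro c _
  have h1 : ∑ a ∈ f.range_finite.toFinset with π a = c,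
      π (L (LocallyConstant.charFn ℤ (f.isLocallyConstant.isClopen_fiber a)) • a)
      = (∑ a ∈ f.range_finite.toFinset with π a = c,
        L (LocallyConstant.charFn ℤ (f.isLocallyConstant.isClopen_fiber a))) • c := by
    rw [Finset.sum_smul]
    apply Finset.sum_congr rfl
    intro a ha
    rw [map_zsmul, (Finset.mem_filter.mp ha).2]
  rw [h1, ← map_sum]
  congr 2
  ext x
  have hsum : (∑ a ∈ f.range_finite.toFinset with π a = c,
      LocallyConstant.charFn ℤ (f.isLocallyConstant.isClopen_fiber a)) x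
      = ∑ a ∈ f.range_finite.toFinset with π a = c,
      (LocallyConstant.charFn ℤ (f.isLocallyConstant.isClopen_fiber a) x) := by
    have := map_sum (LocallyConstant.evalAddMonoidHom (X := K) (Y := ℤ) x)
      (fun a => LocallyConstant.charFn ℤ (f.isLocallyConstant.isClopen_fiber a))
      (f.range_finite.toFinset.filter (fun a => π a = c))
    exact this
  rw [hsum]
  simp only [LocallyConstant.coe_charFn, Set.indicator_apply]
  by_cases hx : π (f x) = c
  · have hmem : f x ∈ f.range_finite.toFinset.filter (fun a => π a = c) := by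
      rw [Finset.mem_filter, Set.Finite.mem_toFinset]
      exact ⟨⟨x, rfl⟩, hx⟩
    rw [Finset.sum_eq_single_of_mem (f x) hmem]
    · simp [hx]
    · intro b _ hb
      simp [hb.symm]
  · rw [Finset.sum_eq_zero]
    · simp [hx]
    · intro a ha
      have h2 := (Finset.mem_filter.mp ha).2
      have h3 : f x ≠ a := by
        rintro rfl
        exact hx h2
      simp [h3]

end LA

section main

variable {G : Type} [AddCommGroup G] [UniformSpace G] [IsUniformAddGroup G]
  [T2Space G] [CompleteSpace G]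

lemma exists_lim (hbasis : ∀ s ∈ nhds (0 : G), ∃ U : AddSubgroup G, IsOpen (U : Set G) ∧ (U : Set G) ⊆ s)
    (a : OpenAddSubgroup G → G) (ha : ∀ U V : OpenAddSubgroup G, V ≤ U → a V - a U ∈ U) :
    ∃ g, ∀ U : OpenAddSubgroup G, g - a U ∈ U := by
  let u : (OpenAddSubgroup G)ᵒᵈ → G := fun U => a (OrderDual.ofDual U)
  have hc : CauchySeq u := by
    rw [cauchySeq_iff_tendsto]
    intro V hV
    rw [uniformity_eq_comap_nhds_zero G, Filter.mem_comap] at hV
    obtain ⟨s, hs, hsV⟩ := hV
    obtain ⟨U, hU, hUs⟩ := hbasis s hs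
    rw [Filter.mem_map]
    have hev := Filter.eventually_ge_atTop (α := (OpenAddSubgroup G)ᵒᵈ × (OpenAddSubgroup G)ᵒᵈ)
      (OrderDual.toDual ⟨U, hU⟩, OrderDual.toDual ⟨U, hU⟩)
    filter_upwards [hev] with kl hkl
    obtain ⟨k, l⟩ := kl
    obtain ⟨hk, hl⟩ := hkl
    apply hsV
    show a (OrderDual.ofDual l) - a (OrderDual.ofDual k) ∈ s
    apply hUs
    have h1 := ha ⟨U, hU⟩ (OrderDual.ofDual k) hk
    have h2 := ha ⟨U, hU⟩ (OrderDual.ofDual l) hl
    have h3 := U.sub_mem h2 h1
    simpa using h3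
  obtain ⟨g, hg⟩ := cauchySeq_tendsto_of_complete hc
  refine ⟨g, fun U => ?_⟩
  have hclosed : IsClosed {x : G | x - a U ∈ (U : Set G)} :=
    (U.isClosed).preimage (continuous_id.sub continuous_const)
  apply hclosed.mem_of_tendsto hg
  filter_upwards [Filter.eventually_ge_atTop (OrderDual.toDual U)] with k hk
  exact ha U (OrderDual.ofDual k) hk

lemma eq_of_mod (hbasis : ∀ s ∈ nhds (0 : G), ∃ U : AddSubgroup G, IsOpen (U : Set G) ∧ (U : Set G) ⊆ s)
    (x y : G) (h : ∀ U : OpenAddSubgroup G, x - y ∈ U) : x = y := by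
  by_contra hne
  have h0 : x - y ≠ 0 := sub_ne_zero.mpr hne
  have hs : ({x - y}ᶜ : Set G) ∈ nhds (0 : G) := isOpen_compl_singleton.mem_nhds (by
    simp only [Set.mem_compl_iff, Set.mem_singleton_iff]
    exact fun h => h0 h.symm)
  obtain ⟨U, hU, hUs⟩ := hbasis _ hs
  exact hUs (h ⟨U, hU⟩) rfl

lemma totDisc (hbasis : ∀ s ∈ nhds (0 : G), ∃ U : AddSubgroup G, IsOpen (U : Set G) ∧ (U : Set G) ⊆ s) :
    TotallyDisconnectedSpace G := by
  have : TotallySeparatedSpace G := by
    rw [totallySeparatedSpace_iff]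
    intro x _ y _ hne
    have hex : ∃ U : OpenAddSubgroup G, x - y ∉ U := by
      by_contra hcon
      push Not at hcon
      exact hne (eq_of_mod hbasis x y hcon)
    obtain ⟨U, hU⟩ := hex
    have hclopen : IsClopen {z : G | z - y ∈ (U : Set G)} :=
      ⟨(U.isClosed).preimage (continuous_id.sub continuous_const),
        (U.isOpen).preimage (continuous_id.sub continuous_const)⟩
    refine ⟨{z : G | z - y ∈ (U : Set G)}ᶜ, {z : G | z - y ∈ (U : Set G)}, hclopen.compl.isOpen,
      hclopen.isOpen, hU, ?_, ?_, ?_⟩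
    · show y - y ∈ U
      rw [sub_self]; exact U.zero_mem
    · intro z _
      by_cases hz : z ∈ {z : G | z - y ∈ (U : Set G)}
      · exact Or.inr hz
      · exact Or.inl hz
    · exact disjoint_compl_left
  infer_instance

lemma mainStep (hbasis : ∀ s ∈ nhds (0 : G), ∃ U : AddSubgroup G, IsOpen (U : Set G) ∧ (U : Set G) ⊆ s)
    (K : Set G) (hK : IsCompact K) :
    ∃ (J : Type) (h : (J → ℤ) →+ G),
      (∀ U : OpenAddSubgroup G, ∃ E : Finset J, ∀ φ : J → ℤ, (∀ j ∈ E, φ j = 0) → h φ ∈ U) ∧
      ∀ x ∈ K, ∃ φ, h φ = x := by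
  classical
  have htd := totDisc hbasis
  have : CompactSpace K := isCompact_iff_compactSpace.mp hK
  have hfree : Module.Free ℤ (LocallyConstant K ℤ) :=
    LocallyConstant.freeOfProfinite (Profinite.of K)
  let b := Module.Free.chooseBasis ℤ (LocallyConstant K ℤ)
  let J := Module.Free.ChooseBasisIndex ℤ (LocallyConstant K ℤ)
  let L : (J → ℤ) → (LocallyConstant K ℤ →ₗ[ℤ] ℤ) := fun φ => b.constr ℤ φ
  have hLadd : ∀ φ ψ, L (φ + ψ) = L φ + L ψ := fun φ ψ => map_add (b.constr ℤ) φ ψ
  -- the reduction maps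
  let q : ∀ U : OpenAddSubgroup G, LocallyConstant K (G ⧸ (U : AddSubgroup G)) := fun U =>
    ⟨fun x => QuotientAddGroup.mk (x : G), by
      have : DiscreteTopology (G ⧸ (U : AddSubgroup G)) :=
        QuotientAddGroup.discreteTopology U.isOpen
      rw [IsLocallyConstant.iff_continuous]
      exact continuous_quotient_mk'.comp continuous_subtype_val⟩
  have hs : ∀ (φ : J → ℤ) (U : OpenAddSubgroup G),
      ∃ g : G, (QuotientAddGroup.mk g : G ⧸ (U : AddSubgroup G)) = LA (L φ) (q U) :=
    fun φ U => QuotientAddGroup.mk_surjective _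
  choose a ha1 using hs
  have hcomp : ∀ φ, ∀ U V : OpenAddSubgroup G, V ≤ U → a φ V - a φ U ∈ U := by
    intro φ U V hVU
    let π : (G ⧸ (V : AddSubgroup G)) →+ (G ⧸ (U : AddSubgroup G)) :=
      QuotientAddGroup.map _ _ (AddMonoidHom.id G) hVU
    have h1 := LA_map (L φ) π (q V)
    have h2 : (q V).map π = q U := by
      ext x; rfl
    rw [h2, ← ha1, ← ha1] at h1
    have h3 : (QuotientAddGroup.mk (a φ V) : G ⧸ (U : AddSubgroup G)) = QuotientAddGroup.mk (a φ U) := h1
    rw [QuotientAddGroup.eq] at h3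
    have h4 := U.neg_mem h3
    simpa [sub_eq_add_neg, add_comm] using h4
  choose h hh using fun φ => exists_lim hbasis (a φ) (hcomp φ)
  have hmk : ∀ φ (U : OpenAddSubgroup G),
      (QuotientAddGroup.mk (h φ) : G ⧸ (U : AddSubgroup G)) = LA (L φ) (q U) := by
    intro φ U
    rw [← ha1, eq_comm, QuotientAddGroup.eq]
    have := hh φ U
    rw [neg_add_eq_sub]
    exact this
  have hmkeq : ∀ x y : G, (∀ U : OpenAddSubgroup G,
      (QuotientAddGroup.mk x : G ⧸ (U : AddSubgroup G)) = QuotientAddGroup.mk y) → x = y := by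
    intro x y hxy
    apply Eq.symm
    apply eq_of_mod hbasis
    intro U
    have := hxy U
    rw [QuotientAddGroup.eq, neg_add_eq_sub] at this
    exact this
  have hadd : ∀ φ ψ, h (φ + ψ) = h φ + h ψ := by
    intro φ ψ
    apply hmkeq
    intro U
    rw [hmk, QuotientAddGroup.mk_add, hmk, hmk, hLadd]
    unfold LA
    rw [← Finset.sum_add_distrib]
    apply Finset.sum_congr rfl
    intro c _
    rw [LinearMap.add_apply, add_smul]
  have hzero : h 0 = 0 := by
    have := hadd 0 0
    rw [add_zero] at this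
    exact left_eq_add.mp this
  refine ⟨J, ⟨⟨h, hzero⟩, hadd⟩, ?_, ?_⟩
  · intro U
    refine ⟨(q U).range_finite.toFinset.biUnion (fun c => (b.repr (LocallyConstant.charFn ℤ
      ((q U).isLocallyConstant.isClopen_fiber c))).support), ?_⟩
    intro φ hφ
    show h φ ∈ U
    have h1 := hmk φ U
    have h2 : LA (L φ) (q U) = 0 := by
      unfold LA
      apply Finset.sum_eq_zero
      intro c hc
      have h3 : L φ (LocallyConstant.charFn ℤ ((q U).isLocallyConstant.isClopen_fiber c)) = 0 := by
        show b.constr ℤ φ _ = 0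
        rw [Module.Basis.constr_apply]
        apply Finset.sum_eq_zero
        intro j hj
        show _ • φ j = 0
        rw [hφ j (Finset.mem_biUnion.mpr ⟨c, hc, hj⟩), smul_zero]
      rw [h3, zero_smul]
    rw [h2, QuotientAddGroup.eq_zero_iff] at h1
    exact h1
  · intro x hx
    refine ⟨fun j => b j ⟨x, hx⟩, ?_⟩
    show h _ = x
    apply hmkeq
    intro U
    rw [hmk]
    have h3 : ∀ f : LocallyConstant K ℤ, L (fun j => b j ⟨x, hx⟩) f = f ⟨x, hx⟩ := by
      intro f
      have : L (fun j => b j ⟨x, hx⟩) = LocallyConstant.evalₗ ℤ (⟨x, hx⟩ : K) := by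
        apply b.ext
        intro j
        show b.constr ℤ _ (b j) = _
        rw [Module.Basis.constr_basis]
        rfl
      rw [this]; rfl
    unfold LA
    simp only [h3, LocallyConstant.coe_charFn]
    rw [Finset.sum_eq_single_of_mem ((q U) ⟨x, hx⟩)]
    · simp
      rfl
    · rw [Set.Finite.mem_toFinset]; exact ⟨_, rfl⟩
    · intro c _ hc
      simp [hc.symm]

end main

open scoped Pointwise

/-- `n`-fold sums of elements of `K ∪ -K` -/
def Kn {G : Type} [AddCommGroup G] (K : Set G) : ℕ → Set G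
  | 0 => {0}
  | n + 1 => (K ∪ -K) + Kn K n

/-- Every complete Hausdorff abelian group with a basis of open subgroups at 0, generated by a compact set, and with no nontrivial compact subgroups, is discrete and isomorphic to Z^n for some n. -/
theorem result :
    ∀ (G : Type) [AddCommGroup G] [UniformSpace G] [IsUniformAddGroup G]
      [T2Space G] [CompleteSpace G],
      (∀ s ∈ nhds (0 : G), ∃ U : AddSubgroup G, IsOpen (U : Set G) ∧ (U : Set G) ⊆ s) →
      (∃ K : Set G, IsCompact K ∧ AddSubgroup.closure K = ⊤) →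
      (∀ H : AddSubgroup G, IsCompact (H : Set G) → H = ⊥) →
      DiscreteTopology G ∧ ∃ n : ℕ, Nonempty (G ≃+ (Fin n → ℤ)) := by
  classical
  intro G _ _ _ _ _ hbasis ⟨K, hK, hgen⟩ hfree
  obtain ⟨J, h, hcont, hsurj⟩ := mainStep hbasis K hK
  have hsurj' : Function.Surjective h := by
    rw [← AddMonoidHom.range_eq_top, eq_top_iff, ← hgen, AddSubgroup.closure_le]
    intro x hx
    obtain ⟨φ, hφ⟩ := hsurj x hx
    exact ⟨φ, hφ⟩
  have hKn : ∀ n, IsCompact (Kn K n) := by
    intro n
    induction n with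
    | zero => exact isCompact_singleton
    | succ n ih => exact (hK.union hK.neg).add ih
  have hcover : ∀ g : G, ∃ n, g ∈ Kn K n := by
    intro g
    have hg : g ∈ AddSubmonoid.closure (K ∪ -K) := by
      rw [← AddSubgroup.closure_toAddSubmonoid, hgen]
      exact AddSubgroup.mem_top g
    induction hg using AddSubmonoid.closure_induction_left with
    | zero => exact ⟨0, rfl⟩
    | add_left x hx y hy ih =>
      obtain ⟨n, hn⟩ := ih
      exact ⟨n + 1, Set.add_mem_add hx hn⟩
  -- the Baire category argument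
  have hbaire : ∃ (n : ℕ) (E : Finset J) (φ0 : J → ℤ), ∀ ψ : J → ℤ, (∀ j ∈ E, ψ j = φ0 j) →
      h ψ ∈ Kn K n := by
    by_contra hcon
    push Not at hcon
    have hstep : ∀ (n : ℕ) (E : Finset J) (φ : J → ℤ), ∃ (E' : Finset J) (ψ : J → ℤ), E ⊆ E' ∧
        (∀ j ∈ E, ψ j = φ j) ∧ ∀ χ : J → ℤ, (∀ j ∈ E', χ j = ψ j) → h χ ∉ Kn K n := by
      intro n E φ
      obtain ⟨ψ, hψ, hout⟩ := hcon n E φ
      have hs : {x : G | h ψ + x ∈ (Kn K n)ᶜ} ∈ nhds (0 : G) := by
        apply IsOpen.mem_nhds
        · exact (hKn n).isClosed.isOpen_compl.preimage (continuous_const.add continuous_id)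
        · show h ψ + 0 ∈ (Kn K n)ᶜ
          rw [add_zero]; exact hout
      obtain ⟨U, hU, hUs⟩ := hbasis _ hs
      obtain ⟨E1, hE1⟩ := hcont ⟨U, hU⟩
      refine ⟨E ∪ E1, ψ, Finset.subset_union_left, hψ, ?_⟩
      intro χ hχ
      have h1 : h (χ - ψ) ∈ U := hE1 _ (fun j hj => by
        rw [Pi.sub_apply, hχ j (Finset.mem_union_right _ hj), sub_self])
      have h2 := hUs h1
      have h3 : h ψ + h (χ - ψ) ∈ (Kn K n)ᶜ := h2
      rw [← map_add, add_sub_cancel] at h3
      exact h3
    choose E' ψ' hE hψ hout using hstep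
    let st : ℕ → Finset J × (J → ℤ) := fun n =>
      Nat.rec (∅, 0) (fun n s => (E' n s.1 s.2, ψ' n s.1 s.2)) n
    have hst : ∀ n, st (n + 1) = (E' n (st n).1 (st n).2, ψ' n (st n).1 (st n).2) := fun n => rfl
    have hmono : ∀ n m, n ≤ m → (st n).1 ⊆ (st m).1 ∧ ∀ j ∈ (st n).1, (st m).2 j = (st n).2 j := by
      intro n m hnm
      induction m, hnm using Nat.le_induction with
      | base => exact ⟨subset_rfl, fun _ _ => rfl⟩
      | succ m _ ih =>
        rw [hst]
        refine ⟨ih.1.trans (hE _ _ _), fun j hj => ?_⟩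
        exact (hψ _ _ _ j (ih.1 hj)).trans (ih.2 j hj)
    let φ : J → ℤ := fun j => if hj : ∃ n, j ∈ (st n).1 then (st (Nat.find hj)).2 j else 0
    have hφ : ∀ n, ∀ j ∈ (st n).1, φ j = (st n).2 j := by
      intro n j hj
      have hex : ∃ n, j ∈ (st n).1 := ⟨n, hj⟩
      have h1 : φ j = (st (Nat.find hex)).2 j := dif_pos hex
      rw [h1]
      exact ((hmono _ n (Nat.find_min' hex hj)).2 j (Nat.find_spec hex)).symm
    obtain ⟨n, hn⟩ := hcover (h φ)
    refine hout n (st n).1 (st n).2 φ ?_ hn
    intro j hj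
    exact hφ (n + 1) j hj
  obtain ⟨n, E, φ0, hE⟩ := hbaire
  let H0 : AddSubgroup (J → ℤ) :=
    { carrier := {χ | ∀ j ∈ E, χ j = 0}
      zero_mem' := fun _ _ => rfl
      add_mem' := fun {a b} ha hb j hj => by rw [Pi.add_apply, ha j hj, hb j hj, add_zero]
      neg_mem' := fun {a} ha j hj => by rw [Pi.neg_apply, ha j hj, neg_zero] }
  have hH : H0.map h = ⊥ := by
    have hC : IsCompact ((fun x => x - h φ0) '' (Kn K n)) :=
      (hKn n).image (continuous_id.sub continuous_const)
    have hsub : ((H0.map h : AddSubgroup G) : Set G) ⊆ (fun x => x - h φ0) '' (Kn K n) := by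
      rintro _ ⟨χ, hχ, rfl⟩
      refine ⟨h (φ0 + χ), hE _ (fun j hj => ?_), ?_⟩
      · have : χ j = 0 := hχ j hj
        rw [Pi.add_apply, this, add_zero]
      · simp only [map_add, add_sub_cancel_left]
    have hcl : (((H0.map h).topologicalClosure : AddSubgroup G) : Set G) ⊆
        (fun x => x - h φ0) '' (Kn K n) := by
      rw [AddSubgroup.topologicalClosure_coe]
      exact closure_minimal hsub hC.isClosed
    have hcomp : IsCompact (((H0.map h).topologicalClosure : AddSubgroup G) : Set G) :=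
      hC.of_isClosed_subset (AddSubgroup.isClosed_topologicalClosure _) hcl
    have h1 := hfree _ hcomp
    rw [eq_bot_iff, ← h1]
    exact AddSubgroup.le_topologicalClosure _
  have hker : ∀ χ : J → ℤ, (∀ j ∈ E, χ j = 0) → h χ = 0 := by
    intro χ hχ
    have : h χ ∈ H0.map h := ⟨χ, hχ, rfl⟩
    rw [hH] at this
    exact AddSubgroup.mem_bot.mp this
  -- finite generation
  let ext : (E → ℤ) →+ (J → ℤ) :=
    { toFun := fun c j => if hj : j ∈ E then c ⟨j, hj⟩ else 0
      map_zero' := by
        funext j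
        by_cases hj : j ∈ E <;> simp [hj]
      map_add' := by
        intro c d
        funext j
        by_cases hj : j ∈ E <;> simp [hj] }
  have hfin : Module.Finite ℤ G := by
    apply Module.Finite.of_surjective ((h.comp ext).toIntLinearMap)
    intro g
    obtain ⟨φ, rfl⟩ := hsurj' g
    refine ⟨fun j => φ j, ?_⟩
    show h (ext _) = h φ
    have h1 : h (φ - ext (fun j => φ j)) = 0 := by
      apply hker
      intro j hj
      show φ j - (if hj : j ∈ E then φ j else 0) = 0
      simp [hj]
    rw [map_sub, sub_eq_zero] at h1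
    exact h1.symm
  have htf : IsAddTorsionFree G := by
    rw [isAddTorsionFree_iff_not_isOfFinAddOrder]
    intro g hg hfo
    have h1 : (AddSubgroup.zmultiples g : Set G).Finite := by
      exact hfo.finite_zmultiples
    have h2 := hfree _ h1.isCompact
    exact hg (AddSubgroup.zmultiples_eq_bot.mp h2)
  have hmf : Module.Free ℤ G := inferInstance
  have e : G ≃ₗ[ℤ] (Fin (Module.finrank ℤ G) → ℤ) := (Module.finBasis ℤ G).equivFun
  refine ⟨?_, ⟨_, ⟨e.toAddEquiv⟩⟩⟩
  have hcount : Countable G := e.toEquiv.countable_iff.mpr inferInstance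
  have hcsub : Countable (Submodule ℤ G) := by
    have : Function.Surjective (fun s : Finset G => Submodule.span ℤ (s : Set G)) := by
      intro N
      obtain ⟨s, hs⟩ := IsNoetherian.noetherian N
      exact ⟨s, hs⟩
    exact this.countable
  have hnb : (nhds (0 : G)).IsCountablyGenerated := by
    have hb : (nhds (0 : G)).HasCountableBasis (fun N : Submodule ℤ G => IsOpen (N : Set G))
        (fun N => (N : Set G)) := by
      refine ⟨⟨?_⟩, Set.to_countable _⟩
      intro t
      constructor
      · intro ht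
        obtain ⟨U, hU, hUt⟩ := hbasis t ht
        exact ⟨AddSubgroup.toIntSubmodule U, hU, hUt⟩
      · rintro ⟨N, hN, hNt⟩
        exact Filter.mem_of_superset (hN.mem_nhds N.zero_mem) hNt
    exact hb.isCountablyGenerated
  have hug : (uniformity G).IsCountablyGenerated := IsUniformAddGroup.uniformity_countably_generated
  obtain ⟨g, hg⟩ := nonempty_interior_of_iUnion_of_closed (f := fun g : G => ({g} : Set G))
    (fun g => isClosed_singleton) (by ext x; simp)
  apply discreteTopology_of_isOpen_singleton_zero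
  have h1 : interior ({g} : Set G) = {g} := by
    obtain ⟨x, hx⟩ := hg
    have hxg : x ∈ ({g} : Set G) := interior_subset hx
    have hxg' : x = g := hxg
    apply Set.Subset.antisymm interior_subset
    intro y hy
    have hyg : y = g := hy
    rw [hyg, ← hxg']
    rw [← hxg'] at hx
    exact hx
  have h2 : IsOpen ({g} : Set G) := by rw [← h1]; exact isOpen_interior
  have h3 : ({0} : Set G) = (fun x => g + x) ⁻¹' {g} := by
    ext x; simp
  rw [h3]
  exact h2.preimage (continuous_const.add continuous_id)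

end Pool.Agent.S0531
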