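import Mathlib
import Pool.Statements.S1292
-- import your own Pool.Agent.* helpers here

set_option autoImplicit false
open Pool Pool.MP_275f89_an

namespace Pool.Agent.S1292

/-- unit step at `c` -/
noncomputable def step (c : ℝ) : ℝ → ℝ := fun x => if c < x then (1 : ℝ) else 0

lemma step_nonneg (c x : ℝ) : 0 ≤ step c x := by unfold step; split_ifs <;> norm_num
lemma step_le_one (c x : ℝ) : step c x ≤ 1 := by unfold step; split_ifs <;> norm_num
lemma step_mono (c : ℝ) : Monotone (step c) := by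
  intro x y hxy
  unfold step
  split_ifs with h1 h2
  · exact le_rfl
  · exact absurd (lt_of_lt_of_le h1 hxy) h2
  · norm_num
  · exact le_rfl
lemma step_left (c x : ℝ) : ContinuousWithinAt (step c) (Set.Iio x) x := by
  rcases lt_or_ge c x with h | h
  · have : step c =ᶠ[nhds x] fun _ => 1 := by
      filter_upwards [lt_mem_nhds h] with y hy
      simp [step, hy]
    exact (continuousAt_const.congr this.symm).continuousWithinAt
  · refine (continuousWithinAt_const (b := (0 : ℝ))).congr ?_ ?_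
    · intro y hy
      have : ¬ c < y := not_lt.mpr (le_trans (le_of_lt hy) h)
      simp [step, this]
    · simp [step, not_lt.mpr h]

/-- the set of distance distribution functions -/
def DD : Set (ℝ → ℝ) := {F : ℝ → ℝ | Monotone F ∧ (∀ x, 0 ≤ F x ∧ F x ≤ 1) ∧ (∀ x : ℝ, x ≤ 0 → F x = 0) ∧
            ∀ x : ℝ, ContinuousWithinAt F (Set.Iio x) x}

lemma zero_mem : (0 : ℝ → ℝ) ∈ DD :=
  ⟨monotone_const, fun _ => ⟨le_rfl, zero_le_one⟩, fun _ _ => rfl, fun _ => continuousWithinAt_const⟩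

lemma inf_mem {F G : ℝ → ℝ} (hF : F ∈ DD) (hG : G ∈ DD) : F ⊓ G ∈ DD := by
  refine ⟨hF.1.inf hG.1, fun x => ⟨le_inf (hF.2.1 x).1 (hG.2.1 x).1, inf_le_left.trans (hF.2.1 x).2⟩,
    fun x hx => ?_, fun x => (hF.2.2.2 x).min (hG.2.2.2 x)⟩
  simp [hF.2.2.1 x hx, hG.2.2.1 x hx]

lemma le_e {F : ℝ → ℝ} (hF : F ∈ DD) : F ≤ step 0 := by
  intro x
  unfold step
  split_ifs with h
  · exact (hF.2.1 x).2
  · exact (hF.2.2.1 x (not_lt.mp h)).le

open Classical in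
/-- the non-causal triangle function -/
noncomputable def tau (F G : ℝ → ℝ) : ℝ → ℝ :=
  if F = step 0 then G else if G = step 0 then F else if F 2 = 1 ∧ G 2 = 1 then F ⊓ G else 0

lemma tau_e_left (G : ℝ → ℝ) : tau (step 0) G = G := by simp [tau]
lemma tau_e_right (F : ℝ → ℝ) : tau F (step 0) = F := by
  by_cases h : F = step 0
  · rw [h, tau_e_left]
  · simp [tau, h]
lemma tau_pos {F G : ℝ → ℝ} (hF : F ≠ step 0) (hG : G ≠ step 0) (h : F 2 = 1 ∧ G 2 = 1) :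
    tau F G = F ⊓ G := by simp [tau, hF, hG, h]
lemma tau_neg {F G : ℝ → ℝ} (hF : F ≠ step 0) (hG : G ≠ step 0) (h : ¬ (F 2 = 1 ∧ G 2 = 1)) :
    tau F G = 0 := by simp [tau, hF, hG, h]

lemma tau_mem {F G : ℝ → ℝ} (hF : F ∈ DD) (hG : G ∈ DD) : tau F G ∈ DD := by
  unfold tau; split_ifs
  · exact hG
  · exact hF
  · exact inf_mem hF hG
  · exact zero_mem

lemma tau_comm (F G : ℝ → ℝ) : tau F G = tau G F := by
  by_cases hF : F = step 0
  · subst hF; rw [tau_e_left, tau_e_right]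
  by_cases hG : G = step 0
  · subst hG; rw [tau_e_left, tau_e_right]
  by_cases h : F 2 = 1 ∧ G 2 = 1
  · rw [tau_pos hF hG h, tau_pos hG hF h.symm, inf_comm]
  · rw [tau_neg hF hG h, tau_neg hG hF (fun h' => h h'.symm)]

lemma zero_ne : (0 : ℝ → ℝ) ≠ step 0 := by
  intro h
  have := congrFun h 1
  simp [step] at this

lemma tau_ne {F G : ℝ → ℝ} (hFD : F ∈ DD) (hF : F ≠ step 0) (hG : G ≠ step 0) : tau F G ≠ step 0 := by
  by_cases h : F 2 = 1 ∧ G 2 = 1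
  · rw [tau_pos hF hG h]
    intro h'
    apply hF
    apply le_antisymm (le_e hFD)
    rw [← h']
    exact inf_le_left
  · rw [tau_neg hF hG h]; exact zero_ne

lemma tau_val {F G : ℝ → ℝ} (hF : F ≠ step 0) (hG : G ≠ step 0) (hFD : F ∈ DD) (hGD : G ∈ DD) :
    tau F G 2 = 1 ↔ (F 2 = 1 ∧ G 2 = 1) := by
  by_cases h : F 2 = 1 ∧ G 2 = 1
  · rw [tau_pos hF hG h]; simp [h]
  · rw [tau_neg hF hG h]; simp [h]

lemma tau_assoc {F G H : ℝ → ℝ} (hF : F ∈ DD) (hG : G ∈ DD) (hH : H ∈ DD) :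
    tau (tau F G) H = tau F (tau G H) := by
  by_cases h1 : F = step 0
  · subst h1; rw [tau_e_left, tau_e_left]
  by_cases h2 : G = step 0
  · subst h2; rw [tau_e_left, tau_e_right]
  by_cases h3 : H = step 0
  · subst h3; rw [tau_e_right, tau_e_right]
  have hFG := tau_ne (G := G) hF h1 h2
  have hGH := tau_ne (G := H) hG h2 h3
  by_cases hall : F 2 = 1 ∧ G 2 = 1 ∧ H 2 = 1
  · obtain ⟨a1, a2, a3⟩ := hall
    have e1 : tau F G = F ⊓ G := tau_pos h1 h2 ⟨a1, a2⟩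
    have e2 : tau G H = G ⊓ H := tau_pos h2 h3 ⟨a2, a3⟩
    rw [tau_pos hFG h3 ⟨(tau_val h1 h2 hF hG).2 ⟨a1, a2⟩, a3⟩,
      tau_pos h1 hGH ⟨a1, (tau_val h2 h3 hG hH).2 ⟨a2, a3⟩⟩, e1, e2, inf_assoc]
  · rw [tau_neg hFG h3, tau_neg h1 hGH]
    · rw [tau_val h2 h3 hG hH]; exact hall
    · rw [tau_val h1 h2 hF hG]; tauto

lemma tau_mono {F₁ F₂ G : ℝ → ℝ} (h1 : F₁ ∈ DD) (h2 : F₂ ∈ DD) (hG : G ∈ DD) (h : F₁ ≤ F₂) :
    tau F₁ G ≤ tau F₂ G := by
  by_cases e1 : F₁ = step 0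
  · have e2 : F₂ = step 0 := le_antisymm (le_e h2) (e1 ▸ h)
    rw [e1, e2]
  by_cases e3 : G = step 0
  · subst e3; rw [tau_e_right, tau_e_right]; exact h
  by_cases hP : F₁ 2 = 1 ∧ G 2 = 1
  · have hP2 : F₂ 2 = 1 := le_antisymm (h2.2.1 2).2 (hP.1 ▸ h 2)
    rw [tau_pos e1 e3 hP]
    by_cases e2 : F₂ = step 0
    · rw [e2, tau_e_left]; exact inf_le_right
    · rw [tau_pos e2 e3 ⟨hP2, hP.2⟩]; exact inf_le_inf_right _ h
  · rw [tau_neg e1 e3 hP]
    intro x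
    exact ((tau_mem h2 hG).2.1 x).1

lemma half_mem : (fun x => 1 / 2 * step 0 x) ∈ DD := by
  refine ⟨fun x y hxy => by have := step_mono 0 hxy; simp only; linarith,
    fun x => ⟨by have := step_nonneg 0 x; linarith, by have := step_le_one 0 x; linarith⟩,
    fun x hx => by simp [step, not_lt.mpr hx], fun x => (step_left 0 x).const_mul _⟩

lemma h_mem : (fun x => 1 / 2 * step 0 x + 1 / 2 * step 1 x) ∈ DD := by
  refine ⟨fun x y hxy => by have := step_mono 0 hxy; have := step_mono 1 hxy; simp only; linarith,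
    fun x => ⟨by have := step_nonneg 0 x; have := step_nonneg 1 x; linarith,
      by have := step_le_one 0 x; have := step_le_one 1 x; linarith⟩,
    fun x hx => ?_, fun x => ((step_left 0 x).const_mul _).add ((step_left 1 x).const_mul _)⟩
  have h1 : ¬ (0 < x) := not_lt.mpr hx
  have h2 : ¬ (1 < x) := by linarith
  simp [step, h1, h2]

/-- The negation of the preceding statement: Every commutative, associative, monotone operation on distance distribution functions with identity ε₀ is causal: if F₁≤F₂ and G₁≤G₂ on (−∞,a] with a>0, then τ(F₁,G₁)≤τ(F₂,G₂) on (−∞,a]. -/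
theorem result :
    ¬ (∀ D : Set (ℝ → ℝ),
      D = {F : ℝ → ℝ | Monotone F ∧ (∀ x, 0 ≤ F x ∧ F x ≤ 1) ∧ (∀ x : ℝ, x ≤ 0 → F x = 0) ∧
            ∀ x : ℝ, ContinuousWithinAt F (Set.Iio x) x} →
      ∀ τ : (ℝ → ℝ) → (ℝ → ℝ) → (ℝ → ℝ),
        (∀ F ∈ D, ∀ G ∈ D, τ F G ∈ D) →
        (∀ F ∈ D, ∀ G ∈ D, τ F G = τ G F) →
        (∀ F ∈ D, ∀ G ∈ D, ∀ H ∈ D, τ (τ F G) H = τ F (τ G H)) →
        (∀ F ∈ D, τ F (fun x : ℝ => if 0 < x then (1 : ℝ) else 0) = F) →
        (∀ F₁ ∈ D, ∀ F₂ ∈ D, ∀ G ∈ D, F₁ ≤ F₂ → τ F₁ G ≤ τ F₂ G) →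
        ∀ a : ℝ, 0 < a →
          ∀ F₁ ∈ D, ∀ F₂ ∈ D, ∀ G₁ ∈ D, ∀ G₂ ∈ D,
            (∀ x : ℝ, x ≤ a → F₁ x ≤ F₂ x) →
            (∀ x : ℝ, x ≤ a → G₁ x ≤ G₂ x) →
            ∀ x : ℝ, x ≤ a → τ F₁ G₁ x ≤ τ F₂ G₂ x) := by
  intro hall
  have h := hall DD rfl tau (fun F hF G hG => tau_mem hF hG) (fun F _ G _ => tau_comm F G)
    (fun F hF G hG H hH => tau_assoc hF hG hH) (fun F _ => tau_e_right F)
    (fun F₁ h1 F₂ h2 G hG h => tau_mono h1 h2 hG h) 1 one_pos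
    _ h_mem _ half_mem _ h_mem _ h_mem
    (fun x hx => by
      have : ¬ (1 < x) := not_lt.mpr hx
      simp [step, this])
    (fun x _ => le_rfl) 1 le_rfl
  have ne1 : (fun x => 1 / 2 * step 0 x + 1 / 2 * step 1 x) ≠ step 0 := by
    intro h'
    have := congrFun h' 1
    norm_num [step] at this
  have ne2 : (fun x => 1 / 2 * step 0 x) ≠ step 0 := by
    intro h'
    have := congrFun h' 1
    norm_num [step] at this
  rw [tau_pos ne1 ne1 (by norm_num [step]), tau_neg ne2 ne1 (by norm_num [step])] at h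
  norm_num [step] at h

end Pool.Agent.S1292
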