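import Mathlib
import Pool.Statements.S1332
-- import your own Pool.Agent.* helpers here

set_option autoImplicit false
open Pool Pool.MP_3153bb_an

namespace Pool.Agent.S1332

/-- The negation of the preceding statement: For μ continuous, convex, even, nonnegative on [-1,1], every degree-≤n polynomial bounded by μ there and alternating ±μ at n+1 points (ending at +μ) is a nonnegative combination of Chebyshev polynomials T_0..T_n. -/
theorem result :
    ¬ (∀ (μ : ℝ → ℝ), ContinuousOn μ (Set.Icc (-1) 1) →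
      ConvexOn ℝ (Set.Icc (-1) 1) μ →
      (∀ x ∈ Set.Icc (-1 : ℝ) 1, μ (-x) = μ x) →
      (∀ x ∈ Set.Icc (-1 : ℝ) 1, 0 ≤ μ x) →
      ∀ (n : ℕ) (p : Polynomial ℝ), p.natDegree ≤ n →
        (∀ x ∈ Set.Icc (-1 : ℝ) 1, |p.eval x| ≤ μ x) →
        (∃ τ : Fin (n + 1) → ℝ, StrictMono τ ∧ (∀ i, τ i ∈ Set.Icc (-1 : ℝ) 1) ∧
          ∀ i, p.eval (τ i) = (-1 : ℝ) ^ (n - (i : ℕ)) * μ (τ i)) →
        ∃ c : ℕ → ℝ, (∀ j, 0 ≤ c j) ∧
          p = ∑ j ∈ Finset.range (n + 1),
            Polynomial.C (c j) * Polynomial.Chebyshev.T ℝ (j : ℤ)) := by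
  intro hall
  set p : Polynomial ℝ := Polynomial.C 567 * Polynomial.X ^ 4 - Polynomial.C 531 * Polynomial.X ^ 2 + Polynomial.C 50 with hp
  have hev : ∀ x : ℝ, p.eval x = 567 * x ^ 4 - 531 * x ^ 2 + 50 := by
    intro x; simp [hp]
  have hconv : ConvexOn ℝ (Set.Icc (-1 : ℝ) 1) (fun x : ℝ => 50 + 36 * |x|) := by
    refine ⟨convex_Icc _ _, ?_⟩
    intro x _ y _ a b ha hb hab
    have h1 : |a • x + b • y| ≤ a * |x| + b * |y| := by
      calc |a • x + b • y| ≤ |a • x| + |b • y| := abs_add_le _ _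
        _ = a * |x| + b * |y| := by
          rw [smul_eq_mul, smul_eq_mul, abs_mul, abs_mul, abs_of_nonneg ha, abs_of_nonneg hb]
    simp only [smul_eq_mul] at *
    nlinarith
  obtain ⟨c, hc, hcp⟩ := hall (fun x : ℝ => 50 + 36 * |x|) (by fun_prop) hconv
    (fun x _ => by simp) (fun x _ => by positivity) 4 p
    (by rw [hp]; compute_degree)
    (by
      intro x hx
      rw [hev, abs_le]
      have hy0 : 0 ≤ |x| := abs_nonneg x
      have hy1 : |x| ≤ 1 := abs_le.mpr ⟨hx.1, hx.2⟩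
      have e2 : x ^ 2 = |x| ^ 2 := (sq_abs x).symm
      have e4 : x ^ 4 = |x| ^ 4 := by
        have : x ^ 4 = (x ^ 2) ^ 2 := by ring
        rw [this, e2]; ring
      rw [e2, e4]
      set y := |x|
      constructor
      · have h : 0 ≤ (3 * y - 2) ^ 2 * (63 * y ^ 2 + 84 * y + 25) := by positivity
        nlinarith
      · have h : 0 ≤ y * ((1 - y) * (567 * y ^ 2 + 567 * y + 36)) :=
          mul_nonneg hy0 (mul_nonneg (by linarith) (by positivity))
        nlinarith)
    (by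
      refine ⟨![-1, -2 / 3, 0, 2 / 3, 1], ?_, ?_, ?_⟩
      · rw [Fin.strictMono_iff_lt_succ]
        intro i
        fin_cases i <;> simp <;> norm_num
      · intro i
        fin_cases i <;> simp <;> norm_num
      · intro i
        rw [hev]
        fin_cases i
        · simp; norm_num
        · simp [abs_div]; norm_num
        · simp
        · simp [abs_div]; norm_num
        · simp; norm_num)
  have hT2 : Polynomial.Chebyshev.T ℝ 2 = 2 * Polynomial.X ^ 2 - 1 := Polynomial.Chebyshev.T_two ℝ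
  have hT3 : Polynomial.Chebyshev.T ℝ 3 = 2 * Polynomial.X * Polynomial.Chebyshev.T ℝ 2 - Polynomial.Chebyshev.T ℝ 1 :=
    Polynomial.Chebyshev.T_add_two ℝ 1
  have hT4 : Polynomial.Chebyshev.T ℝ 4 = 2 * Polynomial.X * Polynomial.Chebyshev.T ℝ 3 - Polynomial.Chebyshev.T ℝ 2 :=
    Polynomial.Chebyshev.T_add_two ℝ 2
  have hE : ∀ x : ℝ, 567 * x ^ 4 - 531 * x ^ 2 + 50 = c 0 + c 1 * x + c 2 * (2 * x ^ 2 - 1) +
      c 3 * (2 * x * (2 * x ^ 2 - 1) - x) + c 4 * (2 * x * (2 * x * (2 * x ^ 2 - 1) - x) - (2 * x ^ 2 - 1)) := by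
    intro x
    have h := congrArg (Polynomial.eval x) hcp
    rw [hev] at h
    rw [h]
    simp only [Finset.sum_range_succ, Finset.sum_range_zero, Nat.cast_zero, Nat.cast_one, Nat.cast_ofNat]
    rw [hT4, hT3, hT2, Polynomial.Chebyshev.T_one, Polynomial.Chebyshev.T_zero]
    simp
  have h0 := hE 0
  have h1 := hE 1
  have h2 := hE (-1)
  have h3 := hE (1 / 2)
  have h4 := hE (-1 / 2)
  have := hc 0
  norm_num at h0 h1 h2 h3 h4
  linarith

end Pool.Agent.S1332
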