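import Mathlib
import Pool.Statements.S1396
-- import your own Pool.Agent.* helpers here

set_option autoImplicit false
open Pool Pool.MP_462cdc_an

namespace Pool.Agent.S1396

open Set Metric

abbrev V := EuclideanSpace ℝ (Fin 2)

/-- the plane with the norm `max (|x|₂) (2 |x₀|)` -/
def Esub : Submodule ℝ (V × ℝ) where
  carrier := {p | p.2 = 2 * p.1 0}
  add_mem' := by
    intro a b ha hb
    have ha' : a.2 = 2 * a.1 0 := ha
    have hb' : b.2 = 2 * b.1 0 := hb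
    change (a + b).2 = 2 * (a + b).1 0
    rw [Prod.snd_add, Prod.fst_add, PiLp.add_apply, ha', hb']; ring
  zero_mem' := by
    change (0 : V × ℝ).2 = 2 * (0 : V × ℝ).1 0
    simp
  smul_mem' := by
    intro c a ha
    have ha' : a.2 = 2 * a.1 0 := ha
    change (c • a).2 = 2 * (c • a).1 0
    rw [Prod.smul_snd, Prod.smul_fst, PiLp.smul_apply, ha']
    simp only [smul_eq_mul]; ring

lemma mem_Esub (p : V × ℝ) : p ∈ Esub ↔ p.2 = 2 * p.1 0 := Iff.rfl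

lemma norm_eq (x : Esub) : ‖x‖ = max ‖x.1.1‖ (2 * |x.1.1 0|) := by
  change ‖(x : V × ℝ)‖ = _
  rw [Prod.norm_def]
  have h := (mem_Esub x.1).1 x.2
  rw [h, Real.norm_eq_abs, abs_mul, abs_of_pos (by norm_num : (0:ℝ) < 2)]

lemma euc_norm (v : V) : ‖v‖ = Real.sqrt (v 0 ^ 2 + v 1 ^ 2) := by
  rw [EuclideanSpace.norm_eq]
  simp [Fin.sum_univ_two]

lemma norm_eq_of (x : Esub) (h : 2 * |x.1.1 0| ≤ |x.1.1 1|) : ‖x‖ = ‖x.1.1‖ := by
  rw [norm_eq, max_eq_left]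
  rw [euc_norm]
  apply Real.le_sqrt_of_sq_le
  have h1 : (2 * |x.1.1 0|) ^ 2 ≤ |x.1.1 1| ^ 2 := by gcongr
  rw [sq_abs] at h1
  nlinarith [sq_nonneg (x.1.1 0)]

lemma norm_fst_le (x : Esub) : ‖x.1.1‖ ≤ ‖x‖ := by rw [norm_eq]; exact le_max_left _ _

lemma coord_le (x : Esub) (i : Fin 2) : |x.1.1 i| ≤ ‖x‖ := by
  refine le_trans ?_ (norm_fst_le x)
  have := PiLp.norm_apply_le x.1.1 i
  rwa [Real.norm_eq_abs] at this

/-- the centre `(0, t)` -/
noncomputable def ct (t : ℝ) : Esub := ⟨(!₂[0, t], 0), by rw [mem_Esub]; simp⟩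

lemma key_norm (R : ℝ) (x g : Esub) (hg : ‖g‖ ≤ R) (hx : ‖x - ct (3 * (1 + R))‖ < 1) :
    ‖x - g‖ = ‖(x - g).1.1‖ ∧ x ≠ g := by
  have h0 := coord_le (x - ct (3 * (1 + R))) 0
  have h1 := coord_le (x - ct (3 * (1 + R))) 1
  have g0 := coord_le g 0
  have g1 := coord_le g 1
  have e0 : (x - ct (3 * (1 + R))).1.1 0 = x.1.1 0 := by simp [ct]
  have e1 : (x - ct (3 * (1 + R))).1.1 1 = x.1.1 1 - 3 * (1 + R) := by simp [ct]
  rw [e0] at h0
  rw [e1] at h1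
  have f0 : (x - g).1.1 0 = x.1.1 0 - g.1.1 0 := by simp
  have f1 : (x - g).1.1 1 = x.1.1 1 - g.1.1 1 := by simp
  have hR : 0 ≤ R := le_trans (norm_nonneg _) hg
  have a1 : |x.1.1 0 - g.1.1 0| ≤ 1 + R := by
    rw [abs_le] at *
    constructor <;> linarith [h0.1, h0.2, g0.1, g0.2]
  have a2 : 2 * (1 + R) ≤ x.1.1 1 - g.1.1 1 := by
    rw [abs_le] at *
    linarith [h1.1, h1.2, g1.1, g1.2]
  constructor
  · apply norm_eq_of
    rw [f0, f1, abs_of_nonneg (a := x.1.1 1 - g.1.1 1) (by linarith)]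
    linarith
  · intro h
    rw [h] at a2
    linarith

lemma uniq_lemma (R : ℝ) (G : Set Esub) (hG : ∀ g ∈ G, ‖g‖ ≤ R) (x : Esub)
    (hx : ‖x - ct (3 * (1 + R))‖ < 1) (g : Esub) (hg : g ∈ G) (hmin : ∀ y ∈ G, ‖x - g‖ ≤ ‖x - y‖)
    (s : ℝ) (hs0 : 0 < s) (hs1 : s < 1) (hy : ‖x + s • (g - x) - ct (3 * (1 + R))‖ < 1)
    (h : Esub) (hh : h ∈ G) (hmin' : ∀ y ∈ G, ‖x + s • (g - x) - h‖ ≤ ‖x + s • (g - x) - y‖) : h = g := by
  set y := x + s • (g - x) with hydef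
  have h1 : ‖y - h‖ ≤ ‖y - g‖ := hmin' g hg
  have h2 : ‖x - g‖ ≤ ‖x - h‖ := hmin h hh
  have n1 := (key_norm R y h (hG h hh) hy).1
  have n2 := (key_norm R y g (hG g hg) hy).1
  have n3 := (key_norm R x g (hG g hg) hx).1
  have n4 := (key_norm R x h (hG h hh) hx).1
  have hne := (key_norm R x g (hG g hg) hx).2
  rw [n1, n2] at h1
  rw [n3, n4] at h2
  set u : V := (x - y).1.1 with hu
  set v : V := (y - h).1.1 with hv
  set w : V := (x - g).1.1 with hw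
  have eu : u = s • w := by
    have : x - y = s • (x - g) := by rw [hydef]; module
    rw [hu, this, hw]; simp
  have eyg : (y - g).1.1 = (1 - s) • w := by
    have : y - g = (1 - s) • (x - g) := by rw [hydef]; module
    rw [this, hw]; simp
  have euv : (x - h).1.1 = u + v := by
    have : x - h = (x - y) + (y - h) := by abel
    rw [this, hu, hv]; simp
  rw [eyg, norm_smul, Real.norm_eq_abs, abs_of_pos (by linarith)] at h1
  rw [euv] at h2
  have hnu : ‖u‖ = s * ‖w‖ := by rw [eu, norm_smul, Real.norm_eq_abs, abs_of_pos hs0]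
  have h3 : ‖u + v‖ ≤ ‖u‖ + ‖v‖ := norm_add_le u v
  have h4 : ‖u + v‖ = ‖u‖ + ‖v‖ := by linarith
  have h5 : ‖v‖ = (1 - s) * ‖w‖ := by linarith
  have hray : SameRay ℝ u v := sameRay_iff_norm_add.mpr h4
  have h6 := hray.norm_smul_eq
  rw [hnu, h5, eu, smul_smul] at h6
  have hwpos : 0 < ‖w‖ := by
    rw [hw, ← n3]
    exact norm_pos_iff.mpr (sub_ne_zero.mpr hne)
  have h7 : v = (1 - s) • w := by
    have h8 : (s * ‖w‖) • v = (s * ‖w‖) • ((1 - s) • w) := by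
      rw [h6, smul_smul]; congr 1; ring
    exact smul_right_injective V (mul_pos hs0 hwpos).ne' h8
  have h8 : (y - h).1.1 = (y - g).1.1 := by rw [eyg, ← h7]
  have h9 : (h - g).1.1 = 0 := by
    have e : h - g = (y - g) - (y - h) := by abel
    rw [e]
    simp only [Submodule.coe_sub, Prod.fst_sub] at h8 ⊢
    rw [h8]; simp
  have h10 : ‖h - g‖ = 0 := by
    rw [norm_eq, h9]; simp
  exact sub_eq_zero.mp (norm_eq_zero.mp h10)

/-- points with two nearest points at distance at least `1/(n+1)` -/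
def F (G : Set Esub) (n : ℕ) : Set Esub :=
  {x | ∃ g₁ ∈ G, ∃ g₂ ∈ G, 1 / ((n : ℝ) + 1) ≤ ‖g₁ - g₂‖ ∧ (∀ y ∈ G, ‖x - g₁‖ ≤ ‖x - y‖) ∧
    ∀ y ∈ G, ‖x - g₂‖ ≤ ‖x - y‖}

lemma F_closed (G : Set Esub) (hG : IsCompact G) (n : ℕ) : IsClosed (F G n) := by
  have : CompactSpace G := isCompact_iff_compactSpace.mp hG
  set C : Set (Esub × (G × G)) := {p | 1 / ((n : ℝ) + 1) ≤ ‖(p.2.1 : Esub) - p.2.2‖ ∧
    (∀ y ∈ G, ‖p.1 - p.2.1‖ ≤ ‖p.1 - y‖) ∧ ∀ y ∈ G, ‖p.1 - p.2.2‖ ≤ ‖p.1 - y‖} with hC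
  have hCc : IsClosed C := by
    have e : C = {p : Esub × (G × G) | 1 / ((n : ℝ) + 1) ≤ ‖(p.2.1 : Esub) - p.2.2‖} ∩
        ((⋂ y ∈ G, {p : Esub × (G × G) | ‖p.1 - p.2.1‖ ≤ ‖p.1 - y‖}) ∩
        (⋂ y ∈ G, {p : Esub × (G × G) | ‖p.1 - p.2.2‖ ≤ ‖p.1 - y‖})) := by
      ext p
      simp [hC]
    rw [e]
    refine IsClosed.inter (isClosed_le continuous_const ?_) (IsClosed.inter ?_ ?_)
    · fun_prop
    · exact isClosed_biInter (fun y _ => isClosed_le (by fun_prop) (by fun_prop))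
    · exact isClosed_biInter (fun y _ => isClosed_le (by fun_prop) (by fun_prop))
  have : F G n = Prod.fst '' C := by
    ext x
    constructor
    · rintro ⟨g₁, h1, g₂, h2, h3, h4, h5⟩
      exact ⟨(x, (⟨g₁, h1⟩, ⟨g₂, h2⟩)), ⟨h3, h4, h5⟩, rfl⟩
    · rintro ⟨⟨x', g₁, g₂⟩, ⟨h3, h4, h5⟩, rfl⟩
      exact ⟨g₁, g₁.2, g₂, g₂.2, h3, h4, h5⟩
  rw [this]
  exact isClosedMap_fst_of_compactSpace C hCc

theorem nonmeagre (G : Set Esub) (hG : IsCompact G) :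
    ¬ IsMeagre {x : Esub | ∀ g₁ ∈ G, ∀ g₂ ∈ G,
            (∀ y ∈ G, ‖x - g₁‖ ≤ ‖x - y‖) →
            (∀ y ∈ G, ‖x - g₂‖ ≤ ‖x - y‖) → g₁ = g₂} := by
  intro hme
  obtain ⟨R, hR⟩ := hG.isBounded.exists_norm_le
  set Ω : Set Esub := ball (ct (3 * (1 + R))) 1 with hΩ
  have hΩm : ∀ z, z ∈ Ω ↔ ‖z - ct (3 * (1 + R))‖ < 1 := fun z => mem_ball_iff_norm
  have hnd : ∀ n, IsNowhereDense (F G n ∩ Ω) := by
    intro n
    rw [IsNowhereDense, eq_empty_iff_forall_notMem]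
    intro x0 hx0
    -- open set meets Ω
    have hcl : closure (F G n ∩ Ω) ⊆ F G n := by
      refine (closure_mono inter_subset_left).trans ?_
      rw [(F_closed G hG n).closure_eq]
    set W := interior (closure (F G n ∩ Ω)) with hW
    have hWo : IsOpen W := isOpen_interior
    obtain ⟨x, hxW, hxΩ⟩ : (W ∩ Ω).Nonempty := by
      have h1 : x0 ∈ closure (F G n ∩ Ω) := interior_subset hx0
      obtain ⟨z, hz1, hz2⟩ := mem_closure_iff.mp h1 W hWo hx0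
      exact ⟨z, hz1, hz2.2⟩
    have hxF : x ∈ F G n := hcl (interior_subset hxW)
    obtain ⟨g, hg, _, _, _, hmin, _⟩ := hxF
    have hopen : IsOpen (W ∩ Ω) := hWo.inter isOpen_ball
    have hcont : Continuous (fun s : ℝ => x + s • (g - x)) := by fun_prop
    have h0 : (fun s : ℝ => x + s • (g - x)) 0 ∈ W ∩ Ω := by simpa using ⟨hxW, hxΩ⟩
    have hev := hcont.continuousAt.eventually_mem (hopen.mem_nhds h0)
    obtain ⟨δ, hδ, hball⟩ := Metric.eventually_nhds_iff.mp hev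
    set s := min (δ / 2) (1 / 2) with hs
    have hs0 : 0 < s := by positivity
    have hs1 : s < 1 := lt_of_le_of_lt (min_le_right _ _) (by norm_num)
    have hsδ : dist s 0 < δ := by
      rw [Real.dist_eq, sub_zero, abs_of_pos hs0]
      exact lt_of_le_of_lt (min_le_left _ _) (by linarith)
    obtain ⟨hyW, hyΩ⟩ := hball hsδ
    have hyF : x + s • (g - x) ∈ F G n := hcl (interior_subset hyW)
    obtain ⟨h1, hh1, h2, hh2, hdist, m1, m2⟩ := hyF
    have e1 := uniq_lemma R G hR x ((hΩm x).1 hxΩ) g hg hmin s hs0 hs1 ((hΩm _).1 hyΩ) h1 hh1 m1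
    have e2 := uniq_lemma R G hR x ((hΩm x).1 hxΩ) g hg hmin s hs0 hs1 ((hΩm _).1 hyΩ) h2 hh2 m2
    rw [e1, e2, sub_self, norm_zero] at hdist
    have : (0 : ℝ) < 1 / ((n : ℝ) + 1) := by positivity
    linarith
  have hcover : Ω ⊆ {x : Esub | ∀ g₁ ∈ G, ∀ g₂ ∈ G,
            (∀ y ∈ G, ‖x - g₁‖ ≤ ‖x - y‖) →
            (∀ y ∈ G, ‖x - g₂‖ ≤ ‖x - y‖) → g₁ = g₂} ∪ ⋃ n, (F G n ∩ Ω) := by
    intro x hx
    by_cases h : x ∈ {x : Esub | ∀ g₁ ∈ G, ∀ g₂ ∈ G,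
            (∀ y ∈ G, ‖x - g₁‖ ≤ ‖x - y‖) →
            (∀ y ∈ G, ‖x - g₂‖ ≤ ‖x - y‖) → g₁ = g₂}
    · exact Or.inl h
    · right
      simp only [mem_ofPred_eq] at h
      push Not at h
      obtain ⟨g₁, h1, g₂, h2, h3, h4, h5⟩ := h
      have hpos : 0 < ‖g₁ - g₂‖ := norm_pos_iff.mpr (sub_ne_zero.mpr h5)
      obtain ⟨n, hn⟩ := exists_nat_one_div_lt hpos
      exact mem_iUnion.mpr ⟨n, ⟨g₁, h1, g₂, h2, hn.le, h3, h4⟩, hx⟩
  have hΩmeagre : IsMeagre Ω :=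
    (hme.union (isMeagre_iUnion (fun n => (hnd n).isMeagre))).mono hcover
  exact not_isMeagre_of_isOpen isOpen_ball ⟨_, mem_ball_self one_pos⟩ hΩmeagre

/-- The negation of the preceding statement: For every real Banach space E: if for each compact G the set of points with at most one nearest point in G is dense or non-meagre, then E is strictly convex. -/
theorem result :
    ¬ (∀ (E : Type) [NormedAddCommGroup E] [NormedSpace ℝ E] [CompleteSpace E],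
      (∀ G : Set E, IsCompact G →
        (Dense {x : E | ∀ g₁ ∈ G, ∀ g₂ ∈ G,
            (∀ y ∈ G, ‖x - g₁‖ ≤ ‖x - y‖) →
            (∀ y ∈ G, ‖x - g₂‖ ≤ ‖x - y‖) → g₁ = g₂} ∨
         ¬ IsMeagre {x : E | ∀ g₁ ∈ G, ∀ g₂ ∈ G,
            (∀ y ∈ G, ‖x - g₁‖ ≤ ‖x - y‖) →
            (∀ y ∈ G, ‖x - g₂‖ ≤ ‖x - y‖) → g₁ = g₂})) →
      StrictConvexSpace ℝ E) := by
  intro hall
  have hsc : StrictConvexSpace ℝ Esub := hall Esub (fun G hG => Or.inr (nonmeagre G hG))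
  set p : Esub := ⟨(!₂[1 / 2, 0], 1), by rw [mem_Esub]; simp⟩ with hp
  set q : Esub := ⟨(!₂[1 / 2, 1 / 2], 1), by rw [mem_Esub]; simp⟩ with hq
  have np : ‖p‖ = 1 := by
    rw [norm_eq, euc_norm]
    simp only [hp]
    rw [max_eq_right]
    · norm_num
    · apply Real.sqrt_le_iff.mpr; norm_num
  have nq : ‖q‖ = 1 := by
    rw [norm_eq, euc_norm]
    simp only [hq]
    rw [max_eq_right]
    · norm_num
    · apply Real.sqrt_le_iff.mpr; norm_num
  have hpq : p ≠ q := by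
    intro h
    have := congrArg (fun z : Esub => z.1.1 1) h
    simp [hp, hq] at this
  have h1 := (norm_midpoint_lt_iff (x := p) (y := q) (by rw [np, nq])).mpr hpq
  rw [np, norm_eq] at h1
  have h2 := lt_of_le_of_lt (le_max_right _ _) h1
  simp [hp, hq] at h2
  norm_num at h2

end Pool.Agent.S1396
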