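import Pool.Statements.S1422
-- import your own Pool.Agent.* helpers here

set_option autoImplicit false
open Pool Pool.MP_529e31_an

namespace Pool.Agent.S1422

open Filter Topology

/-- the radii -/
def R (n : ℕ) : ℕ := 2 ^ 4 ^ n

lemma R_ge (n : ℕ) : n < R n := by
  unfold R
  have h1 : n < 4 ^ n := Nat.lt_pow_self (by norm_num)
  have h2 : 4 ^ n < 2 ^ 4 ^ n := Nat.lt_two_pow_self
  omega

lemma R_mono : StrictMono R := by
  intro a b h
  unfold R
  exact Nat.pow_lt_pow_right (by norm_num) (Nat.pow_lt_pow_right (by norm_num) h)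

lemma R_growth (n m : ℕ) (hn : 1 ≤ n) (hm : n < m) : 4 ^ m * (R n) ^ 3 ≤ R m := by
  obtain ⟨j, rfl⟩ : ∃ j, m = j + 1 := ⟨m - 1, by omega⟩
  unfold R
  have e1 : 4 ^ (j + 1) = 2 ^ (2 * (j + 1)) := by rw [pow_mul]; norm_num
  rw [e1, ← pow_mul, ← pow_add]
  apply Nat.pow_le_pow_right (by norm_num)
  rw [pow_mul]
  have h1 : 4 ^ n ≤ 4 ^ j := Nat.pow_le_pow_right (by norm_num) (by omega)
  have h2 : ∀ j : ℕ, 1 ≤ j → 2 * (j + 1) ≤ 4 ^ j := by
    intro j hj
    induction j, hj using Nat.le_induction with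
    | base => norm_num
    | succ k _ ih => rw [pow_succ]; omega
  have h3 := h2 j (by omega)
  have h4 : (2 ^ 2) ^ (j + 1) = 4 * 4 ^ j := by rw [pow_succ]; norm_num; ring
  rw [h4]
  omega

/-- union of circles -/
def S : Set ℂ := {z | ∃ n : ℕ, ‖z‖ = R n}

lemma S_bdd (f : ℂ → ℂ) (hf : Differentiable ℂ f) :
    Bornology.IsBounded (f '' S) ↔ Bornology.IsBounded (Set.range f) := by
  constructor
  · intro h
    obtain ⟨B, hB⟩ := h.exists_norm_le
    apply Metric.isBounded_iff_subset_closedBall (0 : ℂ) |>.mpr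
    refine ⟨B, ?_⟩
    rintro _ ⟨z, rfl⟩
    rw [mem_closedBall_zero_iff]
    obtain ⟨n, hn⟩ := exists_nat_gt ‖z‖
    have hzR : ‖z‖ < R n := hn.trans (by exact_mod_cast R_ge n)
    apply Complex.norm_le_of_forall_mem_frontier_norm_le (U := Metric.ball (0 : ℂ) (R n))
      Metric.isBounded_ball hf.diffContOnCl
    · intro w hw
      have hR : (R n : ℝ) ≠ 0 := by
        have : 0 < R n := by unfold R; positivity
        exact_mod_cast this.ne'
      rw [frontier_ball _ hR, mem_sphere_zero_iff_norm] at hw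
      exact hB _ ⟨w, ⟨n, hw⟩, rfl⟩
    · apply subset_closure
      simpa using hzR
  · intro h
    exact h.subset (Set.image_subset_range f S)

/-- The negation of the preceding statement: For every ρ>0 and S in ℂ: if each entire f of order ρ finite type is bounded on S iff bounded on ℂ, then for each weight k in K_ρ there are k' in K_ρ and C>0 with ∣f∣≤k' on S implying ∣f∣≤Ck on ℂ (S sufficient). -/
theorem result :
    ¬ (∀ ρ : ℝ, 0 < ρ → ∀ S : Set ℂ,
      (∀ f : ℂ → ℂ, Differentiable ℂ f →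
        (∃ A B : ℝ, 0 < A ∧ 0 < B ∧ ∀ z : ℂ, ‖f z‖ ≤ B * Real.exp (A * ‖z‖ ^ ρ)) →
        (Bornology.IsBounded (f '' S) ↔ Bornology.IsBounded (Set.range f))) →
      ∀ k : ℂ → ℝ, Continuous k → (∀ z : ℂ, 0 < k z) →
        (∀ A : ℝ, 0 < A →
          Asymptotics.IsLittleO (Filter.cocompact ℂ) (fun z : ℂ => Real.exp (A * ‖z‖ ^ ρ)) k) →
        ∃ k' : ℂ → ℝ, Continuous k' ∧ (∀ z : ℂ, 0 < k' z) ∧
          (∀ A : ℝ, 0 < A →
            Asymptotics.IsLittleO (Filter.cocompact ℂ) (fun z : ℂ => Real.exp (A * ‖z‖ ^ ρ)) k') ∧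
          ∃ C : ℝ, 0 < C ∧
            ∀ f : ℂ → ℂ, Differentiable ℂ f →
              (∃ A B : ℝ, 0 < A ∧ 0 < B ∧ ∀ z : ℂ, ‖f z‖ ≤ B * Real.exp (A * ‖z‖ ^ ρ)) →
              (∀ z ∈ S, ‖f z‖ ≤ k' z) → ∀ z : ℂ, ‖f z‖ ≤ C * k z) := by
  intro H
  obtain ⟨k', hk'c, hk'pos, hk'o, C, hC, hmain⟩ := H 1 one_pos S (fun f hf _ => S_bdd f hf)
    (fun z => Real.exp (‖z‖ ^ 2)) (by fun_prop) (fun z => Real.exp_pos _) (by
      intro A hA
      rw [Real.isLittleO_exp_comp_exp_comp]
      simp only [Real.rpow_one]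
      have h1 : Tendsto (fun r : ℝ => r * (r - A)) atTop atTop :=
        Tendsto.atTop_mul_atTop₀ tendsto_id (tendsto_atTop_add_const_right _ _ tendsto_id)
      have h2 := h1.comp (tendsto_norm_cocompact_atTop (E := ℂ))
      refine h2.congr (fun z => ?_)
      simp only [Function.comp_apply]
      ring)
  simp only [Real.rpow_one] at hk'o hmain
  -- lower bound for `k'`
  have hlow : ∃ c : ℝ, 0 < c ∧ ∀ z : ℂ, c * Real.exp ‖z‖ ≤ k' z := by
    have h1 := (hk'o 1 one_pos).bound (show (0 : ℝ) < 1 by norm_num)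
    rw [Filter.Eventually, Filter.mem_cocompact] at h1
    obtain ⟨t, ht, hts⟩ := h1
    have h2 : ∃ c : ℝ, 0 < c ∧ ∀ z ∈ t, c * Real.exp ‖z‖ ≤ k' z := by
      rcases t.eq_empty_or_nonempty with he | hne
      · exact ⟨1, one_pos, by rw [he]; simp⟩
      · obtain ⟨z0, hz0, hmin⟩ := ht.exists_isMinOn hne
          (f := fun z => k' z / Real.exp ‖z‖)
          ((hk'c.div (by fun_prop) (fun z => (Real.exp_pos _).ne')).continuousOn)
        refine ⟨k' z0 / Real.exp ‖z0‖, div_pos (hk'pos _) (Real.exp_pos _), ?_⟩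
        intro z hz
        have h3 : k' z0 / Real.exp ‖z0‖ ≤ k' z / Real.exp ‖z‖ := hmin hz
        rwa [le_div_iff₀ (Real.exp_pos _)] at h3
    obtain ⟨c, hc, hct⟩ := h2
    refine ⟨min c 1, lt_min hc one_pos, ?_⟩
    intro z
    by_cases hz : z ∈ t
    · exact (mul_le_mul_of_nonneg_right (min_le_left _ _) (Real.exp_pos _).le).trans (hct z hz)
    · have h3 := hts hz
      simp only [Set.mem_ofPred_eq, one_mul, Real.norm_eq_abs, Real.abs_exp,
        abs_of_pos (hk'pos z)] at h3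
      calc min c 1 * Real.exp ‖z‖ ≤ 1 * Real.exp ‖z‖ :=
            mul_le_mul_of_nonneg_right (min_le_right _ _) (Real.exp_pos _).le
        _ = Real.exp ‖z‖ := one_mul _
        _ ≤ k' z := h3
  obtain ⟨c, hc, hlow⟩ := hlow
  obtain ⟨n0, hn0⟩ := exists_nat_gt (C / c)
  set n := n0 + 2 with hn
  set r : ℝ := (R n : ℝ) with hr
  have hr1 : (n : ℝ) < r := by rw [hr]; exact_mod_cast R_ge n
  have hr16 : (16 : ℝ) ≤ r := by
    have h1 : R 1 ≤ R n := R_mono.monotone (by omega)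
    have h2 : R 1 = 16 := by norm_num [R]
    rw [h2] at h1
    rw [hr]
    exact_mod_cast h1
  have hr0 : 0 < r := by linarith
  set N := (R n) ^ 3 with hN
  let f : ℂ → ℂ := fun z => (c : ℂ) * (z / (r : ℂ)) ^ N
  have hfnorm : ∀ z, ‖f z‖ = c * (‖z‖ / r) ^ N := by
    intro z
    simp only [f, norm_mul, norm_pow, norm_div, Complex.norm_real, Real.norm_eq_abs,
      abs_of_pos hc, abs_of_pos hr0]
  have hf : Differentiable ℂ f := by
    intro z
    apply DifferentiableAt.const_mul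
    apply DifferentiableAt.pow
    exact differentiableAt_id.div_const _
  have hfE : ∃ A B : ℝ, 0 < A ∧ 0 < B ∧ ∀ z : ℂ, ‖f z‖ ≤ B * Real.exp (A * ‖z‖) := by
    refine ⟨1 / r, c * N.factorial, by positivity, by positivity, ?_⟩
    intro z
    rw [hfnorm]
    have h1 := Real.pow_div_factorial_le_exp (‖z‖ / r) (by positivity) N
    have h2 : (‖z‖ / r) ^ N ≤ N.factorial * Real.exp (‖z‖ / r) := by
      rw [div_le_iff₀ (by positivity)] at h1
      linarith
    have h3 : 1 / r * ‖z‖ = ‖z‖ / r := by ring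
    rw [h3]
    calc c * (‖z‖ / r) ^ N ≤ c * (N.factorial * Real.exp (‖z‖ / r)) :=
          mul_le_mul_of_nonneg_left h2 hc.le
      _ = c * N.factorial * Real.exp (‖z‖ / r) := by ring
  have hfS : ∀ z ∈ S, ‖f z‖ ≤ k' z := by
    rintro z ⟨m, hm⟩
    refine le_trans ?_ (hlow z)
    rw [hfnorm]
    apply mul_le_mul_of_nonneg_left _ hc.le
    rw [hm]
    by_cases hmn : m ≤ n
    · have h1 : (R m : ℝ) / r ≤ 1 := by
        rw [div_le_one hr0, hr]
        exact_mod_cast R_mono.monotone hmn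
      calc ((R m : ℝ) / r) ^ N ≤ 1 := pow_le_one₀ (by positivity) h1
        _ ≤ Real.exp (R m : ℝ) := Real.one_le_exp (by positivity)
    · push Not at hmn
      have h1 : (R m : ℝ) / r ≤ R m := by
        apply div_le_self (by positivity)
        linarith
      have h2 : ((R m : ℝ) / r) ^ N ≤ (R m : ℝ) ^ N := pow_le_pow_left₀ (by positivity) h1 N
      refine h2.trans ?_
      have h3 : (R m : ℝ) ^ N = 2 ^ (4 ^ m * N) := by
        unfold R; push_cast; rw [← pow_mul]
      rw [h3]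
      have h4 : (2 : ℝ) ≤ Real.exp 1 := by
        have := Real.add_one_le_exp (1 : ℝ)
        linarith
      calc (2 : ℝ) ^ (4 ^ m * N) ≤ (Real.exp 1) ^ (4 ^ m * N) :=
            pow_le_pow_left₀ (by norm_num) h4 _
        _ = Real.exp ((4 ^ m * N : ℕ) : ℝ) := by
            rw [← Real.exp_nat_mul, mul_one]
        _ ≤ Real.exp (R m : ℝ) := by
            apply Real.exp_le_exp.mpr
            exact_mod_cast R_growth n m (by omega) hmn
  have h := hmain f hf hfE hfS ((2 * r : ℝ) : ℂ)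
  rw [hfnorm] at h
  have hz : ‖((2 * r : ℝ) : ℂ)‖ = 2 * r := by
    rw [Complex.norm_real, Real.norm_eq_abs, abs_of_pos (by linarith)]
  rw [hz] at h
  have h2r : 2 * r / r = 2 := by field_simp
  rw [h2r] at h
  -- `2 ^ N` is too large
  have hNr : (N : ℝ) = r ^ 3 := by rw [hN, hr]; push_cast; ring
  have h5 : Real.exp (8 * r ^ 2) ≤ 2 ^ N := by
    have h6 : (2 : ℝ) ^ N = Real.exp (N * Real.log 2) := by
      rw [Real.exp_nat_mul, Real.exp_log (by norm_num)]
    rw [h6]
    apply Real.exp_le_exp.mpr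
    have h7 := Real.log_two_gt_d9
    rw [hNr]
    have h8 : 8 * r ^ 2 ≤ r ^ 3 * (1 / 2) := by nlinarith [sq_nonneg r]
    have h9 : r ^ 3 * (1 / 2) ≤ r ^ 3 * Real.log 2 := by
      apply mul_le_mul_of_nonneg_left _ (by positivity)
      linarith
    linarith
  have h6 : c * Real.exp (8 * r ^ 2) ≤ C * Real.exp ((2 * r) ^ 2) :=
    (mul_le_mul_of_nonneg_left h5 hc.le).trans h
  have h7 : Real.exp (8 * r ^ 2) = Real.exp ((2 * r) ^ 2) * Real.exp ((2 * r) ^ 2) := by
    rw [← Real.exp_add]; congr 1; ring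
  rw [h7] at h6
  have h8 : 0 < Real.exp ((2 * r) ^ 2) := Real.exp_pos _
  have h9 : c * Real.exp ((2 * r) ^ 2) ≤ C := by
    have : (c * Real.exp ((2 * r) ^ 2)) * Real.exp ((2 * r) ^ 2) ≤ C * Real.exp ((2 * r) ^ 2) := by
      linarith
    exact le_of_mul_le_mul_right this h8
  have h10 : r ≤ Real.exp ((2 * r) ^ 2) := by
    have := Real.add_one_le_exp ((2 * r) ^ 2)
    nlinarith
  have h11 : c * r ≤ C := (mul_le_mul_of_nonneg_left h10 hc.le).trans h9
  rw [div_lt_iff₀ hc] at hn0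
  have h12 : (n0 : ℝ) < r := by
    have : (n : ℝ) = n0 + 2 := by rw [hn]; push_cast; ring
    linarith
  nlinarith

end Pool.Agent.S1422
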