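import Pool.Statements.S1438
-- import your own Pool.Agent.* helpers here

set_option autoImplicit false
open Pool Pool.MP_5bcbac_an

namespace Pool.Agent.S1438

open Matrix

abbrev E2 := EuclideanSpace ℂ (Fin 2) →L[ℂ] EuclideanSpace ℂ (Fin 2)

noncomputable def T : Matrix (Fin 2) (Fin 2) ℂ ≃⋆ₐ[ℂ] E2 := Matrix.toEuclideanCLM (n := Fin 2) (𝕜 := ℂ)

lemma trace_T (M : Matrix (Fin 2) (Fin 2) ℂ) :
    LinearMap.trace ℂ (EuclideanSpace ℂ (Fin 2)) ((T M : E2) : EuclideanSpace ℂ (Fin 2) →ₗ[ℂ] EuclideanSpace ℂ (Fin 2))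
      = M.trace := by
  have h : ((T M : E2) : EuclideanSpace ℂ (Fin 2) →ₗ[ℂ] EuclideanSpace ℂ (Fin 2)) = toEuclideanLin M :=
    Matrix.coe_toEuclideanCLM_eq_toEuclideanLin M
  rw [h]
  show LinearMap.trace ℂ _ (Matrix.toLpLin 2 2 M) = _
  rw [Matrix.toLpLin_eq_toLin, Matrix.trace_toLin_eq]

noncomputable def MX : Matrix (Fin 2) (Fin 2) ℂ := !![1, 0; 0, 0]
noncomputable def MY : Matrix (Fin 2) (Fin 2) ℂ := !![16/25, 12/25; 12/25, 9/25]

lemma proj_facts (M : Matrix (Fin 2) (Fin 2) ℂ) (h1 : M * M = M) (h2 : star M = M) :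
    0 ≤ T M ∧ IsSelfAdjoint (T M) ∧ ∀ p : ℝ, p ≠ 0 → cfc (fun x : ℝ => x ^ p) (T M) = T M := by
  have hsa : IsSelfAdjoint (T M) := by
    rw [IsSelfAdjoint, ← map_star, h2]
  have hidem : IsIdempotentElem (T M) := by
    rw [IsIdempotentElem, ← map_mul, h1]
  refine ⟨?_, hsa, ?_⟩
  · have : T M = star (T M) * T M := by
      rw [hsa.star_eq]; exact hidem.symm
    rw [this]
    exact star_mul_self_nonneg _
  · intro p hp
    have h3 : cfc (fun x : ℝ => x ^ p) (T M) = cfc (id : ℝ → ℝ) (T M) := by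
      apply cfc_congr
      intro x hx
      rcases IsIdempotentElem.spectrum_subset ℝ hidem hx with h | h
      · simp only [id]; rw [h, Real.zero_rpow hp]
      · have h' : x = 1 := h
        simp only [id]; rw [h', Real.one_rpow]
    rw [h3, cfc_id ℝ (T M) hsa]

lemma MX_facts : MX * MX = MX ∧ star MX = MX := by
  constructor
  · ext i j; fin_cases i <;> fin_cases j <;> simp [MX, Matrix.mul_apply]
  · ext i j; fin_cases i <;> fin_cases j <;> simp [MX, Matrix.star_apply]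

lemma MY_facts : MY * MY = MY ∧ star MY = MY := by
  constructor
  · ext i j; fin_cases i <;> fin_cases j <;> simp [MY, Matrix.mul_apply] <;> norm_num
  · ext i j; fin_cases i <;> fin_cases j <;> simp [MY, Matrix.star_apply]

noncomputable def MZ : Matrix (Fin 2) (Fin 2) ℂ := !![41/50, 12/50; 12/50, 9/50]

lemma ZZ : T MZ * T MZ - T MZ + (9 / 100 : ℝ) • (1 : E2) = 0 := by
  have h1 : MZ * MZ - MZ + (9 / 100 : ℂ) • (1 : Matrix (Fin 2) (Fin 2) ℂ) = 0 := by
    ext i j; fin_cases i <;> fin_cases j <;> simp [MZ, Matrix.mul_apply] <;> norm_num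
  have h2 : T (MZ * MZ - MZ + (9 / 100 : ℂ) • (1 : Matrix (Fin 2) (Fin 2) ℂ)) = 0 := by
    rw [h1, map_zero]
  rw [map_add, map_sub, map_mul, map_smul, map_one] at h2
  rw [← h2]
  congr 1
  ext v i
  simp

lemma spec_Z (x : ℝ) (hx : x ∈ spectrum ℝ (T MZ)) : x = 9 / 10 ∨ x = 1 / 10 := by
  have h1 := spectrum.subset_polynomial_aeval (T MZ)
    (Polynomial.X * Polynomial.X - Polynomial.X + Polynomial.C (9 / 100 : ℝ))
  have h2 : Polynomial.aeval (T MZ)
      (Polynomial.X * Polynomial.X - Polynomial.X + Polynomial.C (9 / 100 : ℝ)) = 0 := by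
    rw [map_add, map_sub, map_mul, Polynomial.aeval_X, Polynomial.aeval_C, Algebra.algebraMap_eq_smul_one]
    exact ZZ
  rw [h2] at h1
  have h3 := h1 ⟨x, hx, rfl⟩
  have h4 : spectrum ℝ (0 : E2) = {0} := spectrum.zero_eq
  rw [h4] at h3
  simp only [Polynomial.eval_add, Polynomial.eval_sub, Polynomial.eval_mul, Polynomial.eval_X,
    Polynomial.eval_C, Set.mem_singleton_iff] at h3
  have h5 : (x - 9 / 10) * (x - 1 / 10) = 0 := by linarith
  rcases mul_eq_zero.mp h5 with h | h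
  · left; linarith
  · right; linarith

lemma MZ_star : star MZ = MZ := by
  ext i j; fin_cases i <;> fin_cases j <;> simp [MZ, Matrix.star_apply]

lemma cfc_Z (g : ℝ → ℝ) (α β : ℝ) (h1 : g (9 / 10) = α * (9 / 10) + β) (h2 : g (1 / 10) = α * (1 / 10) + β) :
    cfc g (T MZ) = T ((α : ℂ) • MZ + (β : ℂ) • 1) := by
  have hsa : IsSelfAdjoint (T MZ) := by
    rw [IsSelfAdjoint, ← map_star, MZ_star]
  have h3 : cfc g (T MZ) = cfc (fun x : ℝ => α * x + β) (T MZ) := by
    apply cfc_congr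
    intro x hx
    rcases spec_Z x hx with h | h
    · simp only [h]; exact h1
    · simp only [h]; exact h2
  have h4 : cfc (fun x : ℝ => α * x + β) (T MZ) = α • T MZ + algebraMap ℝ E2 β := by
    rw [cfc_add (a := T MZ) (fun x : ℝ => α * x) (fun _ => β), cfc_const_mul α (fun x => x) (T MZ),
      cfc_id' ℝ (T MZ), cfc_const β (T MZ)]
  rw [h3, h4, map_add, map_smul, map_smul, map_one, Algebra.algebraMap_eq_smul_one]
  congr 1

lemma rpow_lower (x y : ℝ) (_hx : 0 ≤ x) (hy : 0 ≤ y) (h : y ^ 100 ≤ x) : y ≤ x ^ (1 / (100 : ℝ)) := by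
  have h1 : y = (y ^ 100) ^ (1 / (100 : ℝ)) := by
    have := Real.pow_rpow_inv_natCast hy (show (100 : ℕ) ≠ 0 by norm_num)
    rw [one_div]
    exact this.symm
  rw [h1]
  exact Real.rpow_le_rpow (by positivity) h (by norm_num)

/-- The negation of the preceding statement: For all positive semidefinite operators X, Y on C^n and all p ≥ 2, the map t ↦ Tr[(Y − (tX^p + (1−t)Y^p)^(1/p))^2] is non-decreasing on [0,1]. -/
theorem result :
    ¬ (∀ (n : ℕ) (X Y : EuclideanSpace ℂ (Fin n) →L[ℂ] EuclideanSpace ℂ (Fin n)) (p : ℝ),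
      0 ≤ X → 0 ≤ Y → 2 ≤ p →
      MonotoneOn
        (fun t : ℝ =>
          (LinearMap.trace ℂ (EuclideanSpace ℂ (Fin n))
            (((Y - cfc (fun x : ℝ => x ^ (1 / p))
                ((t : ℂ) • cfc (fun x : ℝ => x ^ p) X
                  + ((1 - t : ℝ) : ℂ) • cfc (fun x : ℝ => x ^ p) Y)) ^ 2 :
                EuclideanSpace ℂ (Fin n) →L[ℂ] EuclideanSpace ℂ (Fin n)) :
              EuclideanSpace ℂ (Fin n) →ₗ[ℂ] EuclideanSpace ℂ (Fin n))).re)
        (Set.Icc (0 : ℝ) 1)) := by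
  intro H
  obtain ⟨hX0, hXsa, hXp⟩ := proj_facts MX MX_facts.1 MX_facts.2
  obtain ⟨hY0, hYsa, hYp⟩ := proj_facts MY MY_facts.1 MY_facts.2
  have h := H 2 (T MX) (T MY) 100 hX0 hY0 (by norm_num) (a := 1 / 2) (by constructor <;> norm_num)
    (b := 1) (by constructor <;> norm_num) (by norm_num)
  simp only at h
  rw [hXp 100 (by norm_num), hYp 100 (by norm_num)] at h
  have e1 : (((1 : ℝ)) : ℂ) • T MX + (((1 - 1 : ℝ)) : ℂ) • T MY = T MX := by
    simp
    exact zero_smul ℂ (T MY)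
  have e2 : (((1 / 2 : ℝ)) : ℂ) • T MX + (((1 - 1 / 2 : ℝ)) : ℂ) • T MY = T MZ := by
    rw [← map_smul, ← map_smul, ← map_add]
    congr 1
    ext i j; fin_cases i <;> fin_cases j <;> simp [MX, MY, MZ] <;> norm_num
  rw [e1, e2, hXp (1 / 100) (by norm_num)] at h
  set a : ℝ := (9 / 10 : ℝ) ^ (1 / (100 : ℝ)) with ha
  set b : ℝ := (1 / 10 : ℝ) ^ (1 / (100 : ℝ)) with hb
  have ha1 : 99 / 100 ≤ a := rpow_lower _ _ (by norm_num) (by norm_num) (by norm_num)
  have hb1 : 9 / 10 ≤ b := rpow_lower _ _ (by norm_num) (by norm_num) (by norm_num)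
  have ha2 : a ≤ 1 := Real.rpow_le_one (by norm_num) (by norm_num) (by norm_num)
  have hb2 : b ≤ 1 := Real.rpow_le_one (by norm_num) (by norm_num) (by norm_num)
  rw [cfc_Z (fun x : ℝ => x ^ (1 / (100 : ℝ))) ((a - b) * (10 / 8)) ((9 * b - a) / 8)
    (by show a = _; ring) (by show b = _; ring)] at h
  rw [← map_sub, ← map_sub, ← map_pow, ← map_pow, trace_T, trace_T] at h
  have t1 : ((MY - MX) ^ 2).trace.re = 18 / 25 := by
    rw [pow_two, Matrix.trace_fin_two]
    simp [MX, MY, Matrix.mul_apply, Fin.sum_univ_two]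
    norm_num
  have t2 : ((MY - ((((a - b) * (10 / 8) : ℝ) : ℂ) • MZ + (((9 * b - a) / 8 : ℝ) : ℂ) • 1)) ^ 2).trace.re
      = 1 - 2 * (9 / 10 * a + 1 / 10 * b) + a ^ 2 + b ^ 2 := by
    rw [pow_two, Matrix.trace_fin_two]
    simp [MY, MZ, Matrix.mul_apply, Fin.sum_univ_two]
    ring
  rw [t1, t2] at h
  nlinarith

end Pool.Agent.S1438
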