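import Pool.Statements.S1524
-- import your own Pool.Agent.* helpers here

set_option autoImplicit false
open Matrix
open Pool Pool.MP_79babf_an

namespace Pool.Agent.S1524

/-- columns of the Kahan matrix -/
def col (k : ℕ) (c s : ℝ) (i l : Fin k) : ℝ :=
  if l < i then -c * s ^ (l : ℕ) else if l = i then s ^ (l : ℕ) else 0

lemma tail_range (c s : ℝ) (h : c ^ 2 = 1 - s ^ 2) (i j : ℕ) (hji : j ≤ i) (m : ℕ) :
    ∑ l ∈ Finset.range m, (if j ≤ l then (if l < i then -c * s ^ l else if l = i then s ^ l else 0) ^ 2 else 0)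
      = if m ≤ j then 0 else if m ≤ i then (s ^ j) ^ 2 - (s ^ m) ^ 2 else (s ^ j) ^ 2 := by
  induction m with
  | zero => simp
  | succ m ih =>
    rw [Finset.sum_range_succ, ih]
    rcases lt_trichotomy m j with h1 | h1 | h1
    · have a1 : m ≤ j := by omega
      have a2 : m + 1 ≤ j := by omega
      have a3 : ¬ j ≤ m := by omega
      simp [a1, a2, a3]
    · subst h1
      have a2 : ¬ m + 1 ≤ m := by omega
      simp only [le_refl, if_true, a2, if_false, zero_add]
      rcases lt_or_eq_of_le hji with h2 | h2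
      · have a4 : m + 1 ≤ i := by omega
        simp only [h2, a4, if_true]
        rw [pow_succ]
        calc (-c * s ^ m) ^ 2 = c ^ 2 * (s ^ m) ^ 2 := by ring
          _ = _ := by rw [h]; ring
      · subst h2
        have a5 : ¬ m < m := by omega
        simp [a2]
    · have a1 : ¬ m ≤ j := by omega
      have a2 : ¬ m + 1 ≤ j := by omega
      have a3 : j ≤ m := by omega
      simp only [a1, a2, a3, if_true, if_false]
      rcases lt_trichotomy m i with h2 | h2 | h2
      · have a4 : m ≤ i := by omega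
        have a5 : m + 1 ≤ i := by omega
        simp only [h2, a4, a5, if_true]
        rw [pow_succ s m]
        calc (s ^ j) ^ 2 - (s ^ m) ^ 2 + (-c * s ^ m) ^ 2 = (s ^ j) ^ 2 - (s ^ m) ^ 2 + c ^ 2 * (s ^ m) ^ 2 := by ring
          _ = _ := by rw [h]; ring
      · subst h2
        have a4 : ¬ m < m := by omega
        have a5 : ¬ m + 1 ≤ m := by omega
        simp [a5]
      · have a4 : ¬ m ≤ i := by omega
        have a5 : ¬ m + 1 ≤ i := by omega
        have a6 : ¬ m < i := by omega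
        have a7 : ¬ m = i := by omega
        simp [a4, a5, a6, a7]

lemma tail_norm (k : ℕ) (c s : ℝ) (h : c ^ 2 = 1 - s ^ 2) (i j : Fin k) (hji : j ≤ i) :
    ∑ l : Fin k, (if j ≤ l then (col k c s i l) ^ 2 else 0) = (s ^ (j : ℕ)) ^ 2 := by
  have h1 := tail_range c s h i j hji k
  have h2 : ¬ k ≤ (j : ℕ) := by have := j.2; omega
  have h3 : ¬ k ≤ (i : ℕ) := by have := i.2; omega
  rw [if_neg h2, if_neg h3] at h1
  rw [← h1, ← Fin.sum_univ_eq_sum_range (fun l => if (j : ℕ) ≤ l then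
    (if l < (i : ℕ) then -c * s ^ l else if l = (i : ℕ) then s ^ l else 0) ^ 2 else 0)]
  apply Finset.sum_congr rfl
  intro l _
  simp only [col, Fin.le_def, Fin.lt_def, Fin.ext_iff]

lemma col_norm (k : ℕ) (c s : ℝ) (h : c ^ 2 = 1 - s ^ 2) (i : Fin k) :
    ∑ l : Fin k, (col k c s i l) ^ 2 = 1 := by
  have hk : 0 < k := lt_of_le_of_lt (Nat.zero_le _) i.2
  have h1 := tail_norm k c s h i ⟨0, hk⟩ (by simp [Fin.le_def])
  simpa [Fin.le_def] using h1

open scoped MatrixOrder in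
lemma psd_decomp (k : ℕ) (P : Matrix (Fin k) (Fin k) ℝ) (hP : P.PosSemidef) :
    ∃ B : Matrix (Fin k) (Fin k) ℝ, ∀ a b, P a b = ∑ l, B l a * B l b := by
  obtain ⟨B, hB⟩ := CStarAlgebra.nonneg_iff_eq_star_mul_self.mp hP.nonneg
  refine ⟨B, fun a b => ?_⟩
  rw [hB, Matrix.mul_apply]
  apply Finset.sum_congr rfl
  intro l _
  rw [Matrix.star_apply]
  simp

lemma exists_B (k : ℕ) (hk : 0 < k) (c s : ℝ) (h : c ^ 2 = 1 - s ^ 2) :
    ∃ B : Matrix (Fin k) (Fin k) ℝ,
      (∀ a b, (∑ i, (1 / (k : ℝ)) * (col k c s i a * col k c s i b)) + ∑ l, B l a * B l b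
        = if a = b then 1 else 0) ∧
      ∀ l, ∑ a, B l a ^ 2 ≤ k := by
  have hkr : (0 : ℝ) < k := by exact_mod_cast hk
  let P : Matrix (Fin k) (Fin k) ℝ := fun a b =>
    (if a = b then 1 else 0) - ∑ i, (1 / (k : ℝ)) * (col k c s i a * col k c s i b)
  have hform : ∀ x : Fin k → ℝ, star x ⬝ᵥ (P *ᵥ x) =
      ∑ a, x a ^ 2 - (1 / (k : ℝ)) * ∑ i, (∑ a, col k c s i a * x a) ^ 2 := by
    intro x
    simp only [dotProduct, Matrix.mulVec, P, star_trivial, Pi.star_apply]
    have e1 : ∀ a, x a * ∑ b, ((if a = b then 1 else 0) -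
        ∑ i, (1 / (k : ℝ)) * (col k c s i a * col k c s i b)) * x b
        = x a ^ 2 - ∑ i, (1 / (k : ℝ)) * ((col k c s i a * x a) * ∑ b, col k c s i b * x b) := by
      intro a
      simp only [sub_mul, Finset.sum_sub_distrib, ite_mul, one_mul, zero_mul, Finset.sum_ite_eq,
        Finset.mem_univ, if_true, mul_sub]
      congr 1
      · ring
      · simp only [Finset.sum_mul, Finset.mul_sum]
        rw [Finset.sum_comm]
        apply Finset.sum_congr rfl; intro i _
        apply Finset.sum_congr rfl; intro b _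
        ring
    simp only [e1, Finset.sum_sub_distrib]
    congr 1
    rw [Finset.sum_comm, Finset.mul_sum]
    apply Finset.sum_congr rfl; intro i _
    rw [← Finset.mul_sum, ← Finset.sum_mul, sq]
  have hPsd : P.PosSemidef := by
    apply Matrix.PosSemidef.of_dotProduct_mulVec_nonneg
    · ext a b
      show star (P b a) = P a b
      rw [star_trivial]
      show (if b = a then (1 : ℝ) else 0) - _ = (if a = b then (1 : ℝ) else 0) - _
      congr 1
      · simp [eq_comm]
      · apply Finset.sum_congr rfl; intro i _; ring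
    · intro x
      rw [hform]
      have h1 : ∀ i, (∑ a, col k c s i a * x a) ^ 2 ≤ ∑ a, x a ^ 2 := by
        intro i
        have h2 := Finset.sum_mul_sq_le_sq_mul_sq Finset.univ (fun a => col k c s i a) x
        rw [col_norm k c s h i, one_mul] at h2
        exact h2
      have h2 : ∑ i, (∑ a, col k c s i a * x a) ^ 2 ≤ k * ∑ a, x a ^ 2 := by
        calc _ ≤ ∑ _i : Fin k, ∑ a, x a ^ 2 := Finset.sum_le_sum (fun i _ => h1 i)
          _ = k * ∑ a, x a ^ 2 := by simp
      have h3 : (1 / (k : ℝ)) * ∑ i, (∑ a, col k c s i a * x a) ^ 2 ≤ ∑ a, x a ^ 2 := by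
        rw [one_div, inv_mul_le_iff₀ hkr]
        exact h2
      linarith
  obtain ⟨B, hB⟩ := psd_decomp k P hPsd
  refine ⟨B, ?_, ?_⟩
  · intro a b
    rw [← hB]
    simp only [P]
    ring
  · intro l
    have h1 : ∀ a, ∑ l, B l a ^ 2 ≤ 1 := by
      intro a
      have h2 := hB a a
      simp only [P, if_true] at h2
      have h3 : 0 ≤ ∑ i, (1 / (k : ℝ)) * (col k c s i a * col k c s i a) :=
        Finset.sum_nonneg (fun i _ => mul_nonneg (by positivity) (mul_self_nonneg _))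
      have h4 : ∑ l, B l a ^ 2 = ∑ l, B l a * B l a :=
        Finset.sum_congr rfl (fun l _ => sq _)
      rw [h4, ← h2]; linarith
    calc ∑ a, B l a ^ 2 ≤ ∑ _a : Fin k, (1 : ℝ) := by
          apply Finset.sum_le_sum
          intro a _
          exact (Finset.single_le_sum (f := fun l => B l a ^ 2) (fun _ _ => sq_nonneg _)
            (Finset.mem_univ l)).trans (h1 a)
      _ = k := by simp

/-- the rows of the matrix -/
noncomputable def Qm (k T : ℕ) (c s : ℝ) (B : Matrix (Fin k) (Fin k) ℝ) :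
    Matrix (Fin (k + k * T)) (Fin k) ℝ := fun r =>
  Fin.addCases (fun i a => (1 / Real.sqrt k) * col k c s i a)
    (fun j a => (1 / Real.sqrt T) * B (finProdFinEquiv.symm j).1 a) r

lemma Qm_left (k T : ℕ) (c s : ℝ) (B : Matrix (Fin k) (Fin k) ℝ) (i a : Fin k) :
    Qm k T c s B (Fin.castAdd _ i) a = (1 / Real.sqrt k) * col k c s i a := by
  unfold Qm; rw [Fin.addCases_left]

lemma Qm_right (k T : ℕ) (c s : ℝ) (B : Matrix (Fin k) (Fin k) ℝ) (j : Fin (k * T)) (a : Fin k) :
    Qm k T c s B (Fin.natAdd _ j) a = (1 / Real.sqrt T) * B (finProdFinEquiv.symm j).1 a := by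
  unfold Qm; rw [Fin.addCases_right]

lemma Qm_orth (k T : ℕ) (hk : 0 < k) (hT : 0 < T) (c s : ℝ) (B : Matrix (Fin k) (Fin k) ℝ)
    (hB : ∀ a b, (∑ i, (1 / (k : ℝ)) * (col k c s i a * col k c s i b)) + ∑ l, B l a * B l b
        = if a = b then 1 else 0) : (Qm k T c s B)ᵀ * Qm k T c s B = 1 := by
  ext a b
  rw [Matrix.mul_apply, Matrix.one_apply, ← hB a b, Fin.sum_univ_add]
  simp only [Matrix.transpose_apply, Qm_left, Qm_right]
  have hkr : (0 : ℝ) < k := by exact_mod_cast hk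
  have hTr : (0 : ℝ) < T := by exact_mod_cast hT
  congr 1
  · apply Finset.sum_congr rfl; intro i _
    have : (1 / Real.sqrt k) * (1 / Real.sqrt k) = 1 / (k : ℝ) := by
      rw [div_mul_div_comm, one_mul, Real.mul_self_sqrt hkr.le]
    rw [← this]; ring
  · rw [← finProdFinEquiv.sum_comp]
    simp only [Equiv.symm_apply_apply]
    rw [Fintype.sum_prod_type]
    apply Finset.sum_congr rfl; intro l _
    simp only [Finset.sum_const, Finset.card_univ, Fintype.card_fin, nsmul_eq_mul]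
    field_simp
    rw [Real.sq_sqrt hTr.le]

abbrev Ek (k : ℕ) := EuclideanSpace ℝ (Fin k)

/-- span of the first `j` chosen rows -/
noncomputable def Vj (k T : ℕ) (c s : ℝ) (B : Matrix (Fin k) (Fin k) ℝ) (j : Fin k) :
    Submodule ℝ (Ek k) :=
  Submodule.span ℝ ((fun i : Fin k =>
    (WithLp.toLp 2 (Qm k T c s B (Fin.castAdd _ i)) : Ek k)) '' {i | i < j})

lemma Vj_zero (k T : ℕ) (c s : ℝ) (B : Matrix (Fin k) (Fin k) ℝ) (j : Fin k) (w : Ek k)
    (hw : w ∈ Vj k T c s B j) (l : Fin k) (hl : j ≤ l) : w l = 0 := by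
  unfold Vj at hw
  induction hw using Submodule.span_induction with
  | mem x hx =>
    obtain ⟨i, hi, rfl⟩ := hx
    have hi' : i < j := hi
    show Qm k T c s B (Fin.castAdd _ i) l = 0
    rw [Qm_left]
    have h1 : ¬ l < i := by
      intro h; exact absurd (h.trans hi') (not_lt.mpr hl)
    have h2 : ¬ l = i := by
      rintro rfl; exact absurd hi' (not_lt.mpr hl)
    simp [col, h1, h2]
  | zero => rfl
  | add x y _ _ hx hy =>
    show x l + y l = 0
    rw [hx, hy, add_zero]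
  | smul a x _ hx =>
    show a * x l = 0
    rw [hx, mul_zero]

lemma infDist_lower (k T : ℕ) (c s : ℝ) (B : Matrix (Fin k) (Fin k) ℝ) (j : Fin k) (v : Ek k) :
    Real.sqrt (∑ l, if j ≤ l then v l ^ 2 else 0) ≤ Metric.infDist v (Vj k T c s B j : Set (Ek k)) := by
  rw [Metric.le_infDist ⟨0, (Vj k T c s B j).zero_mem⟩]
  intro w hw
  rw [EuclideanSpace.dist_eq]
  apply Real.sqrt_le_sqrt
  apply Finset.sum_le_sum
  intro l _
  by_cases h : j ≤ l
  · rw [if_pos h, Vj_zero k T c s B j w hw l h, Real.dist_eq, sub_zero, sq_abs]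
  · rw [if_neg h]; positivity

lemma sum_single (k : ℕ) (g : Fin k → ℝ) (a : Fin k) :
    (∑ m : Fin k, g m • (EuclideanSpace.single m (1 : ℝ) : Ek k)) a = g a := by
  simp [Pi.single_apply]

lemma single_mem (k T : ℕ) (c s : ℝ) (hs : 0 < s) (hk : 0 < k) (B : Matrix (Fin k) (Fin k) ℝ)
    (j : Fin k) : ∀ n : ℕ, ∀ l : Fin k, (l : ℕ) = n → l < j →
      (EuclideanSpace.single l (1 : ℝ) : Ek k) ∈ Vj k T c s B j := by
  intro n
  induction n using Nat.strong_induction_on with
  | _ n ih =>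
    intro l hln hlj
    have hkr : (0 : ℝ) < Real.sqrt k := Real.sqrt_pos.mpr (by exact_mod_cast hk)
    have hmem : (WithLp.toLp 2 (Qm k T c s B (Fin.castAdd _ l)) : Ek k) ∈ Vj k T c s B j :=
      Submodule.subset_span ⟨l, hlj, rfl⟩
    have hdec : (EuclideanSpace.single l (1 : ℝ) : Ek k) =
        (1 / s ^ (l : ℕ)) • ((Real.sqrt k) • (WithLp.toLp 2 (Qm k T c s B (Fin.castAdd _ l)) : Ek k) +
          ∑ m : Fin k, (if m < l then c * s ^ (m : ℕ) else 0) • (EuclideanSpace.single m (1 : ℝ) : Ek k)) := by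
      ext a
      have e1 : (∑ m : Fin k, (if m < l then c * s ^ (m : ℕ) else 0) • (EuclideanSpace.single m (1 : ℝ) : Ek k)) a
          = if a < l then c * s ^ (a : ℕ) else 0 := by
        exact sum_single k (fun m => if m < l then c * s ^ (m : ℕ) else 0) a
      rw [PiLp.smul_apply, PiLp.add_apply, PiLp.smul_apply, e1]
      show _ = (1 / s ^ (l : ℕ)) * (Real.sqrt k * Qm k T c s B (Fin.castAdd _ l) a + _)
      rw [Qm_left, PiLp.single_apply]
      unfold col
      by_cases h1 : a < l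
      · have h2 : a ≠ l := h1.ne
        simp only [h1, h2, if_true, if_false]
        field_simp
        ring
      · by_cases h2 : a = l
        · subst h2
          simp only [h1, if_true, if_false]
          field_simp
          ring
        · simp only [h1, h2, if_false]
          ring
    rw [hdec]
    apply Submodule.smul_mem
    apply Submodule.add_mem _ (Submodule.smul_mem _ _ hmem)
    apply Submodule.sum_mem
    intro m _
    by_cases hm : m < l
    · exact Submodule.smul_mem _ _ (ih m (by rw [← hln]; exact hm) m rfl (hm.trans hlj))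
    · rw [if_neg hm, zero_smul]; exact Submodule.zero_mem _

lemma infDist_upper (k T : ℕ) (c s : ℝ) (hs : 0 < s) (hk : 0 < k) (B : Matrix (Fin k) (Fin k) ℝ)
    (j : Fin k) (v : Ek k) :
    Metric.infDist v (Vj k T c s B j : Set (Ek k)) ≤ Real.sqrt (∑ l, if j ≤ l then v l ^ 2 else 0) := by
  let w : Ek k := ∑ m : Fin k, (if m < j then v m else 0) • (EuclideanSpace.single m (1 : ℝ) : Ek k)
  have hw : w ∈ Vj k T c s B j := by
    apply Submodule.sum_mem
    intro m _
    by_cases hm : m < j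
    · exact Submodule.smul_mem _ _ (single_mem k T c s hs hk B j m m rfl hm)
    · rw [if_neg hm, zero_smul]; exact Submodule.zero_mem _
  have hwa : ∀ a, w a = if a < j then v a else 0 := by
    intro a
    exact sum_single k (fun m => if m < j then v m else 0) a
  refine (Metric.infDist_le_dist_of_mem hw).trans ?_
  rw [EuclideanSpace.dist_eq]
  apply Real.sqrt_le_sqrt
  apply Finset.sum_le_sum
  intro l _
  rw [hwa]
  by_cases h : j ≤ l
  · have h' : ¬ l < j := not_lt.mpr h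
    rw [if_pos h, if_neg h', Real.dist_eq, sub_zero, sq_abs]
  · have h' : l < j := not_le.mp h
    rw [if_neg h, if_pos h', dist_self]; norm_num

lemma tail_left (k T : ℕ) (hk : 0 < k) (c s : ℝ) (h : c ^ 2 = 1 - s ^ 2)
    (B : Matrix (Fin k) (Fin k) ℝ) (i j : Fin k) (hji : j ≤ i) :
    (∑ l, if j ≤ l then Qm k T c s B (Fin.castAdd _ i) l ^ 2 else 0) = (1 / k) * (s ^ (j : ℕ)) ^ 2 := by
  rw [← tail_norm k c s h i j hji, Finset.mul_sum]
  apply Finset.sum_congr rfl
  intro l _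
  rw [Qm_left]
  have hkr : (0 : ℝ) < k := by exact_mod_cast hk
  have : (1 / Real.sqrt k) ^ 2 = 1 / (k : ℝ) := by
    rw [div_pow, one_pow, Real.sq_sqrt hkr.le]
  split_ifs
  · rw [mul_pow, this]
  · ring

lemma tail_left_zero (k T : ℕ) (c s : ℝ)
    (B : Matrix (Fin k) (Fin k) ℝ) (i j : Fin k) (hji : i < j) :
    (∑ l, if j ≤ l then Qm k T c s B (Fin.castAdd _ i) l ^ 2 else 0) = 0 := by
  apply Finset.sum_eq_zero
  intro l _
  by_cases hl : j ≤ l
  · rw [if_pos hl, Qm_left]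
    have h1 : ¬ l < i := not_lt.mpr (hji.le.trans hl)
    have h2 : ¬ l = i := by rintro rfl; exact absurd hji (not_lt.mpr hl)
    simp [col, h1, h2]
  · rw [if_neg hl]

lemma tail_right (k T : ℕ) (hT : 0 < T) (c s : ℝ)
    (B : Matrix (Fin k) (Fin k) ℝ) (hB : ∀ l, ∑ a, B l a ^ 2 ≤ k) (i : Fin (k * T)) (j : Fin k) :
    (∑ l, if j ≤ l then Qm k T c s B (Fin.natAdd _ i) l ^ 2 else 0) ≤ k / T := by
  have hTr : (0 : ℝ) < T := by exact_mod_cast hT
  have h1 : (1 / Real.sqrt T) ^ 2 = 1 / (T : ℝ) := by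
    rw [div_pow, one_pow, Real.sq_sqrt hTr.le]
  calc (∑ l, if j ≤ l then Qm k T c s B (Fin.natAdd _ i) l ^ 2 else 0)
      ≤ ∑ l, (1 / (T : ℝ)) * B (finProdFinEquiv.symm i).1 l ^ 2 := by
        apply Finset.sum_le_sum
        intro l _
        rw [Qm_right]
        split_ifs
        · rw [mul_pow, h1]
        · positivity
    _ = (1 / (T : ℝ)) * ∑ l, B (finProdFinEquiv.symm i).1 l ^ 2 := by rw [Finset.mul_sum]
    _ ≤ (1 / (T : ℝ)) * k := mul_le_mul_of_nonneg_left (hB _) (by positivity)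
    _ = k / T := by ring

/-- geometric weights -/
noncomputable def y (c : ℝ) : ℕ → ℝ
  | 0 => 1
  | n + 1 => c * (1 + c) ^ n

lemma y_sum (c : ℝ) (n : ℕ) : y c (n + 1) = c * ∑ l ∈ Finset.range (n + 1), y c l := by
  have h : ∀ n : ℕ, ∑ l ∈ Finset.range (n + 1), y c l = (1 + c) ^ n := by
    intro n
    induction n with
    | zero => simp [y]
    | succ n ih => rw [Finset.sum_range_succ, ih]; simp only [y]; ring
  rw [h]; rfl

lemma mulVec_x (k : ℕ) (c s : ℝ) (hs : 0 < s) (i : Fin k) :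
    ∑ l : Fin k, col k c s i l * (y c l / s ^ (l : ℕ)) = if (i : ℕ) = 0 then 1 else 0 := by
  have h1 : ∀ l : Fin k, col k c s i l * (y c l / s ^ (l : ℕ)) =
      (fun n : ℕ => if n < (i : ℕ) then -c * y c n else if n = (i : ℕ) then y c n else 0) (l : ℕ) := by
    intro l
    have hsl : s ^ (l : ℕ) ≠ 0 := by positivity
    simp only [col, Fin.lt_def, Fin.ext_iff]
    split_ifs
    · field_simp
    · field_simp
    · ring
  rw [Finset.sum_congr rfl (fun l _ => h1 l),
    Fin.sum_univ_eq_sum_range (fun n : ℕ => if n < (i : ℕ) then -c * y c n else if n = (i : ℕ) then y c n else 0) k]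
  have h2 : ∀ m : ℕ, (i : ℕ) + 1 ≤ m → ∑ n ∈ Finset.range m,
      (if n < (i : ℕ) then -c * y c n else if n = (i : ℕ) then y c n else 0)
      = ∑ n ∈ Finset.range ((i : ℕ) + 1),
      (if n < (i : ℕ) then -c * y c n else if n = (i : ℕ) then y c n else 0) := by
    intro m hm
    symm
    apply Finset.sum_subset
    · intro n hn; simp at hn ⊢; omega
    · intro n _ hn2
      have a1 : ¬ n < (i : ℕ) := by simp at hn2; omega
      have a2 : ¬ n = (i : ℕ) := by simp at hn2; omega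
      rw [if_neg a1, if_neg a2]
  rw [h2 k i.2, Finset.sum_range_succ]
  have h3 : ∑ n ∈ Finset.range (i : ℕ), (if n < (i : ℕ) then -c * y c n else if n = (i : ℕ) then y c n else 0)
      = -c * ∑ n ∈ Finset.range (i : ℕ), y c n := by
    rw [Finset.mul_sum]
    apply Finset.sum_congr rfl
    intro n hn
    rw [if_pos (by simpa using hn)]
  rw [h3, if_neg (lt_irrefl _), if_pos rfl]
  rcases Nat.eq_zero_or_pos (i : ℕ) with h0 | h0
  · rw [h0]; simp [y]
  · obtain ⟨n, hn⟩ : ∃ n, (i : ℕ) = n + 1 := ⟨(i : ℕ) - 1, by omega⟩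
    rw [hn, y_sum]
    simp

lemma exists_large (K : ℝ) (e : ℕ) : ∃ m : ℕ, 1 ≤ m ∧ K * (m : ℝ) ^ e < 2 ^ m := by
  have h := tendsto_pow_const_div_const_pow_of_one_lt e (show (1 : ℝ) < 2 by norm_num)
  have h2 := h.eventually (gt_mem_nhds (show (0 : ℝ) < 1 / (|K| + 1) by positivity))
  obtain ⟨m, hm1, hm2⟩ := (h2.and (Filter.eventually_ge_atTop 1)).exists
  refine ⟨m, hm2, ?_⟩
  rw [div_lt_div_iff₀ (by positivity) (by positivity), one_mul] at hm1
  have h3 : K * (m : ℝ) ^ e ≤ (m : ℝ) ^ e * (|K| + 1) := by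
    have h4 : (0 : ℝ) ≤ (m : ℝ) ^ e := by positivity
    nlinarith [le_abs_self K]
  linarith

/-- The negation of the preceding statement: There are constants C, d such that for every n×k real Q with orthonormal columns (k<n), the k rows picked by greedy column-pivoted QR on Qᵀ (first index on ties) give a k×k block whose inverse has 2-norm at most C·n^d. -/
theorem result :
    ¬ (∃ C : ℝ, ∃ d : ℕ, ∀ n k : ℕ, k < n →
      ∀ Q : Matrix (Fin n) (Fin k) ℝ, Qᵀ * Q = 1 →
      ∀ σ : Fin k → Fin n,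
        (∀ j : Fin k, ∀ r : Fin n,
          Metric.infDist (WithLp.toLp 2 (Q r) : EuclideanSpace ℝ (Fin k))
              (Submodule.span ℝ
                ((fun i : Fin k => (WithLp.toLp 2 (Q (σ i)) : EuclideanSpace ℝ (Fin k))) ''
                  {i | i < j}) : Set (EuclideanSpace ℝ (Fin k)))
            ≤ Metric.infDist (WithLp.toLp 2 (Q (σ j)) : EuclideanSpace ℝ (Fin k))
              (Submodule.span ℝ
                ((fun i : Fin k => (WithLp.toLp 2 (Q (σ i)) : EuclideanSpace ℝ (Fin k))) ''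
                  {i | i < j}) : Set (EuclideanSpace ℝ (Fin k)))) →
        (∀ j : Fin k, ∀ r : Fin n, r < σ j →
          Metric.infDist (WithLp.toLp 2 (Q r) : EuclideanSpace ℝ (Fin k))
              (Submodule.span ℝ
                ((fun i : Fin k => (WithLp.toLp 2 (Q (σ i)) : EuclideanSpace ℝ (Fin k))) ''
                  {i | i < j}) : Set (EuclideanSpace ℝ (Fin k)))
            < Metric.infDist (WithLp.toLp 2 (Q (σ j)) : EuclideanSpace ℝ (Fin k))
              (Submodule.span ℝ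
                ((fun i : Fin k => (WithLp.toLp 2 (Q (σ i)) : EuclideanSpace ℝ (Fin k))) ''
                  {i | i < j}) : Set (EuclideanSpace ℝ (Fin k)))) →
        ∀ x : Fin k → ℝ,
          ‖(WithLp.toLp 2 x : EuclideanSpace ℝ (Fin k))‖ ≤
            C * (n : ℝ) ^ d *
              ‖(WithLp.toLp 2 ((Q.submatrix σ id) *ᵥ x) : EuclideanSpace ℝ (Fin k))‖) := by
  rintro ⟨C, d, H⟩
  obtain ⟨m, hm1, hm⟩ := exists_large (8 * |C| * 24 ^ d) (6 * d + 1)
  have hmr : (1 : ℝ) ≤ m := by exact_mod_cast hm1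
  set k : ℕ := 2 * m ^ 2 with hkdef
  have hk : 0 < k := by positivity
  have hk2 : 2 ≤ k := by
    have : 1 ≤ m ^ 2 := Nat.one_le_pow _ _ hm1
    omega
  have hkr : (k : ℝ) = 2 * m ^ 2 := by rw [hkdef]; push_cast; ring
  have hkr0 : (0 : ℝ) < k := by exact_mod_cast hk
  set T : ℕ := 2 * k ^ 2 with hTdef
  have hT : 0 < T := by positivity
  set c : ℝ := 1 / (2 * m) with hc
  have hc0 : 0 < c := by positivity
  have hc1 : c ≤ 1 / 2 := by
    rw [hc, div_le_div_iff₀ (by positivity) (by norm_num)]; linarith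
  have hc2 : c ^ 2 * (2 * k) = 1 := by
    rw [hc, hkr]; field_simp
  set s : ℝ := Real.sqrt (1 - c ^ 2) with hs
  have hc2' : c ^ 2 ≤ 1 / 4 := by nlinarith
  have hs0 : 0 < s := Real.sqrt_pos.mpr (by linarith)
  have hs2 : s ^ 2 = 1 - c ^ 2 := Real.sq_sqrt (by linarith)
  have hs1 : s ≤ 1 := by
    rw [hs, Real.sqrt_le_iff]; constructor
    · norm_num
    · nlinarith
  have hcs : c ^ 2 = 1 - s ^ 2 := by linarith
  obtain ⟨B, hB1, hB2⟩ := exists_B k hk c s hcs
  have hQ := Qm_orth k T hk hT c s B hB1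
  -- small tails
  have hsj : ∀ j : Fin k, 1 / 2 ≤ (s ^ (j : ℕ)) ^ 2 := by
    intro j
    have h1 : (s ^ (j : ℕ)) ^ 2 = (1 + (-(c ^ 2))) ^ (j : ℕ) := by
      rw [← pow_mul, mul_comm, pow_mul, hs2]; ring_nf
    rw [h1]
    have h2 := one_add_mul_le_pow (show (-2 : ℝ) ≤ -(c ^ 2) by linarith) (j : ℕ)
    have h3 : ((j : ℕ) : ℝ) ≤ k := by exact_mod_cast j.2.le
    have h4 : ((j : ℕ) : ℝ) * c ^ 2 ≤ k * c ^ 2 := mul_le_mul_of_nonneg_right h3 (sq_nonneg c)
    nlinarith
  have hkT : (k : ℝ) / T ≤ (1 / k) * (1 / 2) := by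
    have : (T : ℝ) = 2 * k ^ 2 := by rw [hTdef]; push_cast; ring
    rw [this]
    apply le_of_eq
    field_simp
  have hlow : ∀ j : Fin k, Real.sqrt ((1 / k) * (s ^ (j : ℕ)) ^ 2) ≤
      Metric.infDist (WithLp.toLp 2 (Qm k T c s B (Fin.castAdd _ j)) : Ek k)
        (Vj k T c s B j : Set (Ek k)) := by
    intro j
    have h1 := infDist_lower k T c s B j (WithLp.toLp 2 (Qm k T c s B (Fin.castAdd _ j)))
    rw [← tail_left k T hk c s hcs B j j le_rfl]
    exact h1
  have hcond1 : ∀ j : Fin k, ∀ r : Fin (k + k * T),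
      Metric.infDist (WithLp.toLp 2 (Qm k T c s B r) : Ek k) (Vj k T c s B j : Set (Ek k)) ≤
      Metric.infDist (WithLp.toLp 2 (Qm k T c s B (Fin.castAdd _ j)) : Ek k)
        (Vj k T c s B j : Set (Ek k)) := by
    intro j r
    refine le_trans ?_ (hlow j)
    refine (infDist_upper k T c s hs0 hk B j _).trans ?_
    apply Real.sqrt_le_sqrt
    refine Fin.addCases (fun i => ?_) (fun i => ?_) r
    · rcases lt_or_ge i j with h | h
      · refine (tail_left_zero k T c s B i j h).le.trans ?_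
        positivity
      · exact (tail_left k T hk c s hcs B i j h).le
    · refine (tail_right k T hT c s B hB2 i j).trans (hkT.trans ?_)
      exact mul_le_mul_of_nonneg_left (hsj j) (by positivity)
  have hcond2 : ∀ j : Fin k, ∀ r : Fin (k + k * T), r < Fin.castAdd _ j →
      Metric.infDist (WithLp.toLp 2 (Qm k T c s B r) : Ek k) (Vj k T c s B j : Set (Ek k)) <
      Metric.infDist (WithLp.toLp 2 (Qm k T c s B (Fin.castAdd _ j)) : Ek k)
        (Vj k T c s B j : Set (Ek k)) := by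
    intro j r hr
    have hrk : (r : ℕ) < j := hr
    obtain ⟨i, rfl⟩ : ∃ i : Fin k, r = Fin.castAdd _ i := ⟨⟨r, by have := j.2; omega⟩, rfl⟩
    have hij : i < j := hr
    refine lt_of_lt_of_le ?_ (hlow j)
    have h1 := infDist_upper k T c s hs0 hk B j (WithLp.toLp 2 (Qm k T c s B (Fin.castAdd _ i)))
    have h2 : Real.sqrt (∑ l, if j ≤ l then (WithLp.toLp 2 (Qm k T c s B (Fin.castAdd _ i)) : Ek k) l ^ 2 else 0) = 0 := by
      have := tail_left_zero k T c s B i j hij
      rw [Real.sqrt_eq_zero']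
      exact this.le
    rw [h2] at h1
    refine lt_of_le_of_lt h1 ?_
    apply Real.sqrt_pos.mpr
    positivity
  have hfin := H (k + k * T) k (by have : 0 < k * T := by positivity
                                   omega) (Qm k T c s B) hQ (Fin.castAdd _) hcond1 hcond2
    (fun l => y c l / s ^ (l : ℕ))
  have hmv : ((Qm k T c s B).submatrix (Fin.castAdd (k * T)) id) *ᵥ (fun l : Fin k => y c l / s ^ (l : ℕ))
      = fun i : Fin k => if (i : ℕ) = 0 then 1 / Real.sqrt k else 0 := by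
    funext i
    simp only [Matrix.mulVec, dotProduct, Matrix.submatrix_apply, id]
    have h1 : ∀ l : Fin k, Qm k T c s B (Fin.castAdd _ i) l * (y c l / s ^ (l : ℕ))
        = (1 / Real.sqrt k) * (col k c s i l * (y c l / s ^ (l : ℕ))) := by
      intro l; rw [Qm_left]; ring
    rw [Finset.sum_congr rfl (fun l _ => h1 l), ← Finset.mul_sum, mulVec_x k c s hs0 i]
    split_ifs <;> ring
  rw [hmv] at hfin
  have hnorm1 : ‖(WithLp.toLp 2 (fun i : Fin k => if (i : ℕ) = 0 then 1 / Real.sqrt k else 0) : Ek k)‖ ≤ 1 := by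
    rw [EuclideanSpace.norm_eq, Real.sqrt_le_iff]
    refine ⟨by norm_num, ?_⟩
    rw [one_pow]
    have h1 : ∑ i : Fin k, ‖(WithLp.toLp 2 (fun i : Fin k => if (i : ℕ) = 0 then 1 / Real.sqrt k else 0) : Ek k) i‖ ^ 2
        ≤ ∑ i : Fin k, (1 / (k : ℝ)) := by
      apply Finset.sum_le_sum
      intro i _
      show ‖if (i : ℕ) = 0 then 1 / Real.sqrt k else 0‖ ^ 2 ≤ _
      rw [Real.norm_eq_abs, sq_abs]
      split_ifs
      · rw [div_pow, one_pow, Real.sq_sqrt hkr0.le]
      · simp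
    refine h1.trans ?_
    simp
    rw [mul_inv_cancel₀ hkr0.ne']
  have hnorm2 : c * (1 + c) ^ (k - 2) ≤ ‖(WithLp.toLp 2 (fun l : Fin k => y c l / s ^ (l : ℕ)) : Ek k)‖ := by
    have h1 := PiLp.norm_apply_le (p := 2) (WithLp.toLp 2 (fun l : Fin k => y c l / s ^ (l : ℕ)) : Ek k)
      ⟨k - 1, by omega⟩
    refine le_trans ?_ h1
    show _ ≤ ‖y c (k - 1) / s ^ (k - 1)‖
    have h2 : y c (k - 1) = c * (1 + c) ^ (k - 2) := by
      have : k - 1 = (k - 2) + 1 := by omega
      rw [this]; rfl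
    rw [h2, Real.norm_eq_abs, abs_of_pos (by positivity), le_div_iff₀ (by positivity)]
    have h3 : s ^ (k - 1) ≤ 1 := pow_le_one₀ hs0.le hs1
    have h4 : 0 < c * (1 + c) ^ (k - 2) := by positivity
    nlinarith
  have hbig : (2 : ℝ) ^ m ≤ 4 * (1 + c) ^ (k - 2) := by
    have h1 : (2 : ℝ) ≤ (1 + c) ^ (2 * m) := by
      have h2 := one_add_mul_le_pow (show (-2 : ℝ) ≤ c by linarith) (2 * m)
      have h3 : ((2 * m : ℕ) : ℝ) * c = 1 := by rw [hc]; push_cast; field_simp
      linarith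
    have h2 : (2 : ℝ) ^ m ≤ (1 + c) ^ k := by
      calc (2 : ℝ) ^ m ≤ ((1 + c) ^ (2 * m)) ^ m := pow_le_pow_left₀ (by norm_num) h1 m
        _ = (1 + c) ^ k := by rw [← pow_mul, hkdef]; congr 1; ring
    have h3 : (1 + c) ^ k = (1 + c) ^ 2 * (1 + c) ^ (k - 2) := by
      rw [← pow_add]; congr 1; omega
    have h4 : (1 + c) ^ 2 ≤ 4 := by nlinarith
    rw [h3] at h2
    have h5 : 0 < (1 + c) ^ (k - 2) := by positivity
    nlinarith
  have hn : (((k + k * T : ℕ)) : ℝ) ≤ 24 * (m : ℝ) ^ 6 := by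
    have h1 : (((k + k * T : ℕ)) : ℝ) = 2 * m ^ 2 + 16 * m ^ 6 := by
      rw [hTdef, hkdef]; push_cast; ring
    rw [h1]
    have h2 : (m : ℝ) ^ 2 ≤ (m : ℝ) ^ 6 := pow_le_pow_right₀ hmr (by norm_num)
    linarith
  have h9 : c * (1 + c) ^ (k - 2) ≤ |C| * (24 * (m : ℝ) ^ 6) ^ d := by
    refine hnorm2.trans (hfin.trans ?_)
    have h1 : C * (((k + k * T : ℕ)) : ℝ) ^ d ≤ |C| * (24 * (m : ℝ) ^ 6) ^ d := by
      calc C * (((k + k * T : ℕ)) : ℝ) ^ d ≤ |C| * (((k + k * T : ℕ)) : ℝ) ^ d :=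
            mul_le_mul_of_nonneg_right (le_abs_self C) (by positivity)
        _ ≤ |C| * (24 * (m : ℝ) ^ 6) ^ d :=
            mul_le_mul_of_nonneg_left (pow_le_pow_left₀ (by positivity) hn d) (abs_nonneg C)
    have h2 : 0 ≤ |C| * (24 * (m : ℝ) ^ 6) ^ d := by positivity
    calc _ ≤ (|C| * (24 * (m : ℝ) ^ 6) ^ d) * ‖(WithLp.toLp 2 (fun i : Fin k => if (i : ℕ) = 0 then 1 / Real.sqrt k else 0) : Ek k)‖ :=
          mul_le_mul_of_nonneg_right h1 (norm_nonneg _)
      _ ≤ (|C| * (24 * (m : ℝ) ^ 6) ^ d) * 1 := mul_le_mul_of_nonneg_left hnorm1 h2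
      _ = _ := mul_one _
  have h10 : (2 : ℝ) ^ m ≤ 8 * |C| * 24 ^ d * (m : ℝ) ^ (6 * d + 1) := by
    have h11 : (2 : ℝ) ^ m * c ≤ 4 * (|C| * (24 * (m : ℝ) ^ 6) ^ d) := by
      calc (2 : ℝ) ^ m * c ≤ (4 * (1 + c) ^ (k - 2)) * c := mul_le_mul_of_nonneg_right hbig hc0.le
        _ = 4 * (c * (1 + c) ^ (k - 2)) := by ring
        _ ≤ _ := mul_le_mul_of_nonneg_left h9 (by norm_num)
    have h12 : (2 : ℝ) ^ m = ((2 : ℝ) ^ m * c) * (2 * m) := by
      rw [hc]; field_simp
    rw [h12]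
    calc ((2 : ℝ) ^ m * c) * (2 * m) ≤ (4 * (|C| * (24 * (m : ℝ) ^ 6) ^ d)) * (2 * m) :=
          mul_le_mul_of_nonneg_right h11 (by positivity)
      _ = 8 * |C| * 24 ^ d * (m : ℝ) ^ (6 * d + 1) := by
          rw [mul_pow, ← pow_mul, pow_succ]; ring
  linarith

end Pool.Agent.S1524
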