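import Pool.Statements.S1578
import Mathlib

set_option autoImplicit false
open Pool Pool.MP_8a8b2f_an

namespace Pool.Agent.S1578

open MeasureTheory Filter Topology
open scoped ENNReal InnerProductSpace

noncomputable abbrev EE := Lp ℂ 2 (volume : Measure ℝ)

/-! ### The weight -/

noncomputable def θ (x : ℝ) : ℝ := (1 / 4) * Real.log (1 + max x 0)

lemma θ_mono : Monotone θ := by
  intro x y h
  unfold θ
  have h1 : (0 : ℝ) < 1 + max x 0 := by have := le_max_right x 0; linarith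
  have h2 : 1 + max x 0 ≤ 1 + max y 0 := by have := max_le_max_right 0 h; linarith
  have := Real.log_le_log h1 h2
  linarith

lemma θ_step (x y : ℝ) (h : x ≤ y) : θ y - θ x ≤ (y - x) / (4 * (1 + max x 0)) := by
  unfold θ
  have h1 : (0 : ℝ) < 1 + max x 0 := by have := le_max_right x 0; linarith
  have h2 : (0 : ℝ) < 1 + max y 0 := by have := le_max_right y 0; linarith
  have h3 := Real.log_le_sub_one_of_pos (div_pos h2 h1)
  rw [Real.log_div h2.ne' h1.ne'] at h3
  have h4 : max y 0 - max x 0 ≤ y - x := by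
    rcases le_total x 0 with hx | hx <;> rcases le_total y 0 with hy | hy
    · rw [max_eq_right hx, max_eq_right hy]; linarith
    · rw [max_eq_right hx, max_eq_left hy]; linarith
    · rw [max_eq_left hx, max_eq_right hy]; linarith
    · rw [max_eq_left hx, max_eq_left hy]
  have h5 : (1 + max y 0) / (1 + max x 0) - 1 ≤ (y - x) / (1 + max x 0) := by
    rw [div_sub_one h1.ne']
    apply div_le_div_of_nonneg_right _ h1.le
    linarith
  have h6 : (y - x) / (4 * (1 + max x 0)) = (1 / 4) * ((y - x) / (1 + max x 0)) := by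
    field_simp
  rw [h6]
  linarith

lemma θ_lip (x y : ℝ) : |θ x - θ y| ≤ |x - y| := by
  wlog h : y ≤ x generalizing x y
  · rw [abs_sub_comm, abs_sub_comm x y]
    exact this y x (le_of_not_ge h)
  rw [abs_of_nonneg (sub_nonneg.mpr (θ_mono h)), abs_of_nonneg (sub_nonneg.mpr h)]
  refine (θ_step y x h).trans ?_
  rw [div_le_iff₀ (by have := le_max_right y 0; linarith)]
  have : 0 ≤ x - y := sub_nonneg.mpr h
  have := le_max_right y 0
  nlinarith

lemma θ_cont : Continuous θ := by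
  have : LipschitzWith 1 θ := by
    apply LipschitzWith.of_dist_le_mul
    intro x y
    rw [Real.dist_eq, Real.dist_eq]
    simpa using θ_lip x y
  exact this.continuous

/-- the cocycle -/
noncomputable def m (t x : ℝ) : ℝ := Real.exp (-(θ x - θ (x - t)))

lemma m_meas (t : ℝ) : Measurable (m t) := by
  have : Continuous (m t) := by
    unfold m
    exact Real.continuous_exp.comp ((θ_cont.sub (θ_cont.comp (continuous_id.sub continuous_const))).neg)
  exact this.measurable

lemma m_bound (t x : ℝ) : |m t x| ≤ Real.exp |t| := by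
  unfold m
  rw [abs_of_pos (Real.exp_pos _)]
  apply Real.exp_le_exp.mpr
  have := θ_lip x (x - t)
  rw [sub_sub_cancel] at this
  have := neg_abs_le (θ x - θ (x - t))
  linarith

lemma memLp_of_bdd (a : ℝ → ℝ) (ha : Measurable a) (C : ℝ) (hC : ∀ x, |a x| ≤ C) :
    MemLp (fun x => (a x : ℂ)) ∞ (volume : Measure ℝ) := by
  apply memLp_top_of_bound (Complex.measurable_ofReal.comp ha).aestronglyMeasurable C
  filter_upwards with x
  show ‖(a x : ℂ)‖ ≤ C
  rw [Complex.norm_real]; exact hC x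

/-- multiplication operator -/
noncomputable def mulL (a : ℝ → ℝ) (ha : MemLp (fun x => (a x : ℂ)) ∞ (volume : Measure ℝ)) : EE →L[ℂ] EE :=
  (ContinuousLinearMap.mul ℂ ℂ).holderL volume ∞ 2 2 (ha.toLp _)

lemma mulL_coe (a : ℝ → ℝ) (ha : MemLp (fun x => (a x : ℂ)) ∞ (volume : Measure ℝ)) (f : EE) :
    mulL a ha f =ᵐ[volume] fun x => (a x : ℂ) * f x := by
  have h1 := (ContinuousLinearMap.mul ℂ ℂ).coeFn_holder (r := 2) (ha.toLp _) f
  have h2 := ha.coeFn_toLp
  unfold mulL
  rw [ContinuousLinearMap.holderL_apply_apply]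
  filter_upwards [h1, h2] with x hx1 hx2
  rw [hx1, hx2]
  rfl

/-- translation -/
noncomputable def tau (t : ℝ) : EE →L[ℂ] EE :=
  (Lp.compMeasurePreservingₗᵢ ℂ (fun x : ℝ => x - t) (measurePreserving_sub_right volume t)).toContinuousLinearMap

lemma tau_coe (t : ℝ) (f : EE) : tau t f =ᵐ[volume] fun x => f (x - t) :=
  Lp.coeFn_compMeasurePreserving f (measurePreserving_sub_right volume t)

noncomputable def ip : ℝ → ℝ := (Set.Ioi (0 : ℝ)).indicator 1
noncomputable def im : ℝ → ℝ := (Set.Iic (0 : ℝ)).indicator 1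

lemma ip_pos {x : ℝ} (h : 0 < x) : ip x = 1 := by simp [ip, h]
lemma ip_neg {x : ℝ} (h : x ≤ 0) : ip x = 0 := by simp [ip, h]
lemma im_pos {x : ℝ} (h : 0 < x) : im x = 0 := by simp [im, h]
lemma im_neg {x : ℝ} (h : x ≤ 0) : im x = 1 := by simp [im, h]

lemma ip_meas : Measurable ip := measurable_one.indicator measurableSet_Ioi
lemma im_meas : Measurable im := measurable_one.indicator measurableSet_Iic
lemma ip_bound (x : ℝ) : |ip x| ≤ 1 := by
  rcases le_or_gt x 0 with h | h
  · rw [ip_neg h]; simp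
  · rw [ip_pos h]; simp
lemma im_bound (x : ℝ) : |im x| ≤ 1 := by
  rcases le_or_gt x 0 with h | h
  · rw [im_neg h]; simp
  · rw [im_pos h]; simp

lemma hip : MemLp (fun x => (ip x : ℂ)) ∞ (volume : Measure ℝ) := memLp_of_bdd ip ip_meas 1 ip_bound
lemma him : MemLp (fun x => (im x : ℂ)) ∞ (volume : Measure ℝ) := memLp_of_bdd im im_meas 1 im_bound
lemma hm (t : ℝ) : MemLp (fun x => (m t x : ℂ)) ∞ (volume : Measure ℝ) :=
  memLp_of_bdd (m t) (m_meas t) _ (m_bound t)

/-- the semigroup -/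
noncomputable def T (t : ℝ) : EE →L[ℂ] EE :=
  (mulL (m t) (hm t)).comp ((tau t).comp (mulL ip hip)) + mulL im him

lemma T_coe (t : ℝ) (f : EE) :
    T t f =ᵐ[volume] fun x => (m t x : ℂ) * ((ip (x - t) : ℂ) * f (x - t)) + (im x : ℂ) * f x := by
  have h1 := mulL_coe (m t) (hm t) (tau t (mulL ip hip f))
  have h2 := tau_coe t (mulL ip hip f)
  have h3 := (measurePreserving_sub_right (volume : Measure ℝ) t).quasiMeasurePreserving.ae (mulL_coe ip hip f)
  have h4 := mulL_coe im him f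
  have h5 := Lp.coeFn_add (mulL (m t) (hm t) (tau t (mulL ip hip f))) (mulL im him f)
  show (mulL (m t) (hm t) (tau t (mulL ip hip f)) + mulL im him f : EE) =ᵐ[volume] _
  filter_upwards [h1, h2, h3, h4, h5] with x a1 a2 a3 a4 a5
  rw [a5, Pi.add_apply, a1, a2, a3, a4]

lemma m_cocycle (s t x : ℝ) : m (s + t) x = m s x * m t (x - s) := by
  unfold m
  rw [← Real.exp_add]
  congr 1
  rw [sub_sub]
  ring

lemma T_zero : T 0 = ContinuousLinearMap.id ℂ EE := by
  ext1 f
  apply Lp.ext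
  rw [ContinuousLinearMap.id_apply]
  filter_upwards [T_coe 0 f] with x hx
  rw [hx, sub_zero]
  have : m 0 x = 1 := by simp [m]
  rw [this]
  rcases le_or_gt x 0 with h | h
  · rw [ip_neg h, im_neg h]; simp
  · rw [ip_pos h, im_pos h]; simp

lemma T_add (s t : ℝ) (hs : 0 ≤ s) (ht : 0 ≤ t) : T (s + t) = (T s).comp (T t) := by
  ext1 f
  apply Lp.ext
  rw [ContinuousLinearMap.comp_apply]
  have h1 := T_coe (s + t) f
  have h2 := T_coe s (T t f)
  have h3 := T_coe t f
  have h4 := (measurePreserving_sub_right (volume : Measure ℝ) s).quasiMeasurePreserving.ae h3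
  filter_upwards [h1, h2, h3, h4] with x a1 a2 a3 a4
  rw [a1, a2, a3, a4, m_cocycle]
  have e1 : x - (s + t) = x - s - t := by ring
  rw [e1]
  rcases le_or_gt (x - s) 0 with h | h
  · rw [ip_neg h, ip_neg (show x - s - t ≤ 0 by linarith)]
    rcases le_or_gt x 0 with h' | h'
    · rw [im_neg h', ip_neg (show x - t ≤ 0 by linarith)]; simp
    · rw [im_pos h']; simp
  · rw [ip_pos h, im_pos h, im_pos (show 0 < x by linarith)]
    push_cast
    ring

/-! ### Quadratic forms -/

lemma sq_int (f : EE) : Integrable (fun x => ‖f x‖ ^ 2) (volume : Measure ℝ) :=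
  (memLp_two_iff_integrable_sq_norm (Lp.aestronglyMeasurable f)).mp (Lp.memLp f)

lemma bdd_int (a : ℝ → ℝ) (ha : Measurable a) (C : ℝ) (hC : ∀ x, |a x| ≤ C) (f : EE) :
    Integrable (fun x => a x * ‖f x‖ ^ 2) (volume : Measure ℝ) := by
  apply (sq_int f).bdd_mul (c := C) ha.aestronglyMeasurable
  filter_upwards with x
  rw [Real.norm_eq_abs]; exact hC x

lemma norm_sq_int (f : EE) : ‖f‖ ^ 2 = ∫ x, ‖f x‖ ^ 2 := by
  have h := inner_self_eq_norm_sq_to_K (𝕜 := ℂ) f
  rw [L2.inner_def] at h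
  have h2 : ∀ x, ⟪f x, f x⟫_ℂ = ((‖f x‖ ^ 2 : ℝ) : ℂ) := fun x => by
    rw [inner_self_eq_norm_sq_to_K]; push_cast; rfl
  simp_rw [h2] at h
  rw [integral_complex_ofReal] at h
  have h3 : ((‖f‖ ^ 2 : ℝ) : ℂ) = ((∫ x, ‖f x‖ ^ 2 : ℝ) : ℂ) := by
    rw [h]; push_cast; rfl
  exact_mod_cast h3

/-- coefficient after shift -/
noncomputable def cc (p : ℝ → ℝ) (t x : ℝ) : ℝ :=
  im x * p x + ip x * (p (x + t) * Real.exp (-(2 * (θ (x + t) - θ x))))

lemma Qform (p : ℝ → ℝ) (hp : Measurable p) (hpb : ∀ x, |p x| ≤ 1) (t : ℝ) (ht : 0 ≤ t) (f : EE) :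
    ∫ x, p x * ‖T t f x‖ ^ 2 = ∫ x, cc p t x * ‖f x‖ ^ 2 := by
  have hem : Measurable (fun x => Real.exp (-(2 * (θ (x + t) - θ x)))) := by
    have : Continuous (fun x => Real.exp (-(2 * (θ (x + t) - θ x)))) :=
      Real.continuous_exp.comp ((continuous_const.mul ((θ_cont.comp (continuous_id.add continuous_const)).sub θ_cont)).neg)
    exact this.measurable
  set F : ℝ → ℝ := fun z => (ip z * (p (z + t) * Real.exp (-(2 * (θ (z + t) - θ z))))) * ‖f z‖ ^ 2 with hF
  have hFint : Integrable F := by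
    apply bdd_int _ (ip_meas.mul ((hp.comp (measurable_id.add_const t)).mul hem)) 1
    intro x
    show |ip x * (p (x + t) * Real.exp (-(2 * (θ (x + t) - θ x))))| ≤ 1
    rw [abs_mul, abs_mul]
    have h1 := ip_bound x
    have h2 := hpb (x + t)
    have h3 : |Real.exp (-(2 * (θ (x + t) - θ x)))| ≤ 1 := by
      rw [abs_of_pos (Real.exp_pos _)]
      apply Real.exp_le_one_iff.mpr
      have := θ_mono (show x ≤ x + t by linarith)
      linarith
    have h4 : |p (x + t)| * |Real.exp (-(2 * (θ (x + t) - θ x)))| ≤ 1 := by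
      have := mul_le_mul h2 h3 (abs_nonneg _) zero_le_one
      simpa using this
    have := mul_le_mul h1 h4 (by positivity) zero_le_one
    simpa using this
  have hGint : Integrable (fun x => (im x * p x) * ‖f x‖ ^ 2) := by
    apply bdd_int _ (im_meas.mul hp) 1
    intro x
    show |im x * p x| ≤ 1
    rw [abs_mul]
    have := mul_le_mul (im_bound x) (hpb x) (abs_nonneg _) zero_le_one
    simpa using this
  have h1 : ∫ x, p x * ‖T t f x‖ ^ 2 = ∫ x, (F (x - t) + (im x * p x) * ‖f x‖ ^ 2) := by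
    apply integral_congr_ae
    filter_upwards [T_coe t f] with x hx
    rw [hx, hF]
    simp only [sub_add_cancel]
    rcases le_or_gt x 0 with h | h
    · rw [im_neg h, ip_neg (show x - t ≤ 0 by linarith)]; simp
    · rw [im_pos h]
      rcases le_or_gt (x - t) 0 with h' | h'
      · rw [ip_neg h']; simp
      · rw [ip_pos h']
        simp only [Complex.ofReal_one, one_mul, Complex.ofReal_zero, zero_mul, add_zero]
        rw [norm_mul, Complex.norm_real, Real.norm_eq_abs, mul_pow, sq_abs]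
        have : m t x ^ 2 = Real.exp (-(2 * (θ x - θ (x - t)))) := by
          unfold m
          rw [← Real.exp_nat_mul]; congr 1; push_cast; ring
        rw [this]; ring
  rw [h1, integral_add (hFint.comp_sub_right t) hGint, integral_sub_right_eq_self F t,
    ← integral_add hFint hGint]
  apply integral_congr_ae
  filter_upwards with x
  rw [hF]
  unfold cc
  ring

lemma T_norm_sq (t : ℝ) (ht : 0 ≤ t) (f : EE) : ‖T t f‖ ^ 2 = ∫ x, cc 1 t x * ‖f x‖ ^ 2 := by
  rw [norm_sq_int, ← Qform 1 measurable_one (by simp) t ht f]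
  simp

lemma cc_one_le (t x : ℝ) (ht : 0 ≤ t) : |cc 1 t x| ≤ 1 := by
  unfold cc
  rcases le_or_gt x 0 with h | h
  · rw [im_neg h, ip_neg h]; simp
  · rw [im_pos h, ip_pos h]
    simp only [Pi.one_apply, zero_mul, one_mul, zero_add, Real.abs_exp]
    apply Real.exp_le_one_iff.mpr
    have := θ_mono (show x ≤ x + t by linarith)
    linarith

lemma cc_meas (p : ℝ → ℝ) (hp : Measurable p) (t : ℝ) : Measurable (cc p t) := by
  have hem : Measurable (fun x => Real.exp (-(2 * (θ (x + t) - θ x)))) := by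
    have : Continuous (fun x => Real.exp (-(2 * (θ (x + t) - θ x)))) :=
      Real.continuous_exp.comp ((continuous_const.mul ((θ_cont.comp (continuous_id.add continuous_const)).sub θ_cont)).neg)
    exact this.measurable
  exact (im_meas.mul hp).add (ip_meas.mul ((hp.comp (measurable_id.add_const t)).mul hem))

lemma T_contr (t : ℝ) (ht : 0 ≤ t) : ‖T t‖ ≤ 1 := by
  apply ContinuousLinearMap.opNorm_le_bound _ zero_le_one
  intro f
  rw [one_mul]
  have h : ‖T t f‖ ^ 2 ≤ ‖f‖ ^ 2 := by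
    rw [T_norm_sq t ht, norm_sq_int]
    apply integral_mono (bdd_int _ (cc_meas 1 measurable_one t) 1 (fun x => cc_one_le t x ht) f) (sq_int f)
    intro x
    have h1 := (le_abs_self _).trans (cc_one_le t x ht)
    have h2 : 0 ≤ ‖f x‖ ^ 2 := by positivity
    show cc 1 t x * ‖f x‖ ^ 2 ≤ ‖f x‖ ^ 2
    nlinarith
  exact (pow_le_pow_iff_left₀ (norm_nonneg _) (norm_nonneg _) two_ne_zero).mp h

/-! ### Strong continuity -/

lemma m_diff (t t' x : ℝ) (ht : 0 ≤ t) (ht' : 0 ≤ t') : |m t x - m t' x| ≤ |t - t'| := by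
  wlog h : t ≤ t' generalizing t t'
  · rw [abs_sub_comm, abs_sub_comm t]
    exact this t' t ht' ht (le_of_not_ge h)
  have h1 : m t' x ≤ m t x := by
    unfold m
    apply Real.exp_le_exp.mpr
    have := θ_mono (show x - t' ≤ x - t by linarith)
    linarith
  rw [abs_of_nonneg (sub_nonneg.mpr h1), abs_sub_comm, abs_of_nonneg (sub_nonneg.mpr h)]
  have h2 : m t' x = m t x * Real.exp (-(θ (x - t) - θ (x - t'))) := by
    unfold m
    rw [← Real.exp_add]; congr 1; ring
  have h3 : m t x ≤ 1 := by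
    unfold m
    apply Real.exp_le_one_iff.mpr
    have := θ_mono (show x - t ≤ x by linarith)
    linarith
  have h4 : θ (x - t) - θ (x - t') ≤ t' - t := by
    have := θ_lip (x - t) (x - t')
    have h5 : x - t - (x - t') = t' - t := by ring
    rw [h5, abs_of_nonneg (sub_nonneg.mpr h)] at this
    exact (le_abs_self _).trans this
  have h6 := Real.add_one_le_exp (-(θ (x - t) - θ (x - t')))
  have h7 : 0 < m t x := Real.exp_pos _
  have h8 : 0 ≤ θ (x - t) - θ (x - t') := by
    have := θ_mono (show x - t' ≤ x - t by linarith)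
    linarith
  rw [h2]
  nlinarith

lemma mul_diff (t t' : ℝ) (ht : 0 ≤ t) (ht' : 0 ≤ t') :
    ‖mulL (m t) (hm t) - mulL (m t') (hm t')‖ ≤ |t - t'| := by
  have h1 : mulL (m t) (hm t) - mulL (m t') (hm t') =
      (ContinuousLinearMap.mul ℂ ℂ).holderL volume ∞ 2 2 ((hm t).toLp _ - (hm t').toLp _) := by
    rw [map_sub]; rfl
  rw [h1]
  have h2 : ‖(ContinuousLinearMap.mul ℂ ℂ).holderL (volume : Measure ℝ) ∞ 2 2‖ ≤ 1 :=
    ((ContinuousLinearMap.mul ℂ ℂ).norm_holderL_le).trans (ContinuousLinearMap.opNorm_mul_le ℂ ℂ)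
  have h3 : ‖(hm t).toLp _ - (hm t').toLp _‖ ≤ |t - t'| := by
    rw [← MemLp.toLp_sub, Lp.norm_toLp]
    apply ENNReal.toReal_le_of_le_ofReal (abs_nonneg _)
    rw [eLpNorm_exponent_top]
    apply eLpNormEssSup_le_of_ae_bound
    filter_upwards with x
    show ‖((m t x : ℂ)) - (m t' x : ℂ)‖ ≤ _
    rw [← Complex.ofReal_sub, Complex.norm_real]
    exact m_diff t t' x ht ht'
  calc _ ≤ ‖(ContinuousLinearMap.mul ℂ ℂ).holderL (volume : Measure ℝ) ∞ 2 2‖ * ‖(hm t).toLp _ - (hm t').toLp _‖ :=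
        ContinuousLinearMap.le_opNorm _ _
    _ ≤ 1 * |t - t'| := mul_le_mul h2 h3 (norm_nonneg _) zero_le_one
    _ = |t - t'| := one_mul _

lemma tau_cont (f : EE) : Continuous (fun t : ℝ => tau t f) := by
  let g : ℝ → C(ℝ, ℝ) := fun t => ⟨fun x => x - t, by fun_prop⟩
  have hg : Continuous g := by
    apply ContinuousMap.continuous_of_continuous_uncurry
    show Continuous (fun p : ℝ × ℝ => p.2 - p.1)
    fun_prop
  exact Continuous.compMeasurePreservingLp (f := fun _ => f) (g := g) continuous_const hg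
    (fun t => measurePreserving_sub_right volume t) (by norm_num)

lemma T_cont (f : EE) : ContinuousOn (fun t : ℝ => T t f) (Set.Ici 0) := by
  have h1 : ContinuousOn (fun t : ℝ => mulL (m t) (hm t)) (Set.Ici 0) := by
    rw [Metric.continuousOn_iff]
    intro t ht ε hε
    refine ⟨ε, hε, fun t' ht' h => ?_⟩
    rw [dist_eq_norm]
    refine lt_of_le_of_lt (mul_diff t' t ht' ht) ?_
    rwa [Real.dist_eq] at h
  have h2 : ContinuousOn (fun t : ℝ => mulL (m t) (hm t) (tau t (mulL ip hip f))) (Set.Ici 0) :=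
    h1.clm_apply (tau_cont (mulL ip hip f)).continuousOn
  exact h2.add continuousOn_const

/-! ### The resolvent inequality -/

lemma Re_inner (p : ℝ → ℝ) (hp : MemLp (fun x => (p x : ℂ)) ∞ (volume : Measure ℝ)) (f : EE) :
    ⟪f, mulL p hp f⟫_ℂ = ((∫ x, p x * ‖f x‖ ^ 2 : ℝ) : ℂ) := by
  rw [L2.inner_def, ← integral_complex_ofReal]
  apply integral_congr_ae
  filter_upwards [mulL_coe p hp f] with x hx
  rw [hx]
  have h1 : (p x : ℂ) * f x = (p x : ℂ) • f x := rfl
  rw [h1, inner_smul_right, inner_self_eq_norm_sq_to_K]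
  push_cast
  rfl

lemma symm_inner (p : ℝ → ℝ) (hp : MemLp (fun x => (p x : ℂ)) ∞ (volume : Measure ℝ)) (f g : EE) :
    ⟪mulL p hp f, g⟫_ℂ = ⟪f, mulL p hp g⟫_ℂ := by
  rw [L2.inner_def, L2.inner_def]
  apply integral_congr_ae
  filter_upwards [mulL_coe p hp f, mulL_coe p hp g] with x hx hy
  rw [hx, hy]
  have h1 : (p x : ℂ) * f x = (p x : ℂ) • f x := rfl
  have h2 : (p x : ℂ) * g x = (p x : ℂ) • g x := rfl
  rw [h1, h2, inner_smul_right, inner_smul_left, Complex.conj_ofReal]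

/-- the multiplier -/
noncomputable def pp (s x : ℝ) : ℝ := if x ≤ 0 then 1 else min 1 (s * (1 + x))

lemma pp_meas (s : ℝ) : Measurable (pp s) := by
  unfold pp
  apply Measurable.ite measurableSet_Iic measurable_const
  exact measurable_const.min (measurable_const.mul (measurable_const.add measurable_id))

lemma pp_nonneg (s : ℝ) (hs : 0 < s) (x : ℝ) : 0 ≤ pp s x := by
  unfold pp
  split_ifs with h
  · exact zero_le_one
  · push Not at h
    exact le_min zero_le_one (by positivity)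

lemma pp_le (s x : ℝ) : pp s x ≤ 1 := by
  unfold pp
  split_ifs
  · exact le_rfl
  · exact min_le_left _ _

lemma key_ineq (s : ℝ) (hs : 0 < s) (h : ℝ) (h0 : 0 < h) (h1 : h ≤ 1 / 2) (h2 : s * h ≤ 1 / 8) (x : ℝ) :
    h * s / 4 ≤ cc (pp s) h x - pp s x + 2 * h * s * pp s x := by
  unfold cc
  have hhs : 0 < h * s := by positivity
  rcases le_or_gt x 0 with hx | hx
  · rw [im_neg hx, ip_neg hx]
    have : pp s x = 1 := by simp [pp, hx]
    rw [this]
    nlinarith
  · rw [im_pos hx, ip_pos hx]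
    set X := 1 + x with hX
    have hX1 : 1 < X := by linarith
    have e1 : pp s x = min 1 (s * X) := by simp [pp, not_le.mpr hx, hX]
    have e2 : pp s (x + h) = min 1 (s * (X + h)) := by
      have : ¬ (x + h ≤ 0) := by linarith
      simp only [pp, this, if_false, hX]
      congr 2; ring
    have e3 : 1 - h / (2 * X) ≤ Real.exp (-(2 * (θ (x + h) - θ x))) := by
      have a := θ_step x (x + h) (by linarith)
      have b := Real.add_one_le_exp (-(2 * (θ (x + h) - θ x)))
      rw [max_eq_left hx.le, ← hX] at a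
      have c : (x + h - x) / (4 * X) = (1 / 2) * (h / (2 * X)) := by
        field_simp; ring
      rw [c] at a
      linarith
    have e4 := pp_nonneg s hs (x + h)
    have e5 := mul_le_mul_of_nonneg_left e3 e4
    rw [e2] at e5
    rw [e1, e2]
    have hsX : 0 < s * X := by positivity
    suffices hh : h * s / 4 ≤ min 1 (s * (X + h)) * (1 - h / (2 * X)) - min 1 (s * X) + 2 * h * s * min 1 (s * X) by
      linarith
    have hXpos : (0 : ℝ) < X := by linarith
    have q : h / (2 * X) * (2 * X) = h := by field_simp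
    set r := h / (2 * X) with hr
    have hr0 : 0 < r := by positivity
    rcases le_or_gt (s * (X + h)) 1 with c1 | c1
    · have c2 : s * X ≤ 1 := by nlinarith
      rw [min_eq_right c1, min_eq_right c2]
      have r1 : s * (X + h) * r = s * h / 2 + s * h * r := by
        have : s * X * r = s * h / 2 := by linear_combination (s / 2) * q
        linear_combination this
      have r2 : r ≤ 1 / 4 := by
        rw [hr, div_le_iff₀ (by positivity)]; nlinarith
      have r3 : 0 < 2 * h * s * (s * X) := by positivity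
      nlinarith
    · rcases le_or_gt (s * X) 1 with c2 | c2
      · rw [min_eq_left c1.le, min_eq_right c2]
        have r1 : 7 / 8 ≤ s * X := by nlinarith
        have r2 : r ≤ (4 / 7) * (h * s) := by
          rw [hr, div_le_iff₀ (by positivity)]
          nlinarith
        nlinarith
      · rw [min_eq_left c1.le, min_eq_left c2.le]
        have r2 : r ≤ (1 / 2) * (h * s) := by
          rw [hr, div_le_iff₀ (by positivity)]
          nlinarith
        nlinarith

lemma resolvent (x y : EE)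
    (hlim : Tendsto (fun h : ℝ => ((h : ℂ)⁻¹) • (T h x - x)) (nhdsWithin 0 (Set.Ioi 0)) (nhds y))
    (μ : ℂ) (hμ : μ.re < 0) : (1 / 8) * |μ.re| * ‖x‖ ≤ ‖μ • x - y‖ := by
  set s := -μ.re with hs
  have hs0 : 0 < s := by linarith
  rw [abs_of_neg hμ, ← hs]
  have hpb : ∀ z, |pp s z| ≤ 1 := fun z => by
    rw [abs_of_nonneg (pp_nonneg s hs0 z)]; exact pp_le s z
  have hP : MemLp (fun x => (pp s x : ℂ)) ∞ (volume : Measure ℝ) := memLp_of_bdd (pp s) (pp_meas s) 1 hpb
  set M := mulL (pp s) hP with hM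
  set Q : EE → ℝ := fun f => ∫ z, pp s z * ‖f z‖ ^ 2 with hQ
  have hMn : ∀ g : EE, ‖M g‖ ≤ ‖g‖ := by
    intro g
    have h : ‖M g‖ ^ 2 ≤ ‖g‖ ^ 2 := by
      rw [norm_sq_int, norm_sq_int]
      apply integral_mono_ae (sq_int _) (sq_int g)
      filter_upwards [mulL_coe (pp s) hP g] with z hz
      show ‖M g z‖ ^ 2 ≤ ‖g z‖ ^ 2
      rw [hM, hz, norm_mul, Complex.norm_real, Real.norm_eq_abs]
      have := hpb z
      have h3 : |pp s z| * ‖g z‖ ≤ ‖g z‖ := by nlinarith [norm_nonneg (g z)]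
      exact pow_le_pow_left₀ (by positivity) h3 2
    exact (pow_le_pow_iff_left₀ (norm_nonneg _) (norm_nonneg _) two_ne_zero).mp h
  -- inequality for finite h
  have hfin : ∀ h : ℝ, 0 < h → h ≤ 1 / 2 → s * h ≤ 1 / 8 →
      (s / 8) * ‖x‖ ^ 2 ≤ (⟪x, M (((h : ℂ)⁻¹) • (T h x - x))⟫_ℂ).re
        + (h / 2) * Q (((h : ℂ)⁻¹) • (T h x - x)) + s * Q x := by
    intro h h0 h1 h2
    obtain ⟨D, hD⟩ : ∃ D : EE, D = ((h : ℂ)⁻¹) • (T h x - x) := ⟨_, rfl⟩
    rw [← hD]
    have hT : T h x = x + (h : ℂ) • D := by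
      rw [hD, smul_smul, mul_inv_cancel₀ (by exact_mod_cast h0.ne'), one_smul]; abel
    have hQT : Q (T h x) = ∫ z, cc (pp s) h z * ‖x z‖ ^ 2 := Qform (pp s) (pp_meas s) hpb h h0.le x
    have hccb : ∀ z, |cc (pp s) h z| ≤ 1 := by
      intro z
      unfold cc
      rcases le_or_gt z 0 with hz | hz
      · rw [im_neg hz, ip_neg hz]; simpa using hpb z
      · rw [im_pos hz, ip_pos hz]
        simp only [zero_mul, one_mul, zero_add, abs_mul, Real.abs_exp]
        have e1 : Real.exp (-(2 * (θ (z + h) - θ z))) ≤ 1 := by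
          apply Real.exp_le_one_iff.mpr
          have := θ_mono (show z ≤ z + h by linarith)
          linarith
        have := mul_le_mul (hpb (z + h)) e1 (Real.exp_pos _).le zero_le_one
        simpa using this
    have hint : (h * s / 4) * ‖x‖ ^ 2 ≤ Q (T h x) - Q x + 2 * h * s * Q x := by
      rw [hQT, norm_sq_int, ← integral_const_mul]
      have i1 := bdd_int (cc (pp s) h) (cc_meas (pp s) (pp_meas s) h) 1 hccb x
      have i2 := bdd_int (pp s) (pp_meas s) 1 hpb x
      have split : ∫ z, ((cc (pp s) h z * ‖x z‖ ^ 2 - pp s z * ‖x z‖ ^ 2) + 2 * h * s * (pp s z * ‖x z‖ ^ 2))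
          = (∫ z, cc (pp s) h z * ‖x z‖ ^ 2) - (∫ z, pp s z * ‖x z‖ ^ 2) + 2 * h * s * ∫ z, pp s z * ‖x z‖ ^ 2 := by
        rw [integral_add (f := fun z => cc (pp s) h z * ‖x z‖ ^ 2 - pp s z * ‖x z‖ ^ 2) (i1.sub i2) (i2.const_mul _),
          integral_sub i1 i2, integral_const_mul]
      rw [hQ]
      show _ ≤ (∫ z, cc (pp s) h z * ‖x z‖ ^ 2) - (∫ z, pp s z * ‖x z‖ ^ 2) + 2 * h * s * ∫ z, pp s z * ‖x z‖ ^ 2
      rw [← split]
      apply integral_mono ((sq_int x).const_mul _) ((i1.sub i2).add (i2.const_mul _))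
      intro z
      have := key_ineq s hs0 h h0 h1 h2 z
      have h3 : 0 ≤ ‖x z‖ ^ 2 := by positivity
      show h * s / 4 * ‖x z‖ ^ 2 ≤ cc (pp s) h z * ‖x z‖ ^ 2 - pp s z * ‖x z‖ ^ 2 + 2 * h * s * (pp s z * ‖x z‖ ^ 2)
      nlinarith
    have hexp : Q (T h x) = Q x + 2 * h * (⟪x, M D⟫_ℂ).re + h ^ 2 * Q D := by
      have a1 : ((Q (T h x) : ℝ) : ℂ) = ⟪T h x, M (T h x)⟫_ℂ := (Re_inner (pp s) hP (T h x)).symm
      have a2 : ((Q x : ℝ) : ℂ) = ⟪x, M x⟫_ℂ := (Re_inner (pp s) hP x).symm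
      have a3 : ((Q D : ℝ) : ℂ) = ⟪D, M D⟫_ℂ := (Re_inner (pp s) hP D).symm
      have a4 : ⟪D, M x⟫_ℂ = starRingEnd ℂ ⟪x, M D⟫_ℂ := by
        rw [inner_conj_symm, hM, symm_inner]
      rw [hT, map_add, map_smul, inner_add_left, inner_add_right, inner_add_right, inner_smul_left,
        inner_smul_left, inner_smul_right, inner_smul_right, Complex.conj_ofReal, ← a2, ← a3, a4] at a1
      have a5 := congrArg Complex.re a1
      rw [← hT] at a5
      simp only [Complex.ofReal_re, Complex.add_re, Complex.mul_re, Complex.ofReal_im, zero_mul,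
        sub_zero, Complex.conj_re, mul_zero, Complex.mul_im, add_zero] at a5
      rw [a5]; ring
    rw [hexp] at hint
    have h3 : h * ((s / 8) * ‖x‖ ^ 2) * 2 ≤ h * ((⟪x, M D⟫_ℂ).re + (h / 2) * Q D + s * Q x) * 2 := by
      nlinarith
    have h4 : h * ((s / 8) * ‖x‖ ^ 2) ≤ h * ((⟪x, M D⟫_ℂ).re + (h / 2) * Q D + s * Q x) := by linarith
    exact le_of_mul_le_mul_left h4 h0
  -- limit
  have hQeq : ∀ f : EE, Q f = (⟪f, M f⟫_ℂ).re := by
    intro f
    rw [hM, Re_inner, Complex.ofReal_re]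
  have hl1 : Tendsto (fun h : ℝ => (⟪x, M (((h : ℂ)⁻¹) • (T h x - x))⟫_ℂ).re) (nhdsWithin 0 (Set.Ioi 0))
      (nhds (⟪x, M y⟫_ℂ).re) := by
    have hc : Continuous (fun D : EE => (⟪x, M D⟫_ℂ).re) :=
      Complex.continuous_re.comp (continuous_const.inner M.continuous)
    exact (hc.tendsto y).comp hlim
  have hl2 : Tendsto (fun h : ℝ => (h / 2) * Q (((h : ℂ)⁻¹) • (T h x - x))) (nhdsWithin 0 (Set.Ioi 0))
      (nhds (0 * Q y)) := by
    have hc : Continuous (fun D : EE => Q D) := by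
      have : (fun D : EE => Q D) = fun D : EE => (⟪D, M D⟫_ℂ).re := funext hQeq
      rw [this]
      exact Complex.continuous_re.comp (continuous_id.inner M.continuous)
    apply Tendsto.mul
    · have : Tendsto (fun h : ℝ => h / 2) (nhds 0) (nhds (0 / 2)) := (continuous_id.div_const 2).tendsto 0
      rw [zero_div] at this
      exact this.mono_left nhdsWithin_le_nhds
    · exact (hc.tendsto y).comp hlim
  have hl3 := (hl1.add hl2).add_const (s * Q x)
  have hev : ∀ᶠ h : ℝ in nhdsWithin 0 (Set.Ioi 0), (s / 8) * ‖x‖ ^ 2 ≤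
      (⟪x, M (((h : ℂ)⁻¹) • (T h x - x))⟫_ℂ).re
        + (h / 2) * Q (((h : ℂ)⁻¹) • (T h x - x)) + s * Q x := by
    have e1 : ∀ᶠ h : ℝ in nhdsWithin 0 (Set.Ioi 0), h ∈ Set.Ioo (0 : ℝ) (min (1 / 2) (1 / (8 * s))) :=
      Ioo_mem_nhdsGT (lt_min (by norm_num) (by positivity))
    filter_upwards [e1] with h hh
    apply hfin h hh.1
    · exact (hh.2.le.trans (min_le_left _ _))
    · have h3 : h ≤ 1 / (8 * s) := hh.2.le.trans (min_le_right _ _)
      rw [le_div_iff₀ (by positivity)] at h3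
      linarith
  have hfinal := ge_of_tendsto hl3 hev
  rw [zero_mul, add_zero] at hfinal
  -- conclude
  have h5 : (⟪x, M (μ • x - y)⟫_ℂ).re = -(s * Q x) - (⟪x, M y⟫_ℂ).re := by
    rw [map_sub, map_smul, inner_sub_right, inner_smul_right, Complex.sub_re]
    have : ⟪x, M x⟫_ℂ = ((Q x : ℝ) : ℂ) := Re_inner (pp s) hP x
    rw [this, Complex.mul_re, Complex.ofReal_re, Complex.ofReal_im, mul_zero, sub_zero, hs]
    ring
  have h6 : (s / 8) * ‖x‖ ^ 2 ≤ ‖x‖ * ‖μ • x - y‖ := by
    have h7 : |(⟪x, M (μ • x - y)⟫_ℂ).re| ≤ ‖x‖ * ‖μ • x - y‖ := by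
      calc _ ≤ ‖⟪x, M (μ • x - y)⟫_ℂ‖ := Complex.abs_re_le_norm _
        _ ≤ ‖x‖ * ‖M (μ • x - y)‖ := norm_inner_le_norm _ _
        _ ≤ ‖x‖ * ‖μ • x - y‖ := mul_le_mul_of_nonneg_left (hMn _) (norm_nonneg _)
    have h8 := neg_abs_le (⟪x, M (μ • x - y)⟫_ℂ).re
    linarith
  rcases (norm_nonneg x).eq_or_lt with h9 | h9
  · rw [← h9, mul_zero]; exact norm_nonneg _
  · have h10 : ‖x‖ * (1 / 8 * s * ‖x‖) ≤ ‖x‖ * ‖μ • x - y‖ := by nlinarith
    exact le_of_mul_le_mul_left h10 h9

/-! ### Decay -/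

lemma θ_tendsto : Tendsto θ atTop atTop := by
  have h1 : Tendsto (fun x : ℝ => (1 / 4) * Real.log (1 + x)) atTop atTop := by
    apply Tendsto.const_mul_atTop (by norm_num)
    exact Real.tendsto_log_atTop.comp (tendsto_atTop_add_const_left _ 1 tendsto_id)
  refine h1.congr' ?_
  filter_upwards [eventually_ge_atTop 0] with x hx
  unfold θ
  rw [max_eq_left hx]

noncomputable def f0 : EE := indicatorConstLp 2 (measurableSet_Ioc (a := (0 : ℝ)) (b := 1)) (by simp) (1 : ℂ)

lemma f0_norm : ‖f0‖ = 1 := by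
  unfold f0
  rw [norm_indicatorConstLp (by norm_num) (by norm_num)]
  simp

lemma f0_decay (t : ℝ) (ht : 1 ≤ t) : ‖T t f0‖ ^ 2 ≤ Real.exp (-(2 * (θ t - θ 1))) := by
  rw [T_norm_sq t (by linarith)]
  have h1 : ∫ x, cc 1 t x * ‖f0 x‖ ^ 2 ≤ ∫ x, Real.exp (-(2 * (θ t - θ 1))) * ‖f0 x‖ ^ 2 := by
    apply integral_mono_ae (bdd_int _ (cc_meas 1 measurable_one t) 1 (fun x => cc_one_le t x (by linarith)) f0)
      ((sq_int f0).const_mul _)
    have h2 := indicatorConstLp_coeFn (p := 2) (hs := measurableSet_Ioc (a := (0 : ℝ)) (b := 1)) (hμs := (by simp : volume (Set.Ioc (0 : ℝ) 1) ≠ ∞)) (c := (1 : ℂ))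
    filter_upwards [h2] with x hx
    show cc 1 t x * ‖f0 x‖ ^ 2 ≤ Real.exp (-(2 * (θ t - θ 1))) * ‖f0 x‖ ^ 2
    by_cases hm : x ∈ Set.Ioc (0 : ℝ) 1
    · apply mul_le_mul_of_nonneg_right _ (by positivity)
      unfold cc
      rw [im_pos hm.1, ip_pos hm.1]
      simp only [Pi.one_apply, zero_mul, one_mul, zero_add]
      apply Real.exp_le_exp.mpr
      have a1 := θ_mono (show t ≤ x + t by linarith [hm.1])
      have a2 := θ_mono hm.2
      linarith
    · have : f0 x = 0 := by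
        unfold f0
        rw [hx, Set.indicator_of_notMem hm]
      rw [this]; simp
  refine h1.trans ?_
  rw [integral_const_mul, ← norm_sq_int, f0_norm]
  simp

/-- The negation of the preceding statement: Take a strongly continuous contraction semigroup on a complex Hilbert space with generator A, and some m>0 with ‖(μ−A)x‖ ≥ m∣Re μ∣‖x‖ for all x in D(A) and Re μ<0. Then some m₁>0 gives ‖T(t)x‖ ≥ m₁‖x‖ for all t≥0 and all x. -/
theorem result :
    ¬ (∀ (H : Type) [NormedAddCommGroup H] [InnerProductSpace ℂ H] [CompleteSpace H]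
      (T : ℝ → H →L[ℂ] H),
      T 0 = ContinuousLinearMap.id ℂ H →
      (∀ s t : ℝ, 0 ≤ s → 0 ≤ t → T (s + t) = (T s).comp (T t)) →
      (∀ x : H, ContinuousOn (fun t : ℝ => T t x) (Set.Ici 0)) →
      (∀ t : ℝ, 0 ≤ t → ‖T t‖ ≤ 1) →
      ∀ m : ℝ, 0 < m →
      (∀ x y : H,
        Filter.Tendsto (fun h : ℝ => ((h : ℂ)⁻¹) • (T h x - x))
          (nhdsWithin 0 (Set.Ioi 0)) (nhds y) →
        ∀ μ : ℂ, μ.re < 0 → m * |μ.re| * ‖x‖ ≤ ‖μ • x - y‖) →
      ∃ m₁ : ℝ, 0 < m₁ ∧ ∀ t : ℝ, 0 ≤ t → ∀ x : H, m₁ * ‖x‖ ≤ ‖T t x‖) := by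
  intro H
  obtain ⟨m₁, hm1, hlow⟩ := H EE T T_zero T_add T_cont T_contr (1 / 8) (by norm_num) resolvent
  have h1 : Tendsto (fun t : ℝ => Real.exp (-(2 * (θ t - θ 1)))) atTop (nhds 0) := by
    apply Real.tendsto_exp_neg_atTop_nhds_zero.comp
    apply Tendsto.const_mul_atTop (by norm_num)
    exact tendsto_atTop_add_const_right _ _ θ_tendsto
  have h2 := h1.eventually (gt_mem_nhds (show (0 : ℝ) < m₁ ^ 2 by positivity))
  obtain ⟨t, ht1, ht2⟩ := (h2.and (eventually_ge_atTop 1)).exists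
  have h3 := hlow t (by linarith) f0
  rw [f0_norm, mul_one] at h3
  have h4 := f0_decay t ht2
  have h5 : m₁ ^ 2 ≤ ‖T t f0‖ ^ 2 := pow_le_pow_left₀ hm1.le h3 2
  linarith

end Pool.Agent.S1578
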