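import Pool.Statements.S1584
import Mathlib

set_option autoImplicit false
open Filter Topology
open Pool Pool.MP_8ba4a6_an

namespace Pool.Agent.S1584

/-- the counterexample `f(x,y) = exp(-(log y)^3)/x` -/
noncomputable def ff (x y : ℝ) : ℝ := x⁻¹ * Real.exp (-(Real.log y) ^ 3)

lemma pos_of (x : ℕ → ℝ) (h0 : 0 < x 0) (h1 : 0 < x 1)
    (h : ∀ n : ℕ, x (n + 2) = x (n + 1) * ff (x (n + 1)) (x n)) : ∀ n, 0 < x n ∧ 0 < x (n + 1) := by
  intro n
  induction n with
  | zero => exact ⟨h0, h1⟩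
  | succ n ih =>
    refine ⟨ih.2, ?_⟩
    rw [h n]
    have : 0 < (x (n + 1))⁻¹ := inv_pos.mpr ih.2
    unfold ff
    have := ih.2
    positivity

lemma log_rec (x : ℕ → ℝ) (h0 : 0 < x 0) (h1 : 0 < x 1)
    (h : ∀ n : ℕ, x (n + 2) = x (n + 1) * ff (x (n + 1)) (x n)) (n : ℕ) :
    Real.log (x (n + 2)) = -(Real.log (x n)) ^ 3 := by
  have hp := pos_of x h0 h1 h n
  rw [h n]
  unfold ff
  rw [← mul_assoc, mul_inv_cancel₀ hp.2.ne', one_mul, Real.log_exp]

lemma cube_le {u η : ℝ} (h : |u| < η) (hη : η ≤ 1) : |-(u ^ 3)| < η := by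
  rw [abs_neg, abs_pow]
  have h0 := abs_nonneg u
  have h1 : |u| ^ 3 ≤ |u| := by
    have : |u| ^ 2 ≤ 1 := by nlinarith
    nlinarith
  linarith

lemma bound_of (x : ℕ → ℝ) (h0 : 0 < x 0) (h1 : 0 < x 1)
    (h : ∀ n : ℕ, x (n + 2) = x (n + 1) * ff (x (n + 1)) (x n)) {η : ℝ} (hη : η ≤ 1)
    (a0 : |Real.log (x 0)| < η) (a1 : |Real.log (x 1)| < η) :
    ∀ n, |Real.log (x n)| < η ∧ |Real.log (x (n + 1))| < η := by
  intro n
  induction n with
  | zero => exact ⟨a0, a1⟩
  | succ n ih =>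
    refine ⟨ih.2, ?_⟩
    rw [log_rec x h0 h1 h n]
    exact cube_le ih.1 hη

lemma exists_log (η : ℝ) (hη : 0 < η) : ∃ δ : ℝ, 0 < δ ∧ ∀ z : ℝ, |z - 1| < δ → |Real.log z| < η := by
  have h := Real.continuousAt_log (one_ne_zero : (1 : ℝ) ≠ 0)
  rw [Metric.continuousAt_iff] at h
  obtain ⟨δ, hδ, h2⟩ := h η hη
  refine ⟨δ, hδ, fun z hz => ?_⟩
  have := h2 (x := z) (by rwa [Real.dist_eq])
  rwa [Real.dist_eq, Real.log_one, sub_zero] at this

/-- The negation of the preceding statement: If f>0 is continuous on the positive quadrant, nonincreasing in x, strictly decreasing in y, x·f(x,x) strictly decreasing, and the unique positive equilibrium of x_{n+1}=x_n f(x_n,x_{n-1}) is locally asymptotically stable, then every positive solution converges to it. -/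
theorem result :
    ¬ (∀ (f : ℝ → ℝ → ℝ) (xbar : ℝ),
      ContinuousOn (fun p : ℝ × ℝ => f p.1 p.2) (Set.Ioi (0:ℝ) ×ˢ Set.Ioi (0:ℝ)) →
      (∀ x y : ℝ, 0 < x → 0 < y → 0 < f x y) →
      (∀ x₁ x₂ y : ℝ, 0 < x₁ → x₁ ≤ x₂ → 0 < y → f x₂ y ≤ f x₁ y) →
      (∀ x y₁ y₂ : ℝ, 0 < x → 0 < y₁ → y₁ < y₂ → f x y₂ < f x y₁) →
      (∀ x₁ x₂ : ℝ, 0 < x₁ → x₁ < x₂ → x₂ * f x₂ x₂ < x₁ * f x₁ x₁) →
      0 < xbar →
      f xbar xbar = 1 →
      (∀ y : ℝ, 0 < y → f y y = 1 → y = xbar) →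
      (∀ ε : ℝ, 0 < ε → ∃ δ : ℝ, 0 < δ ∧
        ∀ x : ℕ → ℝ, 0 < x 0 → 0 < x 1 →
          (∀ n : ℕ, x (n + 2) = x (n + 1) * f (x (n + 1)) (x n)) →
          |x 0 - xbar| + |x 1 - xbar| < δ →
          ∀ n : ℕ, |x n - xbar| < ε) →
      (∃ γ : ℝ, 0 < γ ∧
        ∀ x : ℕ → ℝ, 0 < x 0 → 0 < x 1 →
          (∀ n : ℕ, x (n + 2) = x (n + 1) * f (x (n + 1)) (x n)) →
          |x 0 - xbar| + |x 1 - xbar| < γ →
          Tendsto x atTop (𝓝 xbar)) →
      ∀ x : ℕ → ℝ, 0 < x 0 → 0 < x 1 →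
        (∀ n : ℕ, x (n + 2) = x (n + 1) * f (x (n + 1)) (x n)) →
        Tendsto x atTop (𝓝 xbar)) := by
  intro H
  have hlogmono : ∀ a b : ℝ, 0 < a → a < b → (Real.log a) ^ 3 < (Real.log b) ^ 3 := by
    intro a b ha hab
    have h := Real.log_lt_log ha hab
    exact Odd.strictMono_pow (by decide : Odd 3) h
  have key := H ff 1 ?_ ?_ ?_ ?_ ?_ one_pos ?_ ?_ ?_ ?_
  · -- the periodic solution
    have h4 : ∀ n : ℕ, (((-1 : ℝ) ^ (n / 2)) = 1 ∨ ((-1 : ℝ) ^ (n / 2)) = -1) := fun n =>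
      neg_one_pow_eq_or ℝ (n / 2)
    have hx := key (fun n => Real.exp ((-1) ^ (n / 2))) (Real.exp_pos _) (Real.exp_pos _) ?_
    · have h5 : Tendsto (fun n : ℕ => Real.log (Real.exp ((-1 : ℝ) ^ (n / 2)))) atTop (𝓝 (Real.log 1)) :=
        (Real.continuousAt_log one_ne_zero).tendsto.comp hx
      rw [Real.log_one] at h5
      have h6 := h5.abs
      simp only [Real.log_exp, abs_pow, abs_neg, abs_one, one_pow, abs_zero] at h6
      have := tendsto_nhds_unique h6 tendsto_const_nhds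
      norm_num at this
    · intro n
      show Real.exp _ = _
      unfold ff
      rw [← mul_assoc, mul_inv_cancel₀ (Real.exp_pos _).ne', one_mul, Real.log_exp]
      congr 1
      have : (n + 2) / 2 = n / 2 + 1 := by omega
      rw [this, pow_succ]
      rcases h4 n with h | h <;> rw [h] <;> norm_num
  · -- continuity
    unfold ff
    apply ContinuousOn.mul
    · apply ContinuousOn.inv₀ continuousOn_fst
      intro p hp
      exact (Set.mem_prod.mp hp).1.ne'
    · apply Real.continuous_exp.comp_continuousOn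
      apply ContinuousOn.neg
      apply ContinuousOn.pow
      apply ContinuousOn.log continuousOn_snd
      intro p hp
      exact (Set.mem_prod.mp hp).2.ne'
  · intro x y hx hy
    unfold ff
    positivity
  · intro x₁ x₂ y h1 h12 hy
    unfold ff
    apply mul_le_mul_of_nonneg_right _ (Real.exp_pos _).le
    exact inv_anti₀ h1 h12
  · intro x y₁ y₂ hx h1 h12
    unfold ff
    apply mul_lt_mul_of_pos_left _ (inv_pos.mpr hx)
    apply Real.exp_lt_exp.mpr
    have := hlogmono y₁ y₂ h1 h12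
    linarith
  · intro x₁ x₂ h1 h12
    unfold ff
    have h2 : 0 < x₂ := h1.trans h12
    rw [← mul_assoc, mul_inv_cancel₀ h2.ne', one_mul, ← mul_assoc, mul_inv_cancel₀ h1.ne', one_mul]
    apply Real.exp_lt_exp.mpr
    have := hlogmono x₁ x₂ h1 h12
    linarith
  · simp [ff]
  · intro y hy h
    unfold ff at h
    have h2 := congrArg Real.log h
    rw [Real.log_mul (inv_ne_zero hy.ne') (Real.exp_pos _).ne', Real.log_inv, Real.log_exp, Real.log_one] at h2
    have h3 : Real.log y * (1 + (Real.log y) ^ 2) = 0 := by linarith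
    have h4 : Real.log y = 0 := by
      rcases mul_eq_zero.mp h3 with h5 | h5
      · exact h5
      · nlinarith [sq_nonneg (Real.log y)]
    exact Real.eq_one_of_pos_of_log_eq_zero hy h4
  · -- stability
    intro ε hε
    have hc := Real.continuous_exp.continuousAt (x := (0 : ℝ))
    rw [Metric.continuousAt_iff] at hc
    obtain ⟨η, hη, h2⟩ := hc ε hε
    obtain ⟨δ, hδ, h3⟩ := exists_log (min η 1) (lt_min hη one_pos)
    refine ⟨δ, hδ, fun x h0 h1 hrec hd n => ?_⟩
    have a0 : |Real.log (x 0)| < min η 1 := h3 _ (by have := abs_nonneg (x 1 - 1); linarith)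
    have a1 : |Real.log (x 1)| < min η 1 := h3 _ (by have := abs_nonneg (x 0 - 1); linarith)
    have b := (bound_of x h0 h1 hrec (min_le_right _ _) a0 a1 n).1
    have c := h2 (x := Real.log (x n)) (by rw [Real.dist_eq, sub_zero]; exact lt_of_lt_of_le b (min_le_left _ _))
    rwa [Real.dist_eq, Real.exp_zero, Real.exp_log (pos_of x h0 h1 hrec n).1] at c
  · -- attractivity
    obtain ⟨δ, hδ, h3⟩ := exists_log (1 / 2) (by norm_num)
    refine ⟨δ, hδ, fun x h0 h1 hrec hd => ?_⟩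
    have a0 : |Real.log (x 0)| < 1 / 2 := h3 _ (by have := abs_nonneg (x 1 - 1); linarith)
    have a1 : |Real.log (x 1)| < 1 / 2 := h3 _ (by have := abs_nonneg (x 0 - 1); linarith)
    have b := bound_of x h0 h1 hrec (by norm_num) a0 a1
    have c : ∀ n, |Real.log (x n)| ≤ (1 / 2) ^ n ∧ |Real.log (x (n + 1))| ≤ (1 / 2) ^ (n + 1) := by
      intro n
      induction n with
      | zero => exact ⟨by simpa using (a0.le.trans (by norm_num)), by simpa using a1.le⟩
      | succ n ih =>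
        refine ⟨ih.2, ?_⟩
        rw [log_rec x h0 h1 hrec n, abs_neg, abs_pow]
        have h5 := (b n).1
        have h6 := abs_nonneg (Real.log (x n))
        have h7 : |Real.log (x n)| ^ 2 ≤ 1 / 4 := by nlinarith
        calc |Real.log (x n)| ^ 3 = |Real.log (x n)| ^ 2 * |Real.log (x n)| := by ring
          _ ≤ 1 / 4 * (1 / 2) ^ n := mul_le_mul h7 ih.1 h6 (by norm_num)
          _ = (1 / 2) ^ (n + 1 + 1) := by rw [pow_succ, pow_succ]; ring
    have d : Tendsto (fun n => Real.log (x n)) atTop (𝓝 0) := by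
      apply squeeze_zero_norm (a := fun n => (1 / 2 : ℝ) ^ n)
      · intro n; rw [Real.norm_eq_abs]; exact (c n).1
      · exact tendsto_pow_atTop_nhds_zero_of_lt_one (by norm_num) (by norm_num)
    have e := (Real.continuous_exp.tendsto 0).comp d
    rw [Real.exp_zero] at e
    refine e.congr (fun n => ?_)
    exact Real.exp_log (pos_of x h0 h1 hrec n).1

end Pool.Agent.S1584
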