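import Pool.Statements.S1678
import Mathlib

set_option autoImplicit false
open scoped ComplexOrder
open Pool Pool.MP_a946bc_an

namespace Pool.Agent.S1678

open Matrix Polynomial in
theorem charpoly_diag (d : Fin 4 → ℂ) :
    (Matrix.diagonal d).charpoly = ∏ i, (X - C (d i)) := by
  have := Matrix.charpoly_of_upperTriangular (Matrix.diagonal d)
    (Matrix.blockTriangular_diagonal d)
  rw [this]
  simp

open Polynomial in
theorem eig_sum (d : Fin 4 → ℝ) (M : Matrix (Fin 4) (Fin 4) ℂ)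
    (hM : M = Matrix.diagonal (fun i => (d i : ℂ))) (h : M.IsHermitian) (p : ℝ) :
    ∑ i, (h.eigenvalues i) ^ p = ∑ i, (d i) ^ p := by
  have h1 := h.roots_charpoly_eq_eigenvalues
  have h2 : M.charpoly.roots = Multiset.map (fun i => (d i : ℂ)) Finset.univ.val := by
    rw [hM, charpoly_diag]
    rw [Polynomial.roots_prod]
    · simp [Multiset.bind_singleton]
    · exact Finset.prod_ne_zero_iff.mpr (fun i _ => X_sub_C_ne_zero _)
  rw [h2] at h1
  have h3 : Multiset.map h.eigenvalues Finset.univ.val = Multiset.map d Finset.univ.val := by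
    have hinj : Function.Injective (Multiset.map (fun x : ℝ => (x : ℂ))) :=
      Multiset.map_injective Complex.ofReal_injective
    apply hinj
    rw [Multiset.map_map, Multiset.map_map]
    exact h1.symm
  have h4 := congrArg (fun s => (Multiset.map (fun x : ℝ => x ^ p) s).sum) h3
  simp only [Multiset.map_map] at h4
  exact h4

theorem prod_diag (f g : Fin 4 → ℂ) (s : List Bool) :
    (s.map (fun b => cond b (Matrix.diagonal f) (Matrix.diagonal g))).prod
      = Matrix.diagonal (fun i => f i ^ (s.count true) * g i ^ (s.count false)) := by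
  induction s with
  | nil => simp
  | cons b s ih =>
    rw [List.map_cons, List.prod_cons, ih]
    cases b
    · simp only [cond_false, Matrix.diagonal_mul_diagonal]
      congr 1
      ext i
      simp [List.count_cons]
      ring
    · simp only [cond_true, Matrix.diagonal_mul_diagonal]
      congr 1
      ext i
      simp [List.count_cons]
      ring

theorem key_ineq (j k : ℕ) :
    (0:ℝ) ^ j * 0 ^ k + 1 + 2 ^ j + 2 ^ k ≤ 0 ^ k + 0 ^ j + 1 + 2 ^ j * 2 ^ k := by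
  rcases Nat.eq_zero_or_pos j with rfl | hj
  · rcases Nat.eq_zero_or_pos k with rfl | hk
    · norm_num
    · have : (0:ℝ) ^ k = 0 := zero_pow hk.ne'
      rw [this]; simp
  · rcases Nat.eq_zero_or_pos k with rfl | hk
    · have : (0:ℝ) ^ j = 0 := zero_pow hj.ne'
      rw [this]; simp; linarith
    · have h1 : (0:ℝ) ^ k = 0 := zero_pow hk.ne'
      have h2 : (0:ℝ) ^ j = 0 := zero_pow hj.ne'
      have h3 : (2:ℝ) ≤ 2 ^ j := by
        calc (2:ℝ) = 2 ^ 1 := by norm_num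
          _ ≤ 2 ^ j := pow_le_pow_right₀ (by norm_num) hj
      have h4 : (2:ℝ) ≤ 2 ^ k := by
        calc (2:ℝ) = 2 ^ 1 := by norm_num
          _ ≤ 2 ^ k := pow_le_pow_right₀ (by norm_num) hk
      rw [h1, h2]
      nlinarith

/-- The negation of the preceding statement: For PSD complex n×n matrices with A₀,B₀ isospectral and A₁,B₁ isospectral, if every word trace in A is real and at least the modulus of the matching word trace in B, then for all p≥1 the sum of p-th powers of eigenvalues of A₀+A₁ is at least that of B₀+B₁. -/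
theorem result :
    ¬ (∀ (n : ℕ) (A₀ A₁ B₀ B₁ : Matrix (Fin n) (Fin n) ℂ)
      (hA₀ : A₀.PosSemidef) (hA₁ : A₁.PosSemidef)
      (hB₀ : B₀.PosSemidef) (hB₁ : B₁.PosSemidef),
      A₀.charpoly = B₀.charpoly →
      A₁.charpoly = B₁.charpoly →
      (∀ s : List Bool,
        ((‖((s.map (fun b => cond b B₁ B₀)).prod).trace‖ : ℝ) : ℂ) ≤
          ((s.map (fun b => cond b A₁ A₀)).prod).trace) →
      ∀ p : ℝ, 1 ≤ p →
        ∑ i, ((hB₀.add hB₁).isHermitian.eigenvalues i) ^ p ≤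
          ∑ i, ((hA₀.add hA₁).isHermitian.eigenvalues i) ^ p) := by
  intro H
  have hpsd : ∀ d : Fin 4 → ℂ, (∀ i, 0 ≤ d i) → (Matrix.diagonal d).PosSemidef :=
    fun d hd => Matrix.PosSemidef.diagonal hd
  have hA₀ : (Matrix.diagonal (![0, 1, 1, 2] : Fin 4 → ℂ)).PosSemidef := by
    apply hpsd; intro i; fin_cases i <;> simp
  have hA₁ : (Matrix.diagonal (![1, 0, 1, 2] : Fin 4 → ℂ)).PosSemidef := by
    apply hpsd; intro i; fin_cases i <;> simp
  have hB₁ : (Matrix.diagonal (![0, 1, 2, 1] : Fin 4 → ℂ)).PosSemidef := by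
    apply hpsd; intro i; fin_cases i <;> simp
  have h := H 4 _ _ _ _ hA₀ hA₁ hA₀ hB₁ rfl (by
    rw [charpoly_diag, charpoly_diag]
    simp only [Fin.prod_univ_four]
    simp
    ring) (by
    intro s
    rw [prod_diag, prod_diag]
    simp only [Matrix.trace_diagonal, Fin.sum_univ_four]
    set j := s.count true with hj
    set k := s.count false with hk
    have hk1 := key_ineq j k
    have e1 : (![0, 1, 2, 1] : Fin 4 → ℂ) 0 ^ j * (![0, 1, 1, 2] : Fin 4 → ℂ) 0 ^ k +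
        (![0, 1, 2, 1] : Fin 4 → ℂ) 1 ^ j * (![0, 1, 1, 2] : Fin 4 → ℂ) 1 ^ k +
        (![0, 1, 2, 1] : Fin 4 → ℂ) 2 ^ j * (![0, 1, 1, 2] : Fin 4 → ℂ) 2 ^ k +
        (![0, 1, 2, 1] : Fin 4 → ℂ) 3 ^ j * (![0, 1, 1, 2] : Fin 4 → ℂ) 3 ^ k
        = (((0:ℝ) ^ j * 0 ^ k + 1 + 2 ^ j + 2 ^ k : ℝ) : ℂ) := by
      simp
    have e2 : (![1, 0, 1, 2] : Fin 4 → ℂ) 0 ^ j * (![0, 1, 1, 2] : Fin 4 → ℂ) 0 ^ k +
        (![1, 0, 1, 2] : Fin 4 → ℂ) 1 ^ j * (![0, 1, 1, 2] : Fin 4 → ℂ) 1 ^ k +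
        (![1, 0, 1, 2] : Fin 4 → ℂ) 2 ^ j * (![0, 1, 1, 2] : Fin 4 → ℂ) 2 ^ k +
        (![1, 0, 1, 2] : Fin 4 → ℂ) 3 ^ j * (![0, 1, 1, 2] : Fin 4 → ℂ) 3 ^ k
        = (((0:ℝ) ^ k + 0 ^ j + 1 + 2 ^ j * 2 ^ k : ℝ) : ℂ) := by
      simp
    rw [e1, e2]
    rw [Complex.norm_real, Real.norm_of_nonneg (by positivity)]
    exact_mod_cast hk1) (3/2) (by norm_num)
  rw [eig_sum ![0, 2, 3, 3] _ (by
      rw [Matrix.diagonal_add]
      congr 1
      ext i
      fin_cases i <;> norm_num [Matrix.cons_val_zero] ),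
    eig_sum ![1, 1, 2, 4] _ (by
      rw [Matrix.diagonal_add]
      congr 1
      ext i
      fin_cases i <;> norm_num)] at h
  simp only [Fin.sum_univ_four] at h
  have h0 : ((0:ℝ)) ^ ((3:ℝ)/2) = 0 := Real.zero_rpow (by norm_num)
  have h4 : ((4:ℝ)) ^ ((3:ℝ)/2) = 8 := by
    have e : (4:ℝ) = 2 ^ (2:ℝ) := by norm_num
    rw [e, ← Real.rpow_mul (by norm_num)]
    norm_num
  have h3 : ((3:ℝ) ^ ((3:ℝ)/2)) ^ 2 = 27 := by
    rw [← Real.rpow_natCast, ← Real.rpow_mul (by norm_num)]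
    norm_num
  have h3p : 0 ≤ (3:ℝ) ^ ((3:ℝ)/2) := by positivity
  have h' : (0:ℝ) ^ ((3:ℝ)/2) + 2 ^ ((3:ℝ)/2) + 3 ^ ((3:ℝ)/2) + 3 ^ ((3:ℝ)/2)
      ≤ 1 ^ ((3:ℝ)/2) + 1 ^ ((3:ℝ)/2) + 2 ^ ((3:ℝ)/2) + 4 ^ ((3:ℝ)/2) := h
  rw [h0, h4, Real.one_rpow] at h'
  nlinarith

end Pool.Agent.S1678
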