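import Pool.Statements.S1789
import Mathlib
import Pool.Agent.D393fc.Prod

set_option autoImplicit false
open Pool Pool.MP_d393fc_an

namespace Pool.Agent.S1789

open Filter Topology Set Pool.Agent.D393fc in
lemma aux (ω : ℝ → ℝ) (h : Wt ω) {R : ℝ} (hR : 0 < R) (hd : ∀ x : ℝ, R < x → DifferentiableAt ℝ ω x)
    (hs : AntitoneOn (fun x : ℝ => x * deriv ω x / ω x) (Ioi R))
    (a : ℕ → ℂ) (ha : ∀ k, 0 < ‖a k‖) (hmono : ∀ k, ‖a k‖ ≤ ‖a (k + 1)‖)
    (hsum : Summable (fun k : ℕ => ∫ x in Ioi ‖a k‖, ω x / x))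
    (K : Set ℂ) (hK : IsCompact K) (haK : ∀ k, a k ∉ K) :
    ∃ g : ℂ → ℂ, TendstoUniformlyOn (fun (n : ℕ) (w : ℂ) => ∏ k ∈ Finset.range n, Fac ω (a k) w) g atTop K ∧
      ∀ w ∈ K, g w ≠ 0 := by
  obtain ⟨ρ', hρ'⟩ := hK.isBounded.subset_closedBall 0
  set ρ : ℝ := max ρ' 0 with hρd
  have hρ : 0 ≤ ρ := le_max_right _ _
  have hKρ : ∀ w ∈ K, ‖w‖ ≤ ρ := by
    intro w hw
    have := hρ' hw
    rw [mem_closedBall_zero_iff] at this
    exact this.trans (le_max_left _ _)
  set r₀ : ℝ := 2 * ρ + R + 1 with hr₀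
  have hr₀R : R < r₀ := by rw [hr₀]; linarith
  have hr₀0 : 0 < r₀ := hR.trans hr₀R
  set L : ℕ → ℝ := fun k => ∫ x in Ioi ‖a k‖, ω x / x with hL
  have hLpos : ∀ k, 0 < L k := fun k => h.L_pos (ha k)
  have hmono' : Monotone (fun k => ‖a k‖) := monotone_nat_of_le_succ hmono
  -- eventually `r₀ ≤ ‖a k‖`
  have hfar : ∃ N, ∀ k, N ≤ k → r₀ ≤ ‖a k‖ := by
    by_contra hcon
    push Not at hcon
    have hall : ∀ k, ‖a k‖ ≤ r₀ := by
      intro k
      obtain ⟨m, hm, hm2⟩ := hcon k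
      exact (hmono' hm).trans hm2.le
    have h0 := hsum.tendsto_atTop_zero
    have hge : ∀ k, (∫ x in Ioi r₀, ω x / x) ≤ ∫ x in Ioi ‖a k‖, ω x / x := by
      intro k
      refine MeasureTheory.setIntegral_mono_set (h.intL (ha k)) ?_ ?_
      · filter_upwards [MeasureTheory.ae_restrict_mem measurableSet_Ioi] with x hx
        have hx0 : 0 < x := (ha k).trans hx
        exact (div_pos (h.pos x hx0.le) hx0).le
      · exact (Ioi_subset_Ioi (hall k)).eventuallyLE
    have := ge_of_tendsto h0 (Eventually.of_forall hge)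
    exact absurd (h.L_pos hr₀0) (not_lt.mpr this)
  obtain ⟨N, hN⟩ := hfar
  set C : ℝ := 1 + (1 / (∫ x in Ioi r₀, ω x / x) + 1 / ω 1) with hC
  have hCpos : 0 < C := by
    have := h.L_pos hr₀0
    have := h.pos 1 zero_le_one
    positivity
  have hE : ∀ k, ∀ w ∈ K, ∃ E : ℂ, Fac ω (a (k + N)) w = Complex.exp (-E) ∧ ‖E‖ ≤ C * L (k + N) := by
    intro k w hw
    exact fac_far h hR hd hs hr₀R hρ (by rw [hr₀]; linarith) (by rw [hr₀]; linarith) (a (k + N)) w
      (hN _ (by omega)) (hKρ w hw)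
  classical
  set E : ℕ → ℂ → ℂ := fun k w => if hw : w ∈ K then Classical.choose (hE k w hw) else 0 with hEdef
  have hE1 : ∀ k, ∀ w ∈ K, Fac ω (a (k + N)) w = Complex.exp (-(E k w)) := by
    intro k w hw
    simp only [hEdef, dif_pos hw]
    exact (Classical.choose_spec (hE k w hw)).1
  have hE2 : ∀ k, ∀ w ∈ K, ‖E k w‖ ≤ C * L (k + N) := by
    intro k w hw
    simp only [hEdef, dif_pos hw]
    exact (Classical.choose_spec (hE k w hw)).2
  have hu : Summable (fun k => C * L (k + N)) := ((summable_nat_add_iff N).mpr hsum).mul_left C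
  have hS := tendstoUniformlyOn_tsum_nat hu hE2
  set S : ℂ → ℂ := fun w => ∑' k, E k w with hSdef
  set U : ℝ := ∑' k, C * L (k + N) with hU
  have hP : ∀ n, ∀ w ∈ K, ∏ k ∈ Finset.range (n + N), Fac ω (a k) w =
      (∏ k ∈ Finset.range N, Fac ω (a k) w) * Complex.exp (-∑ k ∈ Finset.range n, E k w) := by
    intro n w hw
    rw [add_comm n N, Finset.prod_range_add]
    congr 1
    rw [← Finset.sum_neg_distrib, Complex.exp_sum]
    refine Finset.prod_congr rfl fun k _ => ?_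
    rw [add_comm N k]
    exact hE1 k w hw
  -- bound for the initial product
  have hPb : ∃ M : ℝ, 0 < M ∧ ∀ w ∈ K, ‖∏ k ∈ Finset.range N, Fac ω (a k) w‖ ≤ M := by
    have hfb : ∀ k, ∃ M : ℝ, ∀ w : ℂ, ‖w‖ ≤ ρ → ‖Fac ω (a k) w‖ ≤ M := fun k => fac_bounded h (a k) (ha k) ρ hρ
    choose M hM using hfb
    refine ⟨(∏ k ∈ Finset.range N, |M k|) + 1, by positivity, fun w hw => ?_⟩
    rw [norm_prod]
    have : ∏ k ∈ Finset.range N, ‖Fac ω (a k) w‖ ≤ ∏ k ∈ Finset.range N, |M k| :=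
      Finset.prod_le_prod (fun _ _ => norm_nonneg _) fun k _ => (hM k w (hKρ w hw)).trans (le_abs_self _)
    linarith
  obtain ⟨M, hM0, hM⟩ := hPb
  refine ⟨fun w => (∏ k ∈ Finset.range N, Fac ω (a k) w) * Complex.exp (-(S w)), ?_, ?_⟩
  · rw [Metric.tendstoUniformlyOn_iff]
    intro ε hε
    set η : ℝ := min 1 (ε / (M * Real.exp U * 2) / 2) with hη
    have hηpos : 0 < η := by
      apply lt_min one_pos
      positivity
    have hev := (Metric.tendstoUniformlyOn_iff.mp hS) η hηpos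
    have hev2 : ∀ᶠ n in atTop, ∀ w ∈ K, dist ((∏ k ∈ Finset.range N, Fac ω (a k) w) * Complex.exp (-(S w)))
        (∏ k ∈ Finset.range (n + N), Fac ω (a k) w) < ε := by
      filter_upwards [hev] with n hn w hw
      have h1 := hn w hw
      rw [hP n w hw, dist_eq_norm, ← mul_sub, norm_mul]
      set s := ∑ k ∈ Finset.range n, E k w with hs'
      have h2 : ‖S w - s‖ < η := by rwa [dist_eq_norm] at h1
      have hsU : ‖s‖ ≤ U := by
        refine (norm_sum_le _ _).trans ((Finset.sum_le_sum fun k _ => hE2 k w hw).trans ?_)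
        exact hu.sum_le_tsum _ fun k _ => (mul_pos hCpos (hLpos _)).le
      have h3 : Complex.exp (-(S w)) - Complex.exp (-s) = Complex.exp (-s) * (Complex.exp (-(S w - s)) - 1) := by
        rw [mul_sub, ← Complex.exp_add, mul_one]
        congr 2
        ring
      have h4 : ‖Complex.exp (-s)‖ ≤ Real.exp U :=
        (Complex.norm_exp_le_exp_norm _).trans (Real.exp_le_exp.mpr (by rwa [norm_neg]))
      have h5 : ‖Complex.exp (-(S w - s)) - 1‖ ≤ 2 * ‖S w - s‖ := by
        have := Complex.norm_exp_sub_one_le (x := -(S w - s)) (by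
          rw [norm_neg]
          exact h2.le.trans (min_le_left _ _))
        rwa [norm_neg] at this
      rw [h3, norm_mul]
      have h6 : ‖S w - s‖ ≤ ε / (M * Real.exp U * 2) / 2 := h2.le.trans (min_le_right _ _)
      calc ‖∏ k ∈ Finset.range N, Fac ω (a k) w‖ * (‖Complex.exp (-s)‖ * ‖Complex.exp (-(S w - s)) - 1‖)
          ≤ M * (Real.exp U * (2 * (ε / (M * Real.exp U * 2) / 2))) := by
            refine mul_le_mul (hM w hw) (mul_le_mul h4 (h5.trans ?_) (norm_nonneg _) (Real.exp_pos _).le)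
              (by positivity) hM0.le
            linarith
        _ = ε / 2 := by
            field_simp
        _ < ε := by linarith
    rw [eventually_atTop] at hev2 ⊢
    obtain ⟨n₀, hn₀⟩ := hev2
    refine ⟨n₀ + N, fun n hn w hw => ?_⟩
    have := hn₀ (n - N) (by omega) w hw
    rwa [Nat.sub_add_cancel (by omega)] at this
  · intro w hw
    refine mul_ne_zero ?_ (Complex.exp_ne_zero _)
    rw [Finset.prod_ne_zero_iff]
    intro k _
    unfold Fac
    refine mul_ne_zero ?_ (Complex.exp_ne_zero _)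
    intro h0
    have hak : a k ≠ 0 := norm_pos_iff.mp (ha k)
    have h1 : w / a k = 1 := by linear_combination -h0
    rw [div_eq_one_iff_eq hak] at h1
    exact haK k (h1 ▸ hw)

/-- For ω continuous, positive, nonincreasing, with all moments finite and x·ω′/ω eventually decreasing to −∞, and zeros with summable ∫_{∣a_k∣}^∞ω/x: the products ∏A(z;a_k) converge uniformly to a nonvanishing limit on compacts avoiding the a_k. -/
theorem result :
    ∀ ω : ℝ → ℝ, ContinuousOn ω (Set.Ici 0) → (∀ x : ℝ, 0 ≤ x → 0 < ω x) →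
      AntitoneOn ω (Set.Ici 0) →
      (∀ j : ℕ, MeasureTheory.IntegrableOn (fun x : ℝ => ω x * x ^ j) (Set.Ioi 0)) →
      (∃ R : ℝ, 0 < R ∧ (∀ x : ℝ, R < x → DifferentiableAt ℝ ω x) ∧
        AntitoneOn (fun x : ℝ => x * deriv ω x / ω x) (Set.Ioi R) ∧
        Filter.Tendsto (fun x : ℝ => x * deriv ω x / ω x) Filter.atTop Filter.atBot) →
      ∀ a : ℕ → ℂ, (∀ k, 0 < ‖a k‖) → (∀ k, ‖a k‖ ≤ ‖a (k + 1)‖) →
        Summable (fun k : ℕ => ∫ x in Set.Ioi ‖a k‖, ω x / x) →
        ∀ K : Set ℂ, IsCompact K → (∀ k, a k ∉ K) →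
          ∃ g : ℂ → ℂ,
            TendstoUniformlyOn
              (fun (n : ℕ) (w : ℂ) => ∏ k ∈ Finset.range n,
                (1 - w / a k) * Complex.exp (-(
                  (((∫ x in Set.Ioi ‖a k‖, ω x / x : ℝ)) : ℂ) -
                  ∑' j : ℕ,
                    ((a k)⁻¹ ^ (j + 1) *
                        (((∫ x in Set.Ioc 0 ‖a k‖, ω x * x ^ j : ℝ)) : ℂ) -
                      ((starRingEnd ℂ) (a k))⁻¹ ^ (j + 1) *
                        (((∫ x in Set.Ioi ‖a k‖, ω x * (x ^ (j + 2))⁻¹ : ℝ)) : ℂ)) *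
                    w ^ (j + 1) /
                    (((j : ℂ) + 1) * (((∫ x in Set.Ioi 0, ω x * x ^ j : ℝ)) : ℂ)))))
              g Filter.atTop K ∧
            ∀ w ∈ K, g w ≠ 0 := by
  intro ω h1 h2 h3 h4 ⟨R, hR, hd, hs, _⟩ a ha hmono hsum K hK haK
  exact aux ω ⟨h1, h2, h3, h4⟩ hR hd hs a ha hmono hsum K hK haK

end Pool.Agent.S1789
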