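import Pool.Statements.S1832
import Mathlib
import Pool.Agent.Df9bac.Main

set_option autoImplicit false
open Pool Pool.MP_df9bac_an

namespace Pool.Agent.S1832

/-- The negation of the preceding statement: For every bounded f from [0,1] into real c_0, the set of all norm limits of Riemann sums of f along tagged partitions of [0,1] whose mesh tends to 0 is a convex set. -/
theorem result :
    ¬ (∀ f : ℝ → ZeroAtInftyContinuousMap ℕ ℝ,
      (∃ M : ℝ, ∀ s ∈ Set.Icc (0:ℝ) 1, ‖f s‖ ≤ M) →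
      Convex ℝ {v : ZeroAtInftyContinuousMap ℕ ℝ |
        ∃ (n : ℕ → ℕ) (x t : ℕ → ℕ → ℝ),
          (∀ k, x k 0 = 0 ∧ x k (n k) = 1 ∧
            (∀ i, i < n k → x k i < x k (i+1)) ∧
            (∀ i, i < n k → x k i ≤ t k i ∧ t k i ≤ x k (i+1))) ∧
          (∀ ε : ℝ, 0 < ε → ∃ K : ℕ, ∀ k, K ≤ k → ∀ i, i < n k → x k (i+1) - x k i < ε) ∧
          Filter.Tendsto
            (fun k => ∑ i ∈ Finset.range (n k), (x k (i+1) - x k i) • f (t k i))
            Filter.atTop (nhds v)}) := by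
  intro hmain
  exact Pool.Agent.Df9bac.not_convex
    (hmain Pool.Agent.Df9bac.ff ⟨1, fun s _ => Pool.Agent.Df9bac.ff_bound s⟩)

end Pool.Agent.S1832
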