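import Pool.Statements.S1854
import Mathlib

set_option autoImplicit false
open Pool Pool.MP_e9d911_an

namespace Pool.Agent.S1854

/-- coefficients of `(1+z)^3 (6-z)` -/
noncomputable def aa : ℕ → ℂ
  | 0 => 6
  | 1 => 17
  | 2 => 15
  | 3 => 3
  | 4 => -1
  | _ => 0

lemma aa_zero (j : ℕ) (hj : j ∉ Finset.range 5) : aa j = 0 := by
  simp only [Finset.mem_range, not_lt] at hj
  obtain ⟨k, rfl⟩ : ∃ k, j = k + 5 := ⟨j - 5, by omega⟩
  rfl

lemma norm_sum : ∑' j, ‖aa j‖ = 42 := by
  rw [tsum_eq_sum (s := Finset.range 5) (fun j hj => by rw [aa_zero j hj, norm_zero])]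
  simp [Finset.sum_range_succ, aa]
  norm_num

lemma eval_sum (z : ℂ) : ∑' j, aa j * z ^ j =
    Polynomial.eval z (Polynomial.C (-1) * ((Polynomial.X + Polynomial.C 1) * (Polynomial.X + Polynomial.C 1) *
      (Polynomial.X + Polynomial.C 1) * (Polynomial.X - Polynomial.C 6))) := by
  rw [tsum_eq_sum (s := Finset.range 5) (fun j hj => by rw [aa_zero j hj, zero_mul])]
  simp [Finset.sum_range_succ, aa]
  ring

lemma integral_eq : (1 / (2 * Real.pi)) * (∫ θ in (0:ℝ)..(2 * Real.pi),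
    Real.log ‖∑' j, aa j * Complex.exp ((θ : ℂ) * Complex.I) ^ j‖) = Real.log 6 := by
  set p : Polynomial ℂ := Polynomial.C (-1) * ((Polynomial.X + Polynomial.C 1) * (Polynomial.X + Polynomial.C 1) *
      (Polynomial.X + Polynomial.C 1) * (Polynomial.X - Polynomial.C 6)) with hp
  have h1 : p.logMahlerMeasure = Real.log 6 := by
    rw [Polynomial.logMahlerMeasure_eq_log_MahlerMeasure, hp]
    simp only [Polynomial.mahlerMeasure_mul, Polynomial.mahlerMeasure_X_add_C, Polynomial.mahlerMeasure_X_sub_C,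
      Polynomial.mahlerMeasure_const]
    norm_num
  rw [← h1, Polynomial.logMahlerMeasure_def, Real.circleAverage_def, smul_eq_mul, one_div]
  congr 1
  refine intervalIntegral.integral_congr fun θ _ => ?_
  have e : circleMap 0 1 θ = Complex.exp ((θ : ℂ) * Complex.I) := by simp [circleMap]
  show Real.log ‖∑' j, aa j * Complex.exp ((θ : ℂ) * Complex.I) ^ j‖ = Real.log ‖Polynomial.eval (circleMap 0 1 θ) p‖
  rw [eval_sum, e]

/-- The negation of the preceding statement: For 0<d<1, k≥0 and the n with ∑_{j≤k}C(n,j)/2^n ≤ d < ∑_{j≤k}C(n-1,j)/2^{n-1}, the infimum of J(f) over nonzero f with ∑_{j≤k}∣a_j∣ ≥ d∑∣a_j∣ equals log(ρ/((ρ+1)2^{n-1})), with ρ as defined. -/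
theorem result :
    ¬ (∀ (d : ℝ) (k n : ℕ), 0 < d → d < 1 → 0 < n →
    (∑ j ∈ Finset.range (k+1), (n.choose j : ℝ)) / 2 ^ n ≤ d →
    d < (∑ j ∈ Finset.range (k+1), ((n-1).choose j : ℝ)) / 2 ^ (n-1) →
    IsGLB {x : ℝ | ∃ a : ℕ → ℂ, Summable (fun j => ‖a j‖) ∧ a ≠ 0 ∧
        d * (∑' j, ‖a j‖) ≤ ∑ j ∈ Finset.range (k+1), ‖a j‖ ∧
        x = (1 / (2 * Real.pi)) *
              (∫ θ in (0:ℝ)..(2 * Real.pi),
                Real.log ‖∑' j, a j * Complex.exp ((θ : ℂ) * Complex.I) ^ j‖)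
            - Real.log (∑' j, ‖a j‖)}
      (Real.log
        ((((n-1).choose k : ℝ) /
            ((∑ j ∈ Finset.range (k+1), ((n-1).choose j : ℝ)) - d * 2 ^ (n-1)) - 1) /
          (((((n-1).choose k : ℝ) /
            ((∑ j ∈ Finset.range (k+1), ((n-1).choose j : ℝ)) - d * 2 ^ (n-1)) - 1) + 1)
            * 2 ^ (n-1))))) := by
  intro h
  have h1 := h (23 / 42) 1 3 (by norm_num) (by norm_num) (by norm_num)
    (by simp [Finset.sum_range_succ]; norm_num) (by simp [Finset.sum_range_succ]; norm_num)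
  have h2 := h1.1 ⟨aa, summable_of_hasFiniteSupport ((Finset.range 5).finite_toSet.subset fun j hj => by
      by_contra hc
      apply hj
      show ‖aa j‖ = 0
      rw [aa_zero j (by simpa using hc), norm_zero]),
    fun h0 => by
      have := congrFun h0 0
      simp [aa] at this,
    by rw [norm_sum]; simp [Finset.sum_range_succ, aa]; norm_num, rfl⟩
  rw [norm_sum, integral_eq, ← Real.log_div (by norm_num) (by norm_num)] at h2
  have h3 := (Real.log_le_log_iff (by
    simp [Finset.sum_range_succ]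
    norm_num) (by norm_num)).mp h2
  simp [Finset.sum_range_succ] at h3
  norm_num at h3

end Pool.Agent.S1854
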