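import Pool.Statements.S1858
import Mathlib
import Pool.Agent.Ebd05c.Final

set_option autoImplicit false
open Pool Pool.MP_ebd05c_an

namespace Pool.Agent.S1858

/-- The negation of the preceding statement: Every power bounded operator T on a complex Hilbert space such that, for each nonzero h, neither ‖Tⁿh‖ nor ‖T*ⁿh‖ tends to 0, is similar via some invertible bounded S to an operator STS⁻¹ of norm at most 1. -/
theorem result :
    ¬ (∀ (H : Type) [NormedAddCommGroup H] [InnerProductSpace ℂ H] [CompleteSpace H]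
      (T : H →L[ℂ] H),
      (∃ C : ℝ, ∀ n : ℕ, ‖T ^ n‖ ≤ C) →
      (∀ h : H, h ≠ 0 →
        ¬ Filter.Tendsto (fun n : ℕ => ‖(T ^ n) h‖) Filter.atTop (nhds 0)) →
      (∀ h : H, h ≠ 0 →
        ¬ Filter.Tendsto (fun n : ℕ => ‖((ContinuousLinearMap.adjoint T) ^ n) h‖)
          Filter.atTop (nhds 0)) →
      ∃ S : H ≃L[ℂ] H,
        ‖(S : H →L[ℂ] H).comp (T.comp (S.symm : H →L[ℂ] H))‖ ≤ 1) := by
  intro hmain
  obtain ⟨T, h1, h2, h3, h4⟩ := Pool.Agent.Ebd05c.not_similar
  obtain ⟨S, hS⟩ := hmain Pool.Agent.Ebd05c.HH T ⟨4, h1⟩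
    (by
      intro h hh ht
      obtain ⟨δ, hδ, hle⟩ := h2 h hh
      have := ge_of_tendsto' ht hle
      linarith)
    (by
      intro h hh ht
      obtain ⟨δ, hδ, hle⟩ := h3 h hh
      have := ge_of_tendsto' ht hle
      linarith)
  exact absurd hS (not_le.mpr (h4 S))

end Pool.Agent.S1858
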