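import Pool.Statements.S2320
-- import your own Pool.Agent.* helpers here

set_option autoImplicit false
open Classical
open Pool Pool.MP_63da8f_co

namespace Pool.Agent.S2320

/-- The ground set. -/
structure X where
  /-- the element number -/
  val : Fin 9

/-- Strict upper sets as bit masks. -/
def up : List ℕ := [508, 508, 448, 496, 384, 128, 128, 0, 0]

/-- The strict order. -/
def ltB (x y : Fin 9) : Bool := (up.getD x.val 0).testBit y.val

theorem ltB_irrefl : ∀ x : Fin 9, ltB x x = false := by decide +kernel

theorem ltB_trans : ∀ x y z : Fin 9, ltB x y = true → ltB y z = true → ltB x z = true := by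
  decide +kernel

theorem X_ext {a b : X} (h : a.val = b.val) : a = b := by
  cases a; cases b; simp_all

instance instX : PartialOrder X where
  le x y := x = y ∨ ltB x.val y.val = true
  lt x y := ltB x.val y.val = true
  le_refl x := Or.inl rfl
  le_trans x y z h1 h2 := by
    rcases h1 with rfl | h1
    · exact h2
    · rcases h2 with rfl | h2
      · exact Or.inr h1
      · exact Or.inr (ltB_trans _ _ _ h1 h2)
  le_antisymm x y h1 h2 := by
    rcases h1 with rfl | h1
    · rfl
    · rcases h2 with h2 | h2
      · exact h2.symm
      · have := ltB_trans _ _ _ h1 h2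
        rw [ltB_irrefl] at this
        exact absurd this (by decide)
  lt_iff_le_not_ge x y := by
    constructor
    · intro h
      refine ⟨Or.inr h, ?_⟩
      rintro (h2 | h2)
      · subst h2
        rw [ltB_irrefl] at h
        exact absurd h (by decide)
      · have := ltB_trans _ _ _ h h2
        rw [ltB_irrefl] at this
        exact absurd this (by decide)
    · rintro ⟨h1, h2⟩
      rcases h1 with rfl | h1
      · exact absurd (Or.inl rfl) h2
      · exact h1

/-- The equivalence with `Fin 9`. -/
def eqv : X ≃ Fin 9 := ⟨X.val, X.mk, fun _ => rfl, fun _ => rfl⟩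

instance instFin : Fintype X := Fintype.ofEquiv (Fin 9) eqv.symm

/-- Verified search. -/
def low : ℕ → Fin 9 → List (Fin 9) → ℕ → Bool
  | 0, _, _, j => Nat.ble 4 j
  | m + 1, last, used, j => Nat.ble 4 j || (List.finRange 9).all (fun x => used.contains x ||
      ((List.finRange 9).any (fun z => ltB z x && !used.contains z) ||
        low m x (x :: used) (if ltB last x = true then j else j + 1)))

theorem low_sound : ∀ (rest : List (Fin 9)) (last : Fin 9) (used : List (Fin 9)) (j : ℕ),
    low rest.length last used j = true → rest.Nodup → (∀ x ∈ rest, x ∉ used) →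
    rest.Pairwise (fun a b => ltB b a = false) → (∀ z, z ∈ used ∨ z ∈ rest) →
    4 ≤ j + ((last :: rest).zip rest).countP (fun p => !ltB p.1 p.2) := by
  intro rest
  induction rest with
  | nil =>
    intro last used j h _ _ _ _
    have := Nat.le_of_ble_eq_true h
    omega
  | cons x rest ih =>
    intro last used j h hn hd hp hall
    rw [List.length_cons] at h
    unfold low at h
    rw [Bool.or_eq_true] at h
    rcases h with h | h
    · have := Nat.le_of_ble_eq_true h
      omega
    · have h3 := List.all_eq_true.1 h x (List.mem_finRange x)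
      rw [Bool.or_eq_true, Bool.or_eq_true] at h3
      rcases h3 with h3 | h3 | h3
      · exact absurd (List.contains_iff_mem.1 h3) (hd x (by simp))
      · rw [List.any_eq_true] at h3
        obtain ⟨z, _, hz⟩ := h3
        rw [Bool.and_eq_true] at hz
        obtain ⟨hz1, hz2⟩ := hz
        exfalso
        rcases hall z with hz3 | hz3
        · rw [List.contains_iff_mem.2 hz3] at hz2
          exact absurd hz2 (by decide)
        · rcases List.mem_cons.1 hz3 with rfl | hz4
          · rw [ltB_irrefl] at hz1
            exact absurd hz1 (by decide)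
          · have := (List.pairwise_cons.1 hp).1 z hz4
            rw [this] at hz1
            exact absurd hz1 (by decide)
      · have h4 := ih x (x :: used) _ h3 (List.nodup_cons.1 hn).2 ?_ (List.pairwise_cons.1 hp).2 ?_
        · have e : ((last :: x :: rest).zip (x :: rest)) = (last, x) :: ((x :: rest).zip rest) := rfl
          rw [e, List.countP_cons]
          by_cases hb : ltB last x = true
          · rw [if_pos hb] at h4
            omega
          · rw [if_neg hb] at h4
            have hb' : ltB last x = false := by simpa using hb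
            simp only [hb', Bool.not_false, if_true]
            omega
        · intro y hy hy2
          rcases List.mem_cons.1 hy2 with rfl | hy3
          · exact (List.nodup_cons.1 hn).1 hy
          · exact hd y (List.mem_cons_of_mem _ hy) hy3
        · intro z
          rcases hall z with hz | hz
          · exact Or.inl (List.mem_cons_of_mem _ hz)
          · rcases List.mem_cons.1 hz with rfl | hz
            · exact Or.inl (by simp)
            · exact Or.inr hz

theorem start_ok : (List.finRange 9).all (fun x => (List.finRange 9).any (fun z => ltB z x) ||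
    low 8 x [x] 0) = true := by decide +kernel

theorem jump_lower (L : List (Fin 9)) (hn : L.Nodup) (hall : ∀ z, z ∈ L)
    (hp : L.Pairwise (fun a b => ltB b a = false)) :
    4 ≤ (L.zip L.tail).countP (fun p => !ltB p.1 p.2) := by
  cases L with
  | nil => exact absurd (hall 0) (by simp)
  | cons x rest =>
    have hlen : rest.length = 8 := by
      have h1 : (x :: rest).toFinset = Finset.univ := by
        ext z
        simp only [List.mem_toFinset, Finset.mem_univ, iff_true]
        exact hall z
      have h2 := List.toFinset_card_of_nodup hn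
      rw [h1, Finset.card_univ, Fintype.card_fin, List.length_cons] at h2
      omega
    have h3 := List.all_eq_true.1 start_ok x (List.mem_finRange x)
    rw [Bool.or_eq_true] at h3
    rcases h3 with h3 | h3
    · rw [List.any_eq_true] at h3
      obtain ⟨z, _, hz1⟩ := h3
      exfalso
      rcases List.mem_cons.1 (hall z) with rfl | hz4
      · rw [ltB_irrefl] at hz1
        exact absurd hz1 (by decide)
      · have := (List.pairwise_cons.1 hp).1 z hz4
        rw [this] at hz1
        exact absurd hz1 (by decide)
    · rw [← hlen] at h3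
      have := low_sound rest x [x] 0 h3 (List.nodup_cons.1 hn).2 ?_ (List.pairwise_cons.1 hp).2 ?_
      · show 4 ≤ ((x :: rest).zip rest).countP (fun p => !ltB p.1 p.2)
        omega
      · intro y hy hy2
        rw [List.mem_singleton] at hy2
        subst hy2
        exact (List.nodup_cons.1 hn).1 hy
      · intro z
        rcases List.mem_cons.1 (hall z) with rfl | hz
        · exact Or.inl (by simp)
        · exact Or.inr hz

/-- The jump number function. -/
noncomputable def sg (S : Finset X) : ℕ :=
  sInf {k : ℕ | ∃ l : List X, l.Nodup ∧ l.toFinset = S ∧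
          l.Pairwise (fun a b => ¬ b < a) ∧
          (l.zip l.tail).countP (fun p => decide (¬ p.1 < p.2)) = k}

theorem ub (S : Finset X) (L : List (Fin 9)) (k : ℕ) (hn : L.Nodup)
    (hS : ∀ x : X, x ∈ S ↔ x.val ∈ L) (hp : L.Pairwise (fun a b => ltB b a = false))
    (hk : (L.zip L.tail).countP (fun p => !ltB p.1 p.2) = k) : sg S ≤ k := by
  refine Nat.sInf_le ⟨L.map X.mk, ?_, ?_, ?_, ?_⟩
  · exact hn.map (fun a b h => congrArg X.val h)
  · ext x
    rw [List.mem_toFinset, List.mem_map, hS x]
    constructor
    · rintro ⟨a, ha, rfl⟩
      exact ha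
    · intro hx
      exact ⟨x.val, hx, rfl⟩
  · rw [List.pairwise_map]
    refine hp.imp ?_
    intro a b hab h
    have h' : ltB b a = true := h
    rw [hab] at h'
    exact absurd h' (by decide)
  · rw [← hk, ← List.map_tail, List.zip_map, List.countP_map]
    refine List.countP_congr ?_
    intro p _
    simp only [Function.comp_apply, decide_eq_true_eq, Bool.not_eq_true']
    show (¬ ltB p.1 p.2 = true) ↔ _
    simp

theorem lb (l : List X) (hn : l.Nodup) (hS : ∀ x, x ∈ l)
    (hp : l.Pairwise (fun a b => ¬ b < a)) :
    4 ≤ (l.zip l.tail).countP (fun p => decide (¬ p.1 < p.2)) := by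
  have h := jump_lower (l.map X.val) (hn.map (fun a b h => X_ext h))
    (fun z => List.mem_map.2 ⟨⟨z⟩, hS _, rfl⟩) ?_
  · refine h.trans (le_of_eq ?_)
    rw [← List.map_tail, List.zip_map, List.countP_map]
    refine List.countP_congr ?_
    intro p _
    simp only [Function.comp_apply, decide_eq_true_eq, Bool.not_eq_true']
    show _ ↔ (¬ ltB p.1.val p.2.val = true)
    simp
  · rw [List.pairwise_map]
    refine hp.imp ?_
    intro a b hab
    by_contra hc
    apply hab
    show ltB b.val a.val = true
    simpa using hc

/-- Optimal linear extensions of the nine deletions. -/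
def ls : Fin 9 → List (Fin 9)
  | 0 => [1, 2, 3, 4, 8, 5, 6, 7]
  | 1 => [0, 2, 3, 4, 8, 5, 6, 7]
  | 2 => [0, 1, 3, 4, 8, 5, 6, 7]
  | 3 => [0, 1, 2, 6, 4, 8, 5, 7]
  | 4 => [0, 1, 3, 5, 2, 6, 7, 8]
  | 5 => [0, 1, 2, 3, 4, 8, 6, 7]
  | 6 => [0, 1, 2, 3, 4, 8, 5, 7]
  | 7 => [0, 1, 3, 5, 2, 6, 4, 8]
  | 8 => [0, 1, 3, 4, 2, 6, 5, 7]

theorem ls1 : ∀ x : Fin 9, (ls x).Nodup := by decide +kernel

theorem ls2 : ∀ x y : Fin 9, y ≠ x ↔ y ∈ ls x := by decide +kernel

theorem ls3 : ∀ x : Fin 9, (ls x).Pairwise (fun a b => ltB b a = false) := by decide +kernel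

theorem ls4 : ∀ x : Fin 9, ((ls x).zip (ls x).tail).countP (fun p => !ltB p.1 p.2) = 3 := by
  decide +kernel

theorem sg_univ_le : sg Finset.univ ≤ 4 :=
  ub _ [0, 1, 2, 3, 4, 8, 5, 6, 7] 4 (by decide +kernel)
    (fun x => ⟨fun _ => by
      have : ∀ y : Fin 9, y ∈ ([0, 1, 2, 3, 4, 8, 5, 6, 7] : List (Fin 9)) := by decide +kernel
      exact this x.val, fun _ => Finset.mem_univ x⟩) (by decide +kernel) (by decide +kernel)

theorem sg_univ_ge : 4 ≤ sg Finset.univ := by
  refine le_csInf ?_ ?_
  · refine ⟨_, ([0, 1, 2, 3, 4, 8, 5, 6, 7] : List (Fin 9)).map X.mk, ?_, ?_, ?_, rfl⟩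
    · exact List.Nodup.map (fun a b h => congrArg X.val h) (by decide +kernel)
    · ext x
      simp only [List.mem_toFinset, Finset.mem_univ, iff_true, List.mem_map]
      have : ∀ y : Fin 9, y ∈ ([0, 1, 2, 3, 4, 8, 5, 6, 7] : List (Fin 9)) := by decide +kernel
      exact ⟨x.val, this x.val, rfl⟩
    · rw [List.pairwise_map]
      have : ([0, 1, 2, 3, 4, 8, 5, 6, 7] : List (Fin 9)).Pairwise (fun a b => ltB b a = false) := by
        decide +kernel
      refine this.imp ?_
      intro a b hab h
      have h' : ltB b a = true := h
      rw [hab] at h'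
      exact absurd h' (by decide)
  · rintro k ⟨l, h1, h2, h3, rfl⟩
    refine lb l h1 (fun x => ?_) h3
    rw [← List.mem_toFinset, h2]
    exact Finset.mem_univ x

theorem sg_erase (x : X) : sg (Finset.univ.erase x) ≤ 3 :=
  ub _ (ls x.val) 3 (ls1 _) (fun y => by
    rw [Finset.mem_erase, ← ls2 x.val y.val]
    constructor
    · rintro ⟨h, _⟩ h2
      exact h (X_ext h2)
    · intro h
      exact ⟨fun h2 => h (congrArg X.val h2), Finset.mem_univ y⟩) (ls3 _) (ls4 _)

/-- The negation of the preceding statement: For every finite poset P with jump number r (minimum over linear extensions of the number of consecutive incomparable pairs), if deleting any single element lowers the jump number, then P has at most 2r elements. -/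
theorem result :
    ¬ (∀ (α : Type) [PartialOrder α] (σ : Finset α → ℕ),
      (∀ S : Finset α, σ S = sInf {k : ℕ | ∃ l : List α, l.Nodup ∧ l.toFinset = S ∧
          l.Pairwise (fun a b => ¬ b < a) ∧
          (l.zip l.tail).countP (fun p => decide (¬ p.1 < p.2)) = k}) →
      ∀ (P : Finset α) (r : ℕ), σ P = r → (∀ x ∈ P, σ (P.erase x) < r) →
        P.card ≤ 2 * r) := by
  intro H
  have h := H X sg (fun S => rfl) Finset.univ (sg Finset.univ) rfl (fun x _ => by
    have h1 := sg_univ_ge
    have h2 := sg_erase x
    omega)
  have h3 := sg_univ_le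
  have h4 : (Finset.univ : Finset X).card = 9 := by
    rw [Finset.card_univ, Fintype.card_congr eqv, Fintype.card_fin]
  rw [h4] at h
  omega

end Pool.Agent.S2320
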