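import Pool.Statements.S2368
import Mathlib
import Pool.Agent.H2368.Core

set_option autoImplicit false
open Pool Pool.MP_71ab31_co

namespace Pool.Agent.S2368

/-- The negation of the preceding statement: For every finite set P, let r(B) be the least characteristic over thin antichains covering a bar set B. Then r satisfies the matroid rank axioms on pairs: 0 ≤ r(B) ≤ ∣B∣, r is monotone, and r is submodular. -/
theorem result :
    ¬ (∀ (n : ℕ) (r : Finset (Finset (Fin n)) → ℤ),
    (∀ B : Finset (Finset (Fin n)),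
      B ⊆ (Finset.univ : Finset (Fin n)).powersetCard 2 →
      IsLeast {x : ℤ | ∃ Z : Finset (Finset (Fin n)),
          IsAntichain (· ⊆ ·) (Z : Set (Finset (Fin n))) ∧
          (∀ A ∈ Z, ∀ A' ∈ Z, A ≠ A' → (A ∩ A').card ≤ 2) ∧
          (∀ b ∈ B, ∃ A ∈ Z, b ⊆ A) ∧
          x = ∑ S ∈ Z.powerset.filter (fun S => S.Nonempty),
                (-1 : ℤ) ^ (S.card + 1) *
                  (if 3 ≤ (S.inf id).card then 3 * ((S.inf id).card : ℤ) - 6
                   else if (S.inf id).card = 2 then 1 else 0)} (r B)) →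
    (∀ B : Finset (Finset (Fin n)),
        B ⊆ (Finset.univ : Finset (Fin n)).powersetCard 2 →
        0 ≤ r B ∧ r B ≤ (B.card : ℤ)) ∧
    (∀ B C : Finset (Finset (Fin n)), B ⊆ C →
        C ⊆ (Finset.univ : Finset (Fin n)).powersetCard 2 → r B ≤ r C) ∧
    (∀ B C : Finset (Finset (Fin n)),
        B ⊆ (Finset.univ : Finset (Fin n)).powersetCard 2 →
        C ⊆ (Finset.univ : Finset (Fin n)).powersetCard 2 →
        r (B ∪ C) + r (B ∩ C) ≤ r B + r C)) := by
  intro H
  classical
  -- the set of values for a given bar antichain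
  have hlst : ∀ B : Finset (Finset (Fin 49)), B ⊆ (Finset.univ : Finset (Fin 49)).powersetCard 2 →
      ∃ y : ℤ, IsLeast {x : ℤ | ∃ Z : Finset (Finset (Fin 49)),
          IsAntichain (· ⊆ ·) (Z : Set (Finset (Fin 49))) ∧
          (∀ A ∈ Z, ∀ A' ∈ Z, A ≠ A' → (A ∩ A').card ≤ 2) ∧
          (∀ b ∈ B, ∃ A ∈ Z, b ⊆ A) ∧
          x = ∑ S ∈ Z.powerset.filter (fun S => S.Nonempty),
                (-1 : ℤ) ^ (S.card + 1) *
                  (if 3 ≤ (S.inf id).card then 3 * ((S.inf id).card : ℤ) - 6
                   else if (S.inf id).card = 2 then 1 else 0)} y := by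
    intro B hB
    have hfin : Set.Finite {x : ℤ | ∃ Z : Finset (Finset (Fin 49)),
          IsAntichain (· ⊆ ·) (Z : Set (Finset (Fin 49))) ∧
          (∀ A ∈ Z, ∀ A' ∈ Z, A ≠ A' → (A ∩ A').card ≤ 2) ∧
          (∀ b ∈ B, ∃ A ∈ Z, b ⊆ A) ∧
          x = ∑ S ∈ Z.powerset.filter (fun S => S.Nonempty),
                (-1 : ℤ) ^ (S.card + 1) *
                  (if 3 ≤ (S.inf id).card then 3 * ((S.inf id).card : ℤ) - 6
                   else if (S.inf id).card = 2 then 1 else 0)} := by
      refine Set.Finite.subset (Set.finite_range (fun Z : Finset (Finset (Fin 49)) =>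
        ∑ S ∈ Z.powerset.filter (fun S => S.Nonempty),
                (-1 : ℤ) ^ (S.card + 1) *
                  (if 3 ≤ (S.inf id).card then 3 * ((S.inf id).card : ℤ) - 6
                   else if (S.inf id).card = 2 then 1 else 0))) ?_
      rintro x ⟨Z, _, _, _, rfl⟩
      exact ⟨Z, rfl⟩
    have hne : Set.Nonempty {x : ℤ | ∃ Z : Finset (Finset (Fin 49)),
          IsAntichain (· ⊆ ·) (Z : Set (Finset (Fin 49))) ∧
          (∀ A ∈ Z, ∀ A' ∈ Z, A ≠ A' → (A ∩ A').card ≤ 2) ∧
          (∀ b ∈ B, ∃ A ∈ Z, b ⊆ A) ∧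
          x = ∑ S ∈ Z.powerset.filter (fun S => S.Nonempty),
                (-1 : ℤ) ^ (S.card + 1) *
                  (if 3 ≤ (S.inf id).card then 3 * ((S.inf id).card : ℤ) - 6
                   else if (S.inf id).card = 2 then 1 else 0)} := by
      refine ⟨_, (Finset.univ : Finset (Fin 49)).powersetCard 2, ?_, ?_, ?_, rfl⟩
      · intro A hA A' hA' hne hsub
        apply hne
        have h1 := (Finset.mem_powersetCard.mp hA).2
        have h2 := (Finset.mem_powersetCard.mp hA').2
        exact Finset.eq_of_subset_of_card_le hsub (by rw [h1, h2])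
      · intro A hA A' _ _
        have h1 := (Finset.mem_powersetCard.mp hA).2
        exact (Finset.card_le_card Finset.inter_subset_left).trans h1.le
      · intro b hb
        exact ⟨b, hB hb, Finset.Subset.refl b⟩
    refine ⟨hfin.toFinset.min' (by rwa [Set.Finite.toFinset_nonempty]), ?_⟩
    have := Finset.isLeast_min' hfin.toFinset (by rwa [Set.Finite.toFinset_nonempty])
    rwa [Set.Finite.coe_toFinset] at this
  choose! r hr using hlst
  obtain ⟨h1, _, _⟩ := H 49 r hr
  have h2 := (h1 ∅ (Finset.empty_subset _)).1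
  have h3 : r ∅ ≤ H2368.chi H2368.Z0 := by
    apply (hr ∅ (Finset.empty_subset _)).2
    refine ⟨H2368.Z0, H2368.Z0_anti, H2368.Z0_thin, ?_, rfl⟩
    intro b hb
    simp at hb
  have h4 := H2368.chi_Z0
  linarith

end Pool.Agent.S2368
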