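import Pool.Statements.S2738
-- import your own Pool.Agent.* helpers here

set_option autoImplicit false
open Pool Pool.MP_d26300_co

namespace Pool.Agent.S2738

open Matrix Finset

lemma spec {V : Type} [Fintype V] [DecidableEq V] (A : Matrix V V ℝ) (hA : A.IsHermitian) :
    ∃ (ν : V → ℝ) (U : V → V → ℝ), A.charpoly.roots = (Finset.univ : Finset V).val.map ν ∧
      (∀ x y, A x y = ∑ i, ν i * (U i x * U i y)) ∧
      (∀ x y, ∑ i, U i x * U i y = if x = y then 1 else 0) ∧
      (∀ i, ∑ x, U i x * U i x = 1) ∧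
      (∀ i x, ∑ y, A x y * U i y = ν i * U i x) := by
  refine ⟨hA.eigenvalues, fun i x => (hA.eigenvectorUnitary : Matrix V V ℝ) x i, ?_, ?_, ?_, ?_, ?_⟩
  · have := hA.roots_charpoly_eq_eigenvalues
    simpa using this
  · intro x y
    have h := hA.spectral_theorem
    rw [Unitary.conjStarAlgAut_apply] at h
    conv_lhs => rw [h]
    rw [Matrix.mul_apply]
    apply Finset.sum_congr rfl
    intro i _
    rw [Matrix.mul_diagonal, Matrix.star_apply]
    simp
    ring
  · intro x y
    have h : (hA.eigenvectorUnitary : Matrix V V ℝ) * star (hA.eigenvectorUnitary : Matrix V V ℝ) = 1 :=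
      Unitary.coe_mul_star_self _
    have h2 := congrFun (congrFun h x) y
    rw [Matrix.mul_apply, Matrix.one_apply] at h2
    rw [← h2]
    apply Finset.sum_congr rfl
    intro i _
    rw [Matrix.star_apply]
    simp
  · intro i
    have h : star (hA.eigenvectorUnitary : Matrix V V ℝ) * (hA.eigenvectorUnitary : Matrix V V ℝ) = 1 :=
      Unitary.coe_star_mul_self _
    have h2 := congrFun (congrFun h i) i
    rw [Matrix.mul_apply, Matrix.one_apply] at h2
    simp only [if_true] at h2
    rw [← h2]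
    apply Finset.sum_congr rfl
    intro x _
    rw [Matrix.star_apply]
    simp
  · intro i x
    have h := congrFun (hA.mulVec_eigenvectorBasis i) x
    simpa [Matrix.mulVec, dotProduct] using h

lemma lower {V : Type} [Fintype V] [DecidableEq V] (A W : Matrix V V ℝ) (hA : A.IsHermitian)
    (hW : ∀ u : V → ℝ, |∑ x, ∑ y, W x y * (u x * u y)| ≤ ∑ x, u x * u x) :
    ∑ x, ∑ y, W x y * A x y ≤ (A.charpoly.roots.map (fun x : ℝ => |x|)).sum := by
  obtain ⟨ν, U, hroots, hAe, -, hnorm, -⟩ := spec A hA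
  rw [hroots, Multiset.map_map]
  show _ ≤ ∑ i, |ν i|
  have h1 : ∑ x, ∑ y, W x y * A x y = ∑ i, ν i * ∑ x, ∑ y, W x y * (U i x * U i y) := by
    have e1 : ∑ x, ∑ y, W x y * A x y = ∑ x, ∑ y, ∑ i, ν i * (W x y * (U i x * U i y)) := by
      apply Finset.sum_congr rfl; intro x _
      apply Finset.sum_congr rfl; intro y _
      rw [hAe, Finset.mul_sum]
      apply Finset.sum_congr rfl; intro i _
      ring
    rw [e1]
    have e2 : ∑ x, ∑ y, ∑ i, ν i * (W x y * (U i x * U i y))
        = ∑ x, ∑ i, ∑ y, ν i * (W x y * (U i x * U i y)) := by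
      apply Finset.sum_congr rfl; intro x _
      exact Finset.sum_comm
    rw [e2, Finset.sum_comm]
    apply Finset.sum_congr rfl; intro i _
    rw [Finset.mul_sum]
    apply Finset.sum_congr rfl; intro x _
    rw [Finset.mul_sum]
  rw [h1]
  apply Finset.sum_le_sum
  intro i _
  have h2 := hW (U i)
  rw [hnorm] at h2
  calc ν i * ∑ x, ∑ y, W x y * (U i x * U i y) ≤ |ν i * ∑ x, ∑ y, W x y * (U i x * U i y)| := le_abs_self _
    _ = |ν i| * |∑ x, ∑ y, W x y * (U i x * U i y)| := abs_mul _ _
    _ ≤ |ν i| * 1 := mul_le_mul_of_nonneg_left h2 (abs_nonneg _)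
    _ = |ν i| := mul_one _

lemma upper {V : Type} [Fintype V] [DecidableEq V] (A K : Matrix V V ℝ) (hA : A.IsHermitian)
    (hK : ∀ u : V → ℝ, |∑ x, ∑ y, A x y * (u x * u y)| ≤ ∑ x, ∑ y, K x y * (u x * u y)) :
    (A.charpoly.roots.map (fun x : ℝ => |x|)).sum ≤ ∑ x, K x x := by
  obtain ⟨ν, U, hroots, -, horth, hnorm, heig⟩ := spec A hA
  rw [hroots, Multiset.map_map]
  show ∑ i, |ν i| ≤ _
  have h1 : ∀ i, ∑ x, ∑ y, A x y * (U i x * U i y) = ν i := by
    intro i
    have : ∀ x, ∑ y, A x y * (U i x * U i y) = ν i * (U i x * U i x) := by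
      intro x
      have h := heig i x
      calc ∑ y, A x y * (U i x * U i y) = U i x * ∑ y, A x y * U i y := by
            rw [Finset.mul_sum]; apply Finset.sum_congr rfl; intro y _; ring
        _ = ν i * (U i x * U i x) := by rw [h]; ring
    simp_rw [this]
    rw [← Finset.mul_sum, hnorm, mul_one]
  have h2 : ∑ i, ∑ x, ∑ y, K x y * (U i x * U i y) = ∑ x, K x x := by
    rw [Finset.sum_comm]
    apply Finset.sum_congr rfl; intro x _
    rw [Finset.sum_comm]
    have : ∀ y, ∑ i, K x y * (U i x * U i y) = if x = y then K x y else 0 := by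
      intro y
      rw [← Finset.mul_sum, horth]
      split_ifs <;> simp
    simp_rw [this]
    simp
  rw [← h2]
  apply Finset.sum_le_sum
  intro i _
  have h3 := hK (U i)
  rwa [h1] at h3

/-- tree from a parent function -/
def PG {V : Type} (p : V → V) : SimpleGraph V := SimpleGraph.fromRel (fun x y => y = p x)

lemma PG_adj {V : Type} (p : V → V) (x y : V) :
    (PG p).Adj x y ↔ x ≠ y ∧ (y = p x ∨ x = p y) := by
  unfold PG
  rw [SimpleGraph.fromRel_adj]

lemma PG_tree {V : Type} [Fintype V] [DecidableEq V] (p : V → V) (r : V) (ρ : V → ℕ)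
    (hp : p r = r) (hρ : ∀ x, x ≠ r → ρ (p x) < ρ x) : (PG p).IsTree := by
  classical
  have hreach : ∀ n, ∀ x, ρ x ≤ n → (PG p).Reachable x r := by
    intro n
    induction n with
    | zero =>
      intro x hx
      by_cases h : x = r
      · subst h; exact SimpleGraph.Reachable.refl _
      · have := hρ x h; omega
    | succ n ih =>
      intro x hx
      by_cases h : x = r
      · subst h; exact SimpleGraph.Reachable.refl _
      · have h1 := hρ x h
        have h2 : (PG p).Adj x (p x) := by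
          rw [PG_adj]
          refine ⟨?_, Or.inl rfl⟩
          intro h3
          rw [← h3] at h1
          omega
        exact h2.reachable.trans (ih (p x) (by omega))
  have hconn : (PG p).Connected := by
    have : Nonempty V := ⟨r⟩
    rw [SimpleGraph.connected_iff]
    refine ⟨?_, this⟩
    intro x y
    exact (hreach _ x le_rfl).trans (hreach _ y le_rfl).symm
  rw [SimpleGraph.isTree_iff_connected_and_card]
  refine ⟨hconn, ?_⟩
  have h1 := hconn.card_vert_le_card_edgeSet_add_one
  have h2 : Nat.card (PG p).edgeSet + 1 ≤ Nat.card V := by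
    let f : {x : V // x ≠ r} → Sym2 V := fun x => s(x.1, p x.1)
    have hsub : (PG p).edgeSet ⊆ Set.range f := by
      intro e he
      induction e using Sym2.ind with
      | _ a b =>
        rw [SimpleGraph.mem_edgeSet, PG_adj] at he
        rcases he with ⟨hne, h | h⟩
        · refine ⟨⟨a, ?_⟩, ?_⟩
          · rintro rfl
            rw [hp] at h; exact hne h.symm
          · simp only [f]; rw [h]
        · refine ⟨⟨b, ?_⟩, ?_⟩
          · rintro rfl
            rw [hp] at h; exact hne h
          · simp only [f]; rw [h, Sym2.eq_swap]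
    have h3 : Nat.card (PG p).edgeSet ≤ Nat.card (Set.range f) :=
      Nat.card_mono (Set.finite_range f) hsub
    have h4 : Nat.card (Set.range f) ≤ Nat.card {x : V // x ≠ r} := by
      exact Finite.card_range_le f
    have h5 : Nat.card {x : V // x ≠ r} + 1 = Nat.card V := by
      rw [Nat.card_eq_fintype_card, Nat.card_eq_fintype_card, Fintype.card_subtype_compl]
      have : 0 < Fintype.card V := Fintype.card_pos_iff.mpr ⟨r⟩
      simp
      omega
    omega
  omega

abbrev VT : Type := Option (Fin 100) × Bool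
abbrev VS : Type := (Fin 50 × Fin 4) ⊕ Bool

def pT : VT → VT
  | (a, true) => (a, false)
  | (_, false) => (none, false)

def rT : VT → ℕ
  | (_, true) => 2
  | (some _, false) => 1
  | (none, false) => 0

lemma T_tree : (PG pT).IsTree := by
  apply PG_tree pT (none, false) rT rfl
  rintro ⟨a, b⟩ h
  cases b <;> cases a <;> simp [pT, rT] at h ⊢

def pS : VS → VS
  | .inl (_, 0) => .inl (0, 0)
  | .inl (q, 1) => .inl (q, 0)
  | .inl (q, 2) => .inl (q, 1)
  | .inl (q, 3) => .inl (q, 2)
  | .inr _ => .inl (0, 0)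

def rS : VS → ℕ
  | .inl (q, r) => if q = 0 ∧ r = 0 then 0 else r.val + 1
  | .inr _ => 1

lemma S_tree : (PG pS).IsTree := by
  apply PG_tree pS (.inl (0, 0)) rS rfl
  rintro (⟨q, r⟩ | b) h
  · fin_cases r
    · simp only [pS, rS]
      have : q ≠ 0 := by
        rintro rfl
        exact h rfl
      simp [this]
    · simp only [pS, rS]
      split_ifs <;> simp_all
    · simp only [pS, rS]
      split_ifs <;> simp_all
    · simp only [pS, rS]
      split_ifs <;> simp_all
  · simp [pS, rS]

/-- star adjacency on `Option (Fin 100)` -/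
def hst (R : Type) [Zero R] [One R] : Option (Fin 100) → Option (Fin 100) → R
  | none, some _ => 1
  | some _, none => 1
  | _, _ => 0

def AT (R : Type) [Zero R] [One R] [Add R] : Matrix VT VT R := fun x z =>
  (if x.2 ≠ z.2 ∧ x.1 = z.1 then 1 else 0) + (if x.2 = false ∧ z.2 = false then hst R x.1 z.1 else 0)

lemma AT_eq (R : Type) [NonAssocSemiring R] [DecidableRel (PG pT).Adj] : (PG pT).adjMatrix R = AT R := by
  ext ⟨a, b⟩ ⟨a', b'⟩
  rw [SimpleGraph.adjMatrix_apply]
  simp only [PG_adj, AT]
  cases a <;> cases b <;> cases a' <;> cases b' <;> simp [pT, hst]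
  all_goals (try (congr 1; simp [eq_comm]))

/-- inverse of `AT ℤ` -/
def BT : Matrix VT VT ℤ := fun x z =>
  (if x.2 ≠ z.2 ∧ x.1 = z.1 then 1 else 0) - (if x.2 = true ∧ z.2 = true then hst ℤ x.1 z.1 else 0)

lemma AT_mul_BT : AT ℤ * BT = 1 := by
  ext ⟨a, b⟩ ⟨a', b'⟩
  rw [Matrix.mul_apply, Fintype.sum_prod_type]
  simp only [Fintype.sum_bool, AT, BT, Matrix.one_apply]
  cases b <;> cases b' <;> simp [Finset.sum_add_distrib]

lemma AT_det : |(AT ℝ).det| = 1 := by
  have h1 : AT ℝ = (AT ℤ).map (Int.castRingHom ℝ) := by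
    ext ⟨a, b⟩ ⟨a', b'⟩
    simp only [AT, Matrix.map_apply]
    cases a <;> cases a' <;> simp [hst]
  rw [h1]
  have h2 : ((AT ℤ).map (Int.castRingHom ℝ)).det = ((AT ℤ).det : ℝ) := by
    have := RingHom.map_det (Int.castRingHom ℝ) (AT ℤ)
    rw [RingHom.mapMatrix_apply] at this
    rw [← this]; rfl
  rw [h2]
  have h3 : (AT ℤ).det * BT.det = 1 := by
    rw [← Matrix.det_mul, AT_mul_BT, Matrix.det_one]
  have h4 : IsUnit (AT ℤ).det := IsUnit.of_mul_eq_one _ h3
  rcases Int.isUnit_iff.mp h4 with h | h <;> rw [h] <;> simp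

noncomputable def KT : Matrix VT VT ℝ := fun x z =>
  (if x = z then 1 else 0) + ((if x.2 = false ∧ z.2 = false ∧ x.1 = none ∧ z.1 = none then 10 else 0)
    + (if x.2 = false ∧ z.2 = false ∧ x.1 ≠ none ∧ z.1 ≠ none then 1 / 10 else 0))

lemma KT_trace : ∑ x, KT x x = 222 := by
  rw [Fintype.sum_prod_type]
  simp only [Fintype.sum_bool, Fintype.sum_option, KT]
  simp [Finset.sum_add_distrib]
  norm_num

lemma AT_form (u : VT → ℝ) : ∑ x, ∑ y, AT ℝ x y * (u x * u y) =
    2 * ∑ a, u (a, false) * u (a, true) + 2 * (u (none, false) * ∑ j : Fin 100, u (some j, false)) := by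
  simp only [Fintype.sum_prod_type, Fintype.sum_bool]
  have h1 : ∀ a a' : Option (Fin 100), ∀ b b' : Bool, AT ℝ (a, b) (a', b') =
      (if b ≠ b' ∧ a = a' then 1 else 0) + (if b = false ∧ b' = false then hst ℝ a a' else 0) :=
    fun _ _ _ _ => rfl
  simp only [h1]
  simp only [ne_eq, Fintype.sum_option]
  simp [Finset.sum_add_distrib, ite_mul]
  have e1 : ∑ i : Fin 100, u (some i, true) * u (some i, false)
      = ∑ i : Fin 100, u (some i, false) * u (some i, true) :=
    Finset.sum_congr rfl (fun i _ => mul_comm _ _)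
  have e2 : ∑ i : Fin 100, u (some i, false) * u (none, false)
      = u (none, false) * ∑ i : Fin 100, u (some i, false) := by
    rw [Finset.mul_sum]
    exact Finset.sum_congr rfl (fun i _ => mul_comm _ _)
  have e3 : ∑ i : Fin 100, u (none, false) * u (some i, false)
      = u (none, false) * ∑ i : Fin 100, u (some i, false) := by
    rw [Finset.mul_sum]
  simp only [hst, one_mul, zero_mul, Finset.sum_const_zero]
  rw [e1, e2, e3]
  ring

lemma KT_form (u : VT → ℝ) : ∑ x, ∑ y, KT x y * (u x * u y) =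
    ∑ x, u x * u x + 10 * (u (none, false) * u (none, false))
      + 1 / 10 * ((∑ j : Fin 100, u (some j, false)) * (∑ j : Fin 100, u (some j, false))) := by
  have h1 : ∀ x y, KT x y * (u x * u y) = (if x = y then u x * u y else 0) +
      ((if x.2 = false ∧ y.2 = false ∧ x.1 = none ∧ y.1 = none then 10 * (u x * u y) else 0)
    + (if x.2 = false ∧ y.2 = false ∧ x.1 ≠ none ∧ y.1 ≠ none then 1 / 10 * (u x * u y) else 0)) := by
    intro x y
    unfold KT
    split_ifs <;> ring
  simp_rw [h1, Finset.sum_add_distrib]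
  have h2 : ∑ x : VT, ∑ y : VT, (if x = y then u x * u y else 0) = ∑ x, u x * u x := by
    apply Finset.sum_congr rfl; intro x _
    simp
  have h3 : ∑ x : VT, ∑ y : VT, (if x.2 = false ∧ y.2 = false ∧ x.1 = none ∧ y.1 = none
      then 10 * (u x * u y) else 0) = 10 * (u (none, false) * u (none, false)) := by
    simp only [Fintype.sum_prod_type, Fintype.sum_bool, Fintype.sum_option]
    simp
  have h4 : ∑ x : VT, ∑ y : VT, (if x.2 = false ∧ y.2 = false ∧ x.1 ≠ none ∧ y.1 ≠ none
      then 1 / 10 * (u x * u y) else 0)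
      = 1 / 10 * ((∑ j : Fin 100, u (some j, false)) * (∑ j : Fin 100, u (some j, false))) := by
    simp only [Fintype.sum_prod_type, Fintype.sum_bool, Fintype.sum_option]
    simp only [ne_eq, reduceCtorEq, not_false_eq_true, not_true_eq_false, and_true, and_false,
      if_false, if_true, true_and, Finset.sum_const_zero, zero_add, add_zero, false_and]
    rw [Finset.sum_mul_sum, Finset.mul_sum]
    apply Finset.sum_congr rfl; intro i _
    rw [Finset.mul_sum]
  rw [h2, h3, h4]
  ring

lemma T_energy (hA : (AT ℝ).IsHermitian) :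
    ((AT ℝ).charpoly.roots.map (fun x : ℝ => |x|)).sum ≤ 222 := by
  rw [← KT_trace]
  apply upper _ _ hA
  intro u
  rw [AT_form, KT_form]
  have h1 : ∑ x, u x * u x = ∑ a : Option (Fin 100), (u (a, false) * u (a, false) + u (a, true) * u (a, true)) := by
    rw [Fintype.sum_prod_type]
    apply Finset.sum_congr rfl; intro a _
    rw [Fintype.sum_bool]; ring
  rw [h1]
  set S := ∑ j : Fin 100, u (some j, false) with hS
  have h2 : |∑ a : Option (Fin 100), 2 * (u (a, false) * u (a, true))| ≤
      ∑ a : Option (Fin 100), (u (a, false) * u (a, false) + u (a, true) * u (a, true)) := by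
    refine (Finset.abs_sum_le_sum_abs _ _).trans (Finset.sum_le_sum ?_)
    intro a _
    rw [abs_le]
    constructor
    · nlinarith [sq_nonneg (u (a, false) + u (a, true))]
    · nlinarith [sq_nonneg (u (a, false) - u (a, true))]
  have h3 : |2 * (u (none, false) * S)| ≤ 10 * (u (none, false) * u (none, false)) + 1 / 10 * (S * S) := by
    rw [abs_le]
    constructor
    · nlinarith [sq_nonneg (10 * u (none, false) + S)]
    · nlinarith [sq_nonneg (10 * u (none, false) - S)]
  rw [← Finset.mul_sum] at h2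
  refine (abs_add_le _ _).trans ?_
  linarith

noncomputable def w4 : Fin 4 → Fin 4 → ℝ :=
  ![![0, 15 / 17, 0, -(8 / 17)], ![15 / 17, 0, 8 / 17, 0], ![0, 8 / 17, 0, 15 / 17],
    ![-(8 / 17), 0, 15 / 17, 0]]

noncomputable def WS : Matrix VS VS ℝ
  | .inl (q, r), .inl (q', r') => if q = q' then w4 r r' else 0
  | _, _ => 0

lemma WS_sum (A : VS → VS → ℝ) : ∑ x, ∑ y, WS x y * A x y =
    ∑ q : Fin 50, ∑ r : Fin 4, ∑ r' : Fin 4, w4 r r' * A (.inl (q, r)) (.inl (q, r')) := by
  simp only [Fintype.sum_sum_type, Fintype.sum_prod_type]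
  simp [WS]

lemma WS_form (u : VS → ℝ) : |∑ x, ∑ y, WS x y * (u x * u y)| ≤ ∑ x, u x * u x := by
  rw [WS_sum (fun x y => u x * u y)]
  have h1 : ∑ x, u x * u x = (∑ q : Fin 50, ∑ r : Fin 4, u (.inl (q, r)) * u (.inl (q, r)))
      + ∑ b : Bool, u (.inr b) * u (.inr b) := by
    rw [Fintype.sum_sum_type, Fintype.sum_prod_type]
  have h2 : 0 ≤ ∑ b : Bool, u (.inr b) * u (.inr b) :=
    Finset.sum_nonneg (fun b _ => mul_self_nonneg _)
  have h3 : |∑ q : Fin 50, ∑ r : Fin 4, ∑ r' : Fin 4, w4 r r' * (u (.inl (q, r)) * u (.inl (q, r')))| ≤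
      ∑ q : Fin 50, ∑ r : Fin 4, u (.inl (q, r)) * u (.inl (q, r)) := by
    refine (Finset.abs_sum_le_sum_abs _ _).trans (Finset.sum_le_sum ?_)
    intro q _
    simp only [Fin.sum_univ_four, w4]
    simp
    set a := u (.inl (q, 0))
    set b := u (.inl (q, 1))
    set c := u (.inl (q, 2))
    set d := u (.inl (q, 3))
    rw [abs_le]
    constructor
    · nlinarith [sq_nonneg (a + (15 / 17 * b - 8 / 17 * d)), sq_nonneg (c + (8 / 17 * b + 15 / 17 * d))]
    · nlinarith [sq_nonneg (a - (15 / 17 * b - 8 / 17 * d)), sq_nonneg (c - (8 / 17 * b + 15 / 17 * d))]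
  rw [h1]
  linarith

lemma S_energy (_ : DecidableRel (PG pS).Adj) :
    222 ≤ (((PG pS).adjMatrix ℝ).charpoly.roots.map (fun x : ℝ => |x|)).sum := by
  have hA : ((PG pS).adjMatrix ℝ).IsHermitian := by
    rw [Matrix.IsHermitian, Matrix.conjTranspose_eq_transpose_of_trivial]
    exact (PG pS).isSymm_adjMatrix
  refine le_trans ?_ (lower _ WS hA WS_form)
  refine le_of_le_of_eq ?_ (WS_sum (fun x y => (PG pS).adjMatrix ℝ x y)).symm
  have h1 : ∀ q : Fin 50, ∑ r : Fin 4, ∑ r' : Fin 4,
      w4 r r' * (PG pS).adjMatrix ℝ (.inl (q, r)) (.inl (q, r')) = 76 / 17 := by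
    intro q
    have a01 : (PG pS).Adj (.inl (q, 0)) (.inl (q, 1)) := by
      rw [PG_adj]; exact ⟨by simp, Or.inr rfl⟩
    have a12 : (PG pS).Adj (.inl (q, 1)) (.inl (q, 2)) := by
      rw [PG_adj]; exact ⟨by simp, Or.inr rfl⟩
    have a23 : (PG pS).Adj (.inl (q, 2)) (.inl (q, 3)) := by
      rw [PG_adj]; exact ⟨by simp, Or.inr rfl⟩
    have a03 : ¬ (PG pS).Adj (.inl (q, 0)) (.inl (q, 3)) := by
      rw [PG_adj]
      rintro ⟨-, h | h⟩
      · simp [pS] at h
      · simp [pS] at h
    have a30 : ¬ (PG pS).Adj (.inl (q, 3)) (.inl (q, 0)) := fun h => a03 h.symm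
    simp only [Fin.sum_univ_four, w4, SimpleGraph.adjMatrix_apply]
    simp only [a01, a12, a23, a01.symm, a12.symm, a23.symm, a03, a30, if_true, if_false]
    simp
    norm_num
  simp_rw [h1]
  simp
  norm_num

lemma transport {V : Type} [Fintype V] [DecidableEq V] (G : SimpleGraph V) [DecidableRel G.Adj]
    (hG : G.IsTree) (n : ℕ) (e : V ≃ Fin n) :
    ∃ G' : SimpleGraph (Fin n), G'.IsTree ∧ ∀ (_ : DecidableRel G'.Adj),
      (G'.adjMatrix ℝ).charpoly = (G.adjMatrix ℝ).charpoly := by
  refine ⟨G.comap e.symm, ?_, ?_⟩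
  · exact (SimpleGraph.Iso.comap e.symm G).isTree_iff.mpr hG
  · intro _
    rw [← Matrix.charpoly_reindex e (G.adjMatrix ℝ)]
    congr 1
    ext i j
    simp only [SimpleGraph.adjMatrix_apply, Matrix.reindex_apply, Matrix.submatrix_apply,
      SimpleGraph.comap_adj]

lemma prod_abs_roots {V : Type} [Fintype V] [DecidableEq V] (A : Matrix V V ℝ) (hA : A.IsHermitian) :
    (A.charpoly.roots.map (fun x : ℝ => |x|)).prod = |A.det| := by
  rw [Matrix.det_eq_prod_roots_charpoly_of_splits hA.splits_charpoly]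
  exact Multiset.prod_hom _ (absHom : ℝ →*₀ ℝ)

/-- The negation of the preceding statement: For trees T, S on the same even number of vertices: if the product of absolute adjacency eigenvalues is 1 for T and 0 for S, then the sum of absolute eigenvalues (energy) of T is strictly larger than that of S. -/
theorem result :
    ¬ (∀ (n : ℕ) (T S : SimpleGraph (Fin n)) [DecidableRel T.Adj] [DecidableRel S.Adj],
      Even n → T.IsTree → S.IsTree →
      ((T.adjMatrix ℝ).charpoly.roots.map (fun x : ℝ => |x|)).prod = 1 →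
      ((S.adjMatrix ℝ).charpoly.roots.map (fun x : ℝ => |x|)).prod = 0 →
      ((S.adjMatrix ℝ).charpoly.roots.map (fun x : ℝ => |x|)).sum <
        ((T.adjMatrix ℝ).charpoly.roots.map (fun x : ℝ => |x|)).sum) := by
  classical
  intro H
  have eT : VT ≃ Fin 202 := Fintype.equivFinOfCardEq (by simp)
  have eS : VS ≃ Fin 202 := Fintype.equivFinOfCardEq (by simp)
  obtain ⟨T, hT, hT'⟩ := transport (PG pT) T_tree 202 eT
  obtain ⟨S, hS, hS'⟩ := transport (PG pS) S_tree 202 eS
  have h := @H 202 T S (Classical.decRel _) (Classical.decRel _) (by decide) hT hS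
  rw [hT', hS', AT_eq ℝ] at h
  have hAT : (AT ℝ).IsHermitian := by
    rw [← AT_eq ℝ, Matrix.IsHermitian, Matrix.conjTranspose_eq_transpose_of_trivial]
    exact (PG pT).isSymm_adjMatrix
  have hAS : ((PG pS).adjMatrix ℝ).IsHermitian := by
    rw [Matrix.IsHermitian, Matrix.conjTranspose_eq_transpose_of_trivial]
    exact (PG pS).isSymm_adjMatrix
  have h1 := h (by rw [prod_abs_roots _ hAT, AT_det]) (by
    rw [prod_abs_roots _ hAS, abs_eq_zero]
    apply Matrix.det_zero_of_row_eq (i := .inr false) (j := .inr true) (by simp)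
    funext y
    simp only [SimpleGraph.adjMatrix_apply, PG_adj]
    rcases y with ⟨q, r⟩ | b
    · fin_cases r <;> simp [pS]
    · cases b <;> simp [pS])
  have h2 := T_energy hAT
  have h3 := S_energy (Classical.decRel _)
  have h4 := h1.trans_le h2
  refine absurd h4 (not_lt.mpr ?_)
  convert h3
  

end Pool.Agent.S2738
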